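import Mathlib

/-!
# Bodies of constant width in dimension four: definitions (MP_ba7b31_co, S11071)

A frame `e` (orthonormal, four vectors) is *killed* by `K` if there are `x ∈ K` and unit vectors
`v i ⟂ e i` with `x - v i ∈ K`.  If `K` has constant width one and `±e i` do not illuminate `K`,
then `e` is killed.
-/

set_option autoImplicit false

open scoped BigOperators

namespace Pool.Agent.CW4

abbrev E := EuclideanSpace ℝ (Fin 4)

/-- What we use about a convex body `K` of constant width one. -/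
structure CW (K : Set E) : Prop where
  compact : IsCompact K
  convex : Convex ℝ K
  int_nonempty : (interior K).Nonempty
  diam : ∀ a ∈ K, ∀ b ∈ K, ‖a - b‖ ≤ 1
  normal : ∀ x ∈ K, ∀ u : E, ‖u‖ = 1 → (∀ y ∈ K, inner ℝ u y ≤ inner ℝ u x) → x - u ∈ K

/-- A kill of the frame `e`. -/
structure Kill (K : Set E) (e : Fin 4 → E) (x : E) (v : Fin 4 → E) : Prop where
  hx : x ∈ K
  hv : ∀ i, ‖v i‖ = 1
  ho : ∀ i, inner ℝ (v i) (e i) = 0
  hy : ∀ i, x - v i ∈ K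

/-- A kill in coordinates; the contact points are `(p, b, 0, 0)` and `(p, -b, 0, 0)`, the origin is
the centre of the circumscribed ball, of squared radius `p ^ 2 + b ^ 2`. Rows of `V` are the `v i`. -/
structure KillC (p b : ℝ) (x : Fin 4 → ℝ) (V : Fin 4 → Fin 4 → ℝ) : Prop where
  diag : ∀ i, V i i = 0
  unit : ∀ i, ∑ j, V i j ^ 2 = 1
  ballx : ∑ j, x j ^ 2 ≤ p ^ 2 + b ^ 2
  bally : ∀ i, ∑ j, (x j - V i j) ^ 2 ≤ p ^ 2 + b ^ 2
  c1x : ∑ j, (x j - ![p, b, 0, 0] j) ^ 2 ≤ 1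
  c2x : ∑ j, (x j - ![p, -b, 0, 0] j) ^ 2 ≤ 1
  c1y : ∀ i, ∑ j, (x j - V i j - ![p, b, 0, 0] j) ^ 2 ≤ 1
  c2y : ∀ i, ∑ j, (x j - V i j - ![p, -b, 0, 0] j) ^ 2 ≤ 1
  pair : ∀ i k, ∑ j, (V i j - V k j) ^ 2 ≤ 1

/-- Mutual distances at most one between the points of two kills of the same frame. -/
structure CrossC (x : Fin 4 → ℝ) (V : Fin 4 → Fin 4 → ℝ) (x' : Fin 4 → ℝ)
    (V' : Fin 4 → Fin 4 → ℝ) : Prop where
  xx : ∑ j, (x j - x' j) ^ 2 ≤ 1
  xy : ∀ k, ∑ j, (x j - (x' j - V' k j)) ^ 2 ≤ 1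
  yx : ∀ i, ∑ j, (x j - V i j - x' j) ^ 2 ≤ 1
  yy : ∀ i k, ∑ j, (x j - V i j - (x' j - V' k j)) ^ 2 ≤ 1

/-- Weak column signs. -/
structure SignC (V : Fin 4 → Fin 4 → ℝ) (s : Fin 4 → ℝ) : Prop where
  pm : ∀ j, s j = 1 ∨ s j = -1
  nn : ∀ i j, 0 ≤ s j * V i j

/-- The parameter range of the contact points. -/
structure ParC (p b : ℝ) : Prop where
  p0 : 0 ≤ p
  b0 : 0 ≤ b
  b2 : b ≤ 1 / 2
  pb : 5 * p ^ 2 ≤ 3 * b ^ 2

/-- There is no pair of kills of the same frame with column signs `s`, `s'`. -/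
def Infeas (s s' : Fin 4 → ℝ) : Prop :=
  ∀ (p b : ℝ) (x : Fin 4 → ℝ) (V : Fin 4 → Fin 4 → ℝ) (x' : Fin 4 → ℝ) (V' : Fin 4 → Fin 4 → ℝ),
    ParC p b → KillC p b x V → KillC p b x' V' → CrossC x V x' V' →
    SignC V s → SignC V' s' → False

end Pool.Agent.CW4
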