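import Pool.Agent.CW4.TreeSound
import Pool.Agent.CW4.Data.C0
import Pool.Agent.CW4.Data.C1
import Pool.Agent.CW4.Data.C2a
import Pool.Agent.CW4.Data.C2b
import Pool.Agent.CW4.Data.C2c
import Pool.Agent.CW4.Data.C2d
import Pool.Agent.CW4.Data.C3
import Pool.Agent.CW4.Data.C4
import Pool.Agent.CW4.Data.C5
import Pool.Agent.CW4.Data.C6
import Pool.Agent.CW4.Data.C7

/-! # The eight infeasibility statements -/

set_option autoImplicit false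

namespace Pool.Agent.CW4

theorem pm4 {a b c d : ℤ} (ha : a = 1 ∨ a = -1) (hb : b = 1 ∨ b = -1) (hc : c = 1 ∨ c = -1)
    (hd : d = 1 ∨ d = -1) : ∀ j : Fin 4, (![a, b, c, d] : Fin 4 → ℤ) j = 1 ∨
      (![a, b, c, d] : Fin 4 → ℤ) j = -1 := by
  intro j
  fin_cases j
  · exact ha
  · exact hb
  · exact hc
  · exact hd

theorem h1 : Infeas ![1, 1, 1, 1] ![1, 1, 1, -1] := by
  have a0 : SliceOK ![1, 1, 1, 1] ![1, 1, 1, -1] 0 350000 := slice_of_check C0.tree0 C0.all0 C0.ok0 rfl rfl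
  have a1 : SliceOK ![1, 1, 1, 1] ![1, 1, 1, -1] 350000 365000 := slice_of_check C0.tree1 C0.all1 C0.ok1 rfl rfl
  have a2 : SliceOK ![1, 1, 1, 1] ![1, 1, 1, -1] 365000 375000 := slice_of_check C0.tree2 C0.all2 C0.ok2 rfl rfl
  have a3 : SliceOK ![1, 1, 1, 1] ![1, 1, 1, -1] 375000 390000 := slice_of_check C0.tree3 C0.all3 C0.ok3 rfl rfl
  have a4 : SliceOK ![1, 1, 1, 1] ![1, 1, 1, -1] 390000 400000 := slice_of_check C0.tree4 C0.all4 C0.ok4 rfl rfl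
  have h := infeas_of_slice (pm4 (by norm_num : (1 : ℤ) = 1 ∨ (1 : ℤ) = -1) (by norm_num : (1 : ℤ) = 1 ∨ (1 : ℤ) = -1) (by norm_num : (1 : ℤ) = 1 ∨ (1 : ℤ) = -1) (by norm_num : (1 : ℤ) = 1 ∨ (1 : ℤ) = -1)) (pm4 (by norm_num : (1 : ℤ) = 1 ∨ (1 : ℤ) = -1) (by norm_num : (1 : ℤ) = 1 ∨ (1 : ℤ) = -1) (by norm_num : (1 : ℤ) = 1 ∨ (1 : ℤ) = -1) (by norm_num : (-1 : ℤ) = 1 ∨ (-1 : ℤ) = -1)) ((((a0.join a1).join a2).join a3).join a4)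
  have e1 : (fun j => (((![1, 1, 1, 1] : Fin 4 → ℤ) j : ℤ) : ℝ)) = ![1, 1, 1, 1] := by
    funext j; fin_cases j <;> simp
  have e2 : (fun j => (((![1, 1, 1, -1] : Fin 4 → ℤ) j : ℤ) : ℝ)) = ![1, 1, 1, -1] := by
    funext j; fin_cases j <;> simp
  rw [e1, e2] at h
  exact h

theorem h2 : Infeas ![-1, 1, 1, 1] ![-1, 1, 1, -1] := by
  have a0 : SliceOK ![-1, 1, 1, 1] ![-1, 1, 1, -1] 0 360000 := slice_of_check C1.tree0 C1.all0 C1.ok0 rfl rfl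
  have a1 : SliceOK ![-1, 1, 1, 1] ![-1, 1, 1, -1] 360000 380000 := slice_of_check C1.tree1 C1.all1 C1.ok1 rfl rfl
  have a2 : SliceOK ![-1, 1, 1, 1] ![-1, 1, 1, -1] 380000 400000 := slice_of_check C1.tree2 C1.all2 C1.ok2 rfl rfl
  have h := infeas_of_slice (pm4 (by norm_num : (-1 : ℤ) = 1 ∨ (-1 : ℤ) = -1) (by norm_num : (1 : ℤ) = 1 ∨ (1 : ℤ) = -1) (by norm_num : (1 : ℤ) = 1 ∨ (1 : ℤ) = -1) (by norm_num : (1 : ℤ) = 1 ∨ (1 : ℤ) = -1)) (pm4 (by norm_num : (-1 : ℤ) = 1 ∨ (-1 : ℤ) = -1) (by norm_num : (1 : ℤ) = 1 ∨ (1 : ℤ) = -1) (by norm_num : (1 : ℤ) = 1 ∨ (1 : ℤ) = -1) (by norm_num : (-1 : ℤ) = 1 ∨ (-1 : ℤ) = -1)) ((a0.join a1).join a2)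
  have e1 : (fun j => (((![-1, 1, 1, 1] : Fin 4 → ℤ) j : ℤ) : ℝ)) = ![-1, 1, 1, 1] := by
    funext j; fin_cases j <;> simp
  have e2 : (fun j => (((![-1, 1, 1, -1] : Fin 4 → ℤ) j : ℤ) : ℝ)) = ![-1, 1, 1, -1] := by
    funext j; fin_cases j <;> simp
  rw [e1, e2] at h
  exact h

theorem h3 : Infeas ![1, 1, 1, 1] ![1, -1, 1, -1] := by
  have a0 : SliceOK ![1, 1, 1, 1] ![1, -1, 1, -1] 0 350000 := slice_of_check C2a.tree0 C2a.all0 C2a.ok0 rfl rfl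
  have a1 : SliceOK ![1, 1, 1, 1] ![1, -1, 1, -1] 350000 360000 := slice_of_check C2a.tree1 C2a.all1 C2a.ok1 rfl rfl
  have a2 : SliceOK ![1, 1, 1, 1] ![1, -1, 1, -1] 360000 365000 := slice_of_check C2a.tree2 C2a.all2 C2a.ok2 rfl rfl
  have a3 : SliceOK ![1, 1, 1, 1] ![1, -1, 1, -1] 365000 370000 := slice_of_check C2a.tree3 C2a.all3 C2a.ok3 rfl rfl
  have a4 : SliceOK ![1, 1, 1, 1] ![1, -1, 1, -1] 370000 375000 := slice_of_check C2b.tree0 C2b.all0 C2b.ok0 rfl rfl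
  have a5 : SliceOK ![1, 1, 1, 1] ![1, -1, 1, -1] 375000 380000 := slice_of_check C2b.tree1 C2b.all1 C2b.ok1 rfl rfl
  have a6 : SliceOK ![1, 1, 1, 1] ![1, -1, 1, -1] 380000 390000 := slice_of_check C2c.tree0 C2c.all0 C2c.ok0 rfl rfl
  have a7 : SliceOK ![1, 1, 1, 1] ![1, -1, 1, -1] 390000 400000 := slice_of_check C2d.tree0 C2d.all0 C2d.ok0 rfl rfl
  have h := infeas_of_slice (pm4 (by norm_num : (1 : ℤ) = 1 ∨ (1 : ℤ) = -1) (by norm_num : (1 : ℤ) = 1 ∨ (1 : ℤ) = -1) (by norm_num : (1 : ℤ) = 1 ∨ (1 : ℤ) = -1) (by norm_num : (1 : ℤ) = 1 ∨ (1 : ℤ) = -1)) (pm4 (by norm_num : (1 : ℤ) = 1 ∨ (1 : ℤ) = -1) (by norm_num : (-1 : ℤ) = 1 ∨ (-1 : ℤ) = -1) (by norm_num : (1 : ℤ) = 1 ∨ (1 : ℤ) = -1) (by norm_num : (-1 : ℤ) = 1 ∨ (-1 : ℤ) = -1)) (((((((a0.join a1).join a2).join a3).join a4).join a5).join a6).join a7)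
  have e1 : (fun j => (((![1, 1, 1, 1] : Fin 4 → ℤ) j : ℤ) : ℝ)) = ![1, 1, 1, 1] := by
    funext j; fin_cases j <;> simp
  have e2 : (fun j => (((![1, -1, 1, -1] : Fin 4 → ℤ) j : ℤ) : ℝ)) = ![1, -1, 1, -1] := by
    funext j; fin_cases j <;> simp
  rw [e1, e2] at h
  exact h

theorem h4 : Infeas ![-1, 1, 1, 1] ![-1, -1, 1, -1] := by
  have a0 : SliceOK ![-1, 1, 1, 1] ![-1, -1, 1, -1] 0 360000 := slice_of_check C3.tree0 C3.all0 C3.ok0 rfl rfl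
  have a1 : SliceOK ![-1, 1, 1, 1] ![-1, -1, 1, -1] 360000 375000 := slice_of_check C3.tree1 C3.all1 C3.ok1 rfl rfl
  have a2 : SliceOK ![-1, 1, 1, 1] ![-1, -1, 1, -1] 375000 380000 := slice_of_check C3.tree2 C3.all2 C3.ok2 rfl rfl
  have a3 : SliceOK ![-1, 1, 1, 1] ![-1, -1, 1, -1] 380000 400000 := slice_of_check C3.tree3 C3.all3 C3.ok3 rfl rfl
  have h := infeas_of_slice (pm4 (by norm_num : (-1 : ℤ) = 1 ∨ (-1 : ℤ) = -1) (by norm_num : (1 : ℤ) = 1 ∨ (1 : ℤ) = -1) (by norm_num : (1 : ℤ) = 1 ∨ (1 : ℤ) = -1) (by norm_num : (1 : ℤ) = 1 ∨ (1 : ℤ) = -1)) (pm4 (by norm_num : (-1 : ℤ) = 1 ∨ (-1 : ℤ) = -1) (by norm_num : (-1 : ℤ) = 1 ∨ (-1 : ℤ) = -1) (by norm_num : (1 : ℤ) = 1 ∨ (1 : ℤ) = -1) (by norm_num : (-1 : ℤ) = 1 ∨ (-1 : ℤ) = -1)) (((a0.join a1).join a2).join a3)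
  have e1 : (fun j => (((![-1, 1, 1, 1] : Fin 4 → ℤ) j : ℤ) : ℝ)) = ![-1, 1, 1, 1] := by
    funext j; fin_cases j <;> simp
  have e2 : (fun j => (((![-1, -1, 1, -1] : Fin 4 → ℤ) j : ℤ) : ℝ)) = ![-1, -1, 1, -1] := by
    funext j; fin_cases j <;> simp
  rw [e1, e2] at h
  exact h

theorem h5 : Infeas ![1, 1, 1, 1] ![-1, 1, 1, 1] := by
  have a0 : SliceOK ![1, 1, 1, 1] ![-1, 1, 1, 1] 0 360000 := slice_of_check C4.tree0 C4.all0 C4.ok0 rfl rfl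
  have a1 : SliceOK ![1, 1, 1, 1] ![-1, 1, 1, 1] 360000 375000 := slice_of_check C4.tree1 C4.all1 C4.ok1 rfl rfl
  have a2 : SliceOK ![1, 1, 1, 1] ![-1, 1, 1, 1] 375000 380000 := slice_of_check C4.tree2 C4.all2 C4.ok2 rfl rfl
  have a3 : SliceOK ![1, 1, 1, 1] ![-1, 1, 1, 1] 380000 390000 := slice_of_check C4.tree3 C4.all3 C4.ok3 rfl rfl
  have a4 : SliceOK ![1, 1, 1, 1] ![-1, 1, 1, 1] 390000 400000 := slice_of_check C4.tree4 C4.all4 C4.ok4 rfl rfl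
  have h := infeas_of_slice (pm4 (by norm_num : (1 : ℤ) = 1 ∨ (1 : ℤ) = -1) (by norm_num : (1 : ℤ) = 1 ∨ (1 : ℤ) = -1) (by norm_num : (1 : ℤ) = 1 ∨ (1 : ℤ) = -1) (by norm_num : (1 : ℤ) = 1 ∨ (1 : ℤ) = -1)) (pm4 (by norm_num : (-1 : ℤ) = 1 ∨ (-1 : ℤ) = -1) (by norm_num : (1 : ℤ) = 1 ∨ (1 : ℤ) = -1) (by norm_num : (1 : ℤ) = 1 ∨ (1 : ℤ) = -1) (by norm_num : (1 : ℤ) = 1 ∨ (1 : ℤ) = -1)) ((((a0.join a1).join a2).join a3).join a4)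
  have e1 : (fun j => (((![1, 1, 1, 1] : Fin 4 → ℤ) j : ℤ) : ℝ)) = ![1, 1, 1, 1] := by
    funext j; fin_cases j <;> simp
  have e2 : (fun j => (((![-1, 1, 1, 1] : Fin 4 → ℤ) j : ℤ) : ℝ)) = ![-1, 1, 1, 1] := by
    funext j; fin_cases j <;> simp
  rw [e1, e2] at h
  exact h

theorem h6 : Infeas ![1, 1, 1, 1] ![-1, -1, 1, 1] := by
  have a0 : SliceOK ![1, 1, 1, 1] ![-1, -1, 1, 1] 0 360000 := slice_of_check C5.tree0 C5.all0 C5.ok0 rfl rfl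
  have a1 : SliceOK ![1, 1, 1, 1] ![-1, -1, 1, 1] 360000 375000 := slice_of_check C5.tree1 C5.all1 C5.ok1 rfl rfl
  have a2 : SliceOK ![1, 1, 1, 1] ![-1, -1, 1, 1] 375000 380000 := slice_of_check C5.tree2 C5.all2 C5.ok2 rfl rfl
  have a3 : SliceOK ![1, 1, 1, 1] ![-1, -1, 1, 1] 380000 390000 := slice_of_check C5.tree3 C5.all3 C5.ok3 rfl rfl
  have a4 : SliceOK ![1, 1, 1, 1] ![-1, -1, 1, 1] 390000 400000 := slice_of_check C5.tree4 C5.all4 C5.ok4 rfl rfl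
  have h := infeas_of_slice (pm4 (by norm_num : (1 : ℤ) = 1 ∨ (1 : ℤ) = -1) (by norm_num : (1 : ℤ) = 1 ∨ (1 : ℤ) = -1) (by norm_num : (1 : ℤ) = 1 ∨ (1 : ℤ) = -1) (by norm_num : (1 : ℤ) = 1 ∨ (1 : ℤ) = -1)) (pm4 (by norm_num : (-1 : ℤ) = 1 ∨ (-1 : ℤ) = -1) (by norm_num : (-1 : ℤ) = 1 ∨ (-1 : ℤ) = -1) (by norm_num : (1 : ℤ) = 1 ∨ (1 : ℤ) = -1) (by norm_num : (1 : ℤ) = 1 ∨ (1 : ℤ) = -1)) ((((a0.join a1).join a2).join a3).join a4)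
  have e1 : (fun j => (((![1, 1, 1, 1] : Fin 4 → ℤ) j : ℤ) : ℝ)) = ![1, 1, 1, 1] := by
    funext j; fin_cases j <;> simp
  have e2 : (fun j => (((![-1, -1, 1, 1] : Fin 4 → ℤ) j : ℤ) : ℝ)) = ![-1, -1, 1, 1] := by
    funext j; fin_cases j <;> simp
  rw [e1, e2] at h
  exact h

theorem h7 : Infeas ![1, 1, 1, 1] ![-1, 1, -1, -1] := by
  have a0 : SliceOK ![1, 1, 1, 1] ![-1, 1, -1, -1] 0 360000 := slice_of_check C6.tree0 C6.all0 C6.ok0 rfl rfl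
  have a1 : SliceOK ![1, 1, 1, 1] ![-1, 1, -1, -1] 360000 375000 := slice_of_check C6.tree1 C6.all1 C6.ok1 rfl rfl
  have a2 : SliceOK ![1, 1, 1, 1] ![-1, 1, -1, -1] 375000 380000 := slice_of_check C6.tree2 C6.all2 C6.ok2 rfl rfl
  have a3 : SliceOK ![1, 1, 1, 1] ![-1, 1, -1, -1] 380000 390000 := slice_of_check C6.tree3 C6.all3 C6.ok3 rfl rfl
  have a4 : SliceOK ![1, 1, 1, 1] ![-1, 1, -1, -1] 390000 400000 := slice_of_check C6.tree4 C6.all4 C6.ok4 rfl rfl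
  have h := infeas_of_slice (pm4 (by norm_num : (1 : ℤ) = 1 ∨ (1 : ℤ) = -1) (by norm_num : (1 : ℤ) = 1 ∨ (1 : ℤ) = -1) (by norm_num : (1 : ℤ) = 1 ∨ (1 : ℤ) = -1) (by norm_num : (1 : ℤ) = 1 ∨ (1 : ℤ) = -1)) (pm4 (by norm_num : (-1 : ℤ) = 1 ∨ (-1 : ℤ) = -1) (by norm_num : (1 : ℤ) = 1 ∨ (1 : ℤ) = -1) (by norm_num : (-1 : ℤ) = 1 ∨ (-1 : ℤ) = -1) (by norm_num : (-1 : ℤ) = 1 ∨ (-1 : ℤ) = -1)) ((((a0.join a1).join a2).join a3).join a4)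
  have e1 : (fun j => (((![1, 1, 1, 1] : Fin 4 → ℤ) j : ℤ) : ℝ)) = ![1, 1, 1, 1] := by
    funext j; fin_cases j <;> simp
  have e2 : (fun j => (((![-1, 1, -1, -1] : Fin 4 → ℤ) j : ℤ) : ℝ)) = ![-1, 1, -1, -1] := by
    funext j; fin_cases j <;> simp
  rw [e1, e2] at h
  exact h

theorem h8 : Infeas ![1, 1, 1, 1] ![-1, -1, -1, -1] := by
  have a0 : SliceOK ![1, 1, 1, 1] ![-1, -1, -1, -1] 0 360000 := slice_of_check C7.tree0 C7.all0 C7.ok0 rfl rfl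
  have a1 : SliceOK ![1, 1, 1, 1] ![-1, -1, -1, -1] 360000 380000 := slice_of_check C7.tree1 C7.all1 C7.ok1 rfl rfl
  have a2 : SliceOK ![1, 1, 1, 1] ![-1, -1, -1, -1] 380000 400000 := slice_of_check C7.tree2 C7.all2 C7.ok2 rfl rfl
  have h := infeas_of_slice (pm4 (by norm_num : (1 : ℤ) = 1 ∨ (1 : ℤ) = -1) (by norm_num : (1 : ℤ) = 1 ∨ (1 : ℤ) = -1) (by norm_num : (1 : ℤ) = 1 ∨ (1 : ℤ) = -1) (by norm_num : (1 : ℤ) = 1 ∨ (1 : ℤ) = -1)) (pm4 (by norm_num : (-1 : ℤ) = 1 ∨ (-1 : ℤ) = -1) (by norm_num : (-1 : ℤ) = 1 ∨ (-1 : ℤ) = -1) (by norm_num : (-1 : ℤ) = 1 ∨ (-1 : ℤ) = -1) (by norm_num : (-1 : ℤ) = 1 ∨ (-1 : ℤ) = -1)) ((a0.join a1).join a2)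
  have e1 : (fun j => (((![1, 1, 1, 1] : Fin 4 → ℤ) j : ℤ) : ℝ)) = ![1, 1, 1, 1] := by
    funext j; fin_cases j <;> simp
  have e2 : (fun j => (((![-1, -1, -1, -1] : Fin 4 → ℤ) j : ℤ) : ℝ)) = ![-1, -1, -1, -1] := by
    funext j; fin_cases j <;> simp
  rw [e1, e2] at h
  exact h

end Pool.Agent.CW4
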