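import Pool.Agent.CW4.Basic

/-!
# The certificate checker (computable part)

Quadratic forms in a list of variables are lists of rows (upper triangular): row `i` holds the
coefficients of `z_i z_i, z_i z_{i+1}, ...`.
-/

set_option autoImplicit false

namespace Pool.Agent.CW4

abbrev Form := List Int
abbrev Quad := List (List Int)

def isZ : Int → Bool
  | Int.ofNat 0 => true
  | _ => false

def smulL (m : Int) : List Int → List Int
  | [] => []
  | x :: xs => (m * x) :: smulL m xs

def addL : List Int → List Int → List Int
  | [], ys => ys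
  | x :: xs, [] => x :: xs
  | x :: xs, y :: ys => (x + y) :: addL xs ys

def subL : List Int → List Int → List Int
  | [], ys => smulL (-1) ys
  | x :: xs, [] => x :: xs
  | x :: xs, y :: ys => (x - y) :: subL xs ys

/-- add `m * (l·z)^2` -/
def addSq (m : Int) : Form → Quad → Quad
  | [], acc => acc
  | a :: l, [] =>
      bif isZ a then [] :: addSq m l []
      else (m * a * a :: smulL (2 * m * a) l) :: addSq m l []
  | a :: l, r :: acc =>
      bif isZ a then r :: addSq m l acc
      else addL (m * a * a :: smulL (2 * m * a) l) r :: addSq m l acc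

/-- subtract `∑_k (L_k · z_{≥k})^2` -/
def subTri : List Form → Quad → Quad
  | [], acc => acc
  | l :: ls, acc =>
      match addSq (-1) l acc with
      | [] => []
      | r :: rs => r :: subTri ls rs

def smulQ (m : Int) : Quad → Quad
  | [] => []
  | r :: rs => smulL m r :: smulQ m rs

def nnL : List Int → Bool
  | [] => true
  | x :: xs => decide (0 ≤ x) && nnL xs

def nnQ : Quad → Bool
  | [] => true
  | r :: rs => nnL r && nnQ rs

def nnUps : List (List Int × List Int) → Bool
  | [] => true
  | (b, e) :: ns => nnL b && nnL e && nnUps ns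

def sumL : List Int → Int
  | [] => 0
  | x :: xs => x + sumL xs

structure Box where
  lo : List Int
  hi : List Int

/-- scale of the Cholesky factors -/
def SC : Int := 4194304

def parC (j : Nat) (mt al be ga : Int) : Int :=
  match j with
  | 0 => -mt + 5 * al - be + ga
  | 1 => -mt - 3 * al - be + ga
  | _ => 0

/-! ### decoding -/

def dec : Nat → Nat → List Int
  | 0, _ => []
  | n + 1, N => (Int.ofNat (N % 281474976710656) - 140737488355328) :: dec n (N / 281474976710656)

/-- `dec` and the rest -/
def dec' (n N : Nat) : List Int × Nat := (dec n N, N >>> (48 * n))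

def decTri : Nat → Nat → List (List Int) × Nat
  | 0, N => ([], N)
  | n + 1, N =>
      match dec' (n + 1) N with
      | (r, N1) => match decTri n N1 with
        | (rs, N2) => (r :: rs, N2)

def decNu (n : Nat) : Nat → Nat → List (List Int × List Int) × Nat
  | 0, N => ([], N)
  | k + 1, N =>
      match dec' n N with
      | (b, N1) => match dec' k N1 with
        | (e, N2) => match decNu n k N2 with
          | (rs, N3) => ((b, e) :: rs, N3)

/-! ### rules -/

def mx2 (l h : Int) : Int := max (l * l) (h * h)
def mn2 (l h : Int) : Int := if 0 < l then l * l else if h < 0 then h * h else 0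

/-- rules for one coordinate of one kill -/
def ruleX (r e l h : Int) : Bool :=
  (decide (0 ≤ l) && decide (4 * r * 1000000 - e * e < 4 * l * l * 1000000)) ||
  (decide (h ≤ 0) && decide (8 * r * 1000000 - 3 * (e * e) < 8 * h * h * 1000000)) ||
  decide (4 * mx2 l h * 1000000 < 3 * (e * e) - 8 * r * 1000000)

def anyX (r e : Int) : List Int → List Int → Bool
  | l :: ls, h :: hs => ruleX r e l h || anyX r e ls hs
  | _, _ => false

def sumMx : List Int → List Int → Int
  | l :: ls, h :: hs => mx2 l h + sumMx ls hs
  | _, _ => 0

def sumMn : List Int → List Int → Int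
  | l :: ls, h :: hs => mn2 l h + sumMn ls hs
  | _, _ => 0

/-- rules for one kill: `R` upper bound of `R²`, `[rl, rh]` range of `|x|²`, ranges of `s_j x_j`. -/
def ruleK (R rl rh : Int) (l h : List Int) : Bool :=
  let r := min rh R
  let e := 1000000 + r - R
  decide (R < rl) || decide (3 * r * 1000000 < e * e) || anyX r e l h ||
  decide (sumMx l h < rl) || decide (rh < sumMn l h)

def ruleP (Rl Rh pl ph bl bh : Int) : Bool :=
  (decide (0 ≤ pl) && decide (0 ≤ bl) && decide (Rh < pl * pl + bl * bl)) ||
  decide (ph * ph + bh * bh < Rl) || decide (8 * (bh * bh) < 5 * Rl) ||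
  (decide (0 ≤ pl) && decide (3 * Rh < 8 * (pl * pl)))

def triv (B : Box) : Bool :=
  match B.lo, B.hi with
  | [R, r, r', a, b, c, d, a', b', c', d', p, q], [R1, s, s', e, f, g, h, e', f', g', h', p1, q1] =>
      ruleK (min R1 400000) r s [a, b, c, d] [e, f, g, h] ||
      ruleK (min R1 400000) r' s' [a', b', c', d'] [e', f', g', h'] ||
      ruleP R R1 p p1 q q1
  | _, _ => false

/-- the root box of a slice of `p² + b²` -/
def rootBox (lo hi : Int) : Box :=
  ⟨[lo, 0, 0, -1000, -1000, -1000, -1000, -1000, -1000, -1000, -1000, 0, 0],
   [hi, 400000, 400000, 1000, 1000, 1000, 1000, 1000, 1000, 1000, 1000, 1000, 500]⟩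

end Pool.Agent.CW4
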