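import Pool.Agent.CW4.Basic

/-!
# The circumscribed ball and two contact points (step F2 of MP_ba7b31_co, S11071)
-/

set_option autoImplicit false

open Set Filter Topology
open scoped BigOperators

namespace Pool.Agent.CW4

/-- The farthest-distance function of a nonempty compact set attains its minimum. -/
theorem exists_min_ball (K : Set E) (hc : IsCompact K) (hne : K.Nonempty) :
    ∃ (o : E) (R : ℝ), (∀ x ∈ K, ‖x - o‖ ≤ R) ∧ (∃ x ∈ K, ‖x - o‖ = R) ∧
      ∀ o' : E, ∃ x ∈ K, R ≤ ‖x - o'‖ := by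
  have h1 : ∀ o : E, ∃ x ∈ K, ∀ y ∈ K, ‖y - o‖ ≤ ‖x - o‖ := by
    intro o
    obtain ⟨x, hx, hmax⟩ := hc.exists_isMaxOn hne
      (f := fun x : E => ‖x - o‖) (by fun_prop)
    exact ⟨x, hx, fun y hy => hmax hy⟩
  choose p hp hpm using h1
  let F : E → ℝ := fun o => ‖p o - o‖
  have hF1 : ∀ o o', F o ≤ F o' + ‖o - o'‖ := by
    intro o o'
    have h2 : ‖p o - o‖ ≤ ‖p o - o'‖ + ‖o' - o‖ := by
      have := norm_add_le (p o - o') (o' - o)
      simpa using this
    have h3 := hpm o' (p o) (hp o)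
    show ‖p o - o‖ ≤ ‖p o' - o'‖ + ‖o - o'‖
    rw [norm_sub_rev o' o] at h2
    linarith
  have hcont : Continuous F := by
    refine LipschitzWith.continuous (K := 1) (LipschitzWith.of_dist_le_mul fun o o' => ?_)
    rw [Real.dist_eq, dist_eq_norm, abs_le]
    have h2 := hF1 o o'
    have h3 := hF1 o' o
    rw [norm_sub_rev o' o] at h3
    simp only [NNReal.coe_one, one_mul]
    constructor <;> linarith
  obtain ⟨x0, hx0⟩ := hne
  have hlim : Tendsto F (cocompact E) atTop := by
    have h2 : Tendsto (fun o : E => ‖o‖ - ‖x0‖) (cocompact E) atTop :=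
      tendsto_atTop_add_const_right _ _ (tendsto_norm_cocompact_atTop (E := E))
    refine tendsto_atTop_mono (fun o => ?_) h2
    have h3 := hpm o x0 hx0
    have h4 := norm_sub_norm_le o x0
    rw [norm_sub_rev] at h4
    show ‖o‖ - ‖x0‖ ≤ ‖p o - o‖
    linarith
  obtain ⟨o, ho⟩ := hcont.exists_forall_le hlim
  exact ⟨o, F o, hpm o, ⟨p o, hp o, rfl⟩, fun o' => ⟨p o', hp o', ho o'⟩⟩

/-- The convex hull of a compact set in the Euclidean space is compact (Caratheodory). -/
theorem isCompact_convexHull_of_isCompact {C : Set E} (hC : IsCompact C) :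
    IsCompact (convexHull ℝ C) := by
  rcases C.eq_empty_or_nonempty with rfl | ⟨c0, hc0⟩
  · simp
  let f : (Fin 5 → ℝ) × (Fin 5 → E) → E := fun p => ∑ k, p.1 k • p.2 k
  have hf : Continuous f := by fun_prop
  have himg : f '' (stdSimplex ℝ (Fin 5) ×ˢ Set.pi univ fun _ : Fin 5 => C) = convexHull ℝ C := by
    apply Subset.antisymm
    · rintro _ ⟨⟨w, z⟩, ⟨hw, hz⟩, rfl⟩
      exact (convex_convexHull ℝ C).sum_mem (fun i _ => hw.1 i) hw.2
        (fun i _ => subset_convexHull ℝ C (hz i (mem_univ i)))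
    · intro x hx
      obtain ⟨ι, _, z, w, hz, haff, hw0, hw1, hwz⟩ := eq_pos_convex_span_of_mem_convexHull hx
      have hcard : Fintype.card ι ≤ Fintype.card (Fin 5) := by
        have h1 := haff.card_le_finrank_succ
        have h2 := Submodule.finrank_le (vectorSpan ℝ (range z))
        rw [finrank_euclideanSpace_fin] at h2
        rw [Fintype.card_fin]
        omega
      obtain ⟨g⟩ := Function.Embedding.nonempty_of_card_le hcard
      have hext : ∀ {M : Type} [AddCommMonoid M] (F : Fin 5 → M) (G : ι → M),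
          (∀ i, F (g i) = G i) → (∀ k, (¬ ∃ i, g i = k) → F k = 0) → ∑ k, F k = ∑ i, G i := by
        intro M _ F G h1 h2
        rw [← Finset.sum_subset (Finset.subset_univ (Finset.univ.map g)) (fun k _ hk => h2 k
          (fun ⟨i, hi⟩ => hk (Finset.mem_map.2 ⟨i, Finset.mem_univ i, hi⟩))), Finset.sum_map]
        exact Finset.sum_congr rfl fun i _ => h1 i
      refine ⟨⟨Function.extend g w 0, Function.extend g z fun _ => c0⟩, ⟨⟨?_, ?_⟩, ?_⟩, ?_⟩
      · intro k
        by_cases hk : ∃ i, g i = k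
        · obtain ⟨i, rfl⟩ := hk
          simp only
          rw [g.injective.extend_apply]
          exact (hw0 i).le
        · simp only
          rw [Function.extend_apply' _ _ _ hk]
          exact le_rfl
      · rw [← hw1]
        exact hext _ _ (fun i => g.injective.extend_apply _ _ _)
          (fun k hk => Function.extend_apply' _ _ _ hk)
      · intro k _
        by_cases hk : ∃ i, g i = k
        · obtain ⟨i, rfl⟩ := hk
          simp only
          rw [g.injective.extend_apply]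
          exact hz (mem_range_self i)
        · simp only
          rw [Function.extend_apply' _ _ _ hk]
          exact hc0
      · rw [← hwz]
        refine hext _ _ (fun i => ?_) (fun k hk => ?_)
        · simp only
          rw [g.injective.extend_apply, g.injective.extend_apply]
        · simp only
          rw [Function.extend_apply' _ _ _ hk]
          simp
  rw [← himg]
  exact ((isCompact_stdSimplex ℝ (Fin 5)).prod (isCompact_univ_pi fun _ => hC)).image hf

/-- The centre of the circumscribed ball is in the convex hull of the contact points. -/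
theorem center_mem_convexHull (K : Set E) (hc : IsCompact K) {o : E} {R : ℝ}
    (hR : ∀ x ∈ K, ‖x - o‖ ≤ R) (hex : ∃ x ∈ K, ‖x - o‖ = R)
    (hmin : ∀ o' : E, ∃ x ∈ K, R ≤ ‖x - o'‖) :
    o ∈ convexHull ℝ {x ∈ K | ‖x - o‖ = R} := by
  set C : Set E := {x ∈ K | ‖x - o‖ = R} with hC
  have hCc : IsCompact C := by
    refine hc.inter_right (t := {x : E | ‖x - o‖ = R}) ?_
    exact isClosed_eq (by fun_prop) continuous_const
  have hCne : C.Nonempty := by
    obtain ⟨x, hx, h⟩ := hex
    exact ⟨x, hx, h⟩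
  by_contra hno
  have hcomp : IsComplete (convexHull ℝ C) := (isCompact_convexHull_of_isCompact hCc).isComplete
  obtain ⟨v, hv, hvmin⟩ := exists_norm_eq_iInf_of_complete_convex
    (hCne.mono (subset_convexHull ℝ C)) hcomp (convex_convexHull ℝ C) o
  rw [norm_eq_iInf_iff_real_inner_le_zero (convex_convexHull ℝ C) hv] at hvmin
  set u : E := v - o with hu
  have hu0 : 0 < ‖u‖ ^ 2 := by
    have : u ≠ 0 := by
      intro h
      have : v = o := sub_eq_zero.1 h
      exact hno (this ▸ hv)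
    positivity
  set δ : ℝ := ‖u‖ ^ 2 with hδ
  have hCu : ∀ c ∈ C, δ ≤ inner ℝ u (c - o) := by
    intro c hcC
    have h1 := hvmin c (subset_convexHull ℝ C hcC)
    have h2 : inner ℝ u (c - o) = - inner ℝ (o - v) (c - v) + δ := by
      have e1 : c - o = (c - v) + u := by rw [hu]; abel
      have e2 : o - v = -u := by rw [hu]; abel
      rw [e1, inner_add_right, real_inner_self_eq_norm_sq, e2, inner_neg_left]
      ring
    rw [h2]
    linarith
  set K1 : Set E := {x ∈ K | inner ℝ u (x - o) ≤ δ / 2} with hK1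
  have hK1c : IsCompact K1 := by
    refine hc.inter_right (t := {x : E | inner ℝ u (x - o) ≤ δ / 2}) ?_
    exact isClosed_le (by fun_prop) continuous_const
  have hε1 : ∃ ε1 : ℝ, 0 < ε1 ∧ ∀ x ∈ K1, ‖x - o‖ ≤ R - ε1 := by
    rcases K1.eq_empty_or_nonempty with h | h
    · exact ⟨1, one_pos, by rw [h]; simp⟩
    · obtain ⟨x1, hx1, hmax⟩ := hK1c.exists_isMaxOn h
        (f := fun x : E => ‖x - o‖) (by fun_prop)
      refine ⟨R - ‖x1 - o‖, ?_, fun x hx => ?_⟩
      · have hle := hR x1 hx1.1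
        have hne : ‖x1 - o‖ ≠ R := by
          intro heq
          have h3 := hCu x1 ⟨hx1.1, heq⟩
          have h4 : inner ℝ u (x1 - o) ≤ δ / 2 := hx1.2
          linarith
        have := lt_of_le_of_ne hle hne
        linarith
      · have : ‖x - o‖ ≤ ‖x1 - o‖ := hmax hx
        linarith
  obtain ⟨ε1, hε1, hK1b⟩ := hε1
  have hun : 0 < ‖u‖ := by
    by_contra h
    have : ‖u‖ = 0 := le_antisymm (not_lt.1 h) (norm_nonneg _)
    rw [hδ, this] at hu0
    norm_num at hu0
  -- the new centre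
  obtain ⟨ε, hε0, hεa, hεb⟩ : ∃ ε : ℝ, 0 < ε ∧ ε * ‖u‖ < ε1 ∧ ε < 1 := by
    refine ⟨min (1 / 2) (ε1 / (2 * ‖u‖)), by positivity, ?_, ?_⟩
    · calc min (1 / 2) (ε1 / (2 * ‖u‖)) * ‖u‖ ≤ ε1 / (2 * ‖u‖) * ‖u‖ :=
            mul_le_mul_of_nonneg_right (min_le_right _ _) hun.le
        _ = ε1 / 2 := by field_simp
        _ < ε1 := by linarith
    · exact (min_le_left _ _).trans_lt (by norm_num)
  obtain ⟨x, hx, hxR⟩ := hmin (o + ε • u)
  have hRn : 0 ≤ R := (norm_nonneg _).trans (hR x hx)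
  have e1 : x - (o + ε • u) = (x - o) - ε • u := by abel
  rw [e1] at hxR
  by_cases hxK : inner ℝ u (x - o) ≤ δ / 2
  · have h1 := hK1b x ⟨hx, hxK⟩
    have h2 := norm_sub_le (x - o) (ε • u)
    rw [norm_smul, Real.norm_eq_abs, abs_of_pos hε0] at h2
    linarith
  · push Not at hxK
    have h1 : ‖(x - o) - ε • u‖ ^ 2 = ‖x - o‖ ^ 2 - 2 * ε * inner ℝ u (x - o) + ε ^ 2 * δ := by
      rw [norm_sub_sq_real, norm_smul, inner_smul_right, real_inner_comm, Real.norm_eq_abs,
        abs_of_pos hε0, hδ]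
      ring
    have h2 : R ^ 2 ≤ ‖(x - o) - ε • u‖ ^ 2 := pow_le_pow_left₀ hRn hxR 2
    have h3 : ‖x - o‖ ^ 2 ≤ R ^ 2 := pow_le_pow_left₀ (norm_nonneg _) (hR x hx) 2
    rw [h1] at h2
    nlinarith [mul_pos hε0 hu0, mul_pos (mul_pos hε0 hu0) (sub_pos.2 hεb)]

/-- F2: circumscribed ball, two contact points. -/
theorem circum (K : Set E) (hc : IsCompact K) (hne : K.Nonempty) :
    ∃ (o : E) (R : ℝ), 0 ≤ R ∧ (∀ x ∈ K, ‖x - o‖ ≤ R) ∧
      ∃ c₁ ∈ K, ∃ c₂ ∈ K, ‖c₁ - o‖ = R ∧ ‖c₂ - o‖ = R ∧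
        inner ℝ (c₁ - o) (c₂ - o) ≤ - R ^ 2 / 4 := by
  obtain ⟨o, R, hR, hex, hmin⟩ := exists_min_ball K hc hne
  have hmem := center_mem_convexHull K hc hR hex hmin
  have hRn : 0 ≤ R := by
    obtain ⟨x, _, hx⟩ := hex
    exact hx ▸ norm_nonneg _
  refine ⟨o, R, hRn, hR, ?_⟩
  rcases hRn.eq_or_lt with hR0 | hRpos
  · obtain ⟨x, hx, hxR⟩ := hex
    refine ⟨x, hx, x, hx, hxR, hxR, ?_⟩
    rw [real_inner_self_eq_norm_sq, hxR, ← hR0]
    norm_num
  obtain ⟨ι, _, z, w, hz, haff, hw0, hw1, hwz⟩ := eq_pos_convex_span_of_mem_convexHull hmem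
  have hzC : ∀ i, z i ∈ K ∧ ‖z i - o‖ = R := fun i => hz (mem_range_self i)
  have hcard : Fintype.card ι ≤ 5 := by
    have h1 := haff.card_le_finrank_succ
    have h2 := Submodule.finrank_le (vectorSpan ℝ (range z))
    rw [finrank_euclideanSpace_fin] at h2
    omega
  have hιne : Nonempty ι := by
    by_contra h
    rw [not_nonempty_iff] at h
    simp at hw1
  obtain ⟨i, hi⟩ : ∃ i, 1 / 5 ≤ w i := by
    by_contra hcon
    push Not at hcon
    have h1 : ∑ i, w i < ∑ _i : ι, (1 / 5 : ℝ) :=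
      Finset.sum_lt_sum_of_nonempty Finset.univ_nonempty fun i _ => hcon i
    rw [hw1, Finset.sum_const, Finset.card_univ, nsmul_eq_mul] at h1
    have h2 : (Fintype.card ι : ℝ) ≤ 5 := by exact_mod_cast hcard
    linarith
  have hsum : ∑ j, w j * inner ℝ (z i - o) (z j - o) = 0 := by
    have h1 : ∑ j, w j • (z j - o) = 0 := by
      simp only [smul_sub, Finset.sum_sub_distrib, hwz, ← Finset.sum_smul, hw1, one_smul, sub_self]
    have h2 : inner ℝ (z i - o) (∑ j, w j • (z j - o)) = (0 : ℝ) := by rw [h1, inner_zero_right]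
    rw [inner_sum] at h2
    simpa only [inner_smul_right] using h2
  by_contra hcon
  push Not at hcon
  have hlt : ∀ j, - R ^ 2 / 4 < inner ℝ (z i - o) (z j - o) := fun j =>
    hcon (z i) (hzC i).1 (z j) (hzC j).1 (hzC i).2 (hzC j).2
  have hsum2 : ∑ j, w j * (inner ℝ (z i - o) (z j - o) + R ^ 2 / 4) = R ^ 2 / 4 := by
    simp only [mul_add, Finset.sum_add_distrib, hsum, ← Finset.sum_mul, hw1]
    ring
  have hself : inner ℝ (z i - o) (z i - o) = R ^ 2 := by
    rw [real_inner_self_eq_norm_sq, (hzC i).2]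
  have hRR : 0 < R ^ 2 := by positivity
  by_cases hj : ∃ j, j ≠ i
  · obtain ⟨j, hj⟩ := hj
    have h1 : w i * (inner ℝ (z i - o) (z i - o) + R ^ 2 / 4) <
        ∑ j, w j * (inner ℝ (z i - o) (z j - o) + R ^ 2 / 4) := by
      refine Finset.single_lt_sum (f := fun j => w j * (inner ℝ (z i - o) (z j - o) + R ^ 2 / 4))
        (i := i) (j := j) hj (Finset.mem_univ _) (Finset.mem_univ _) ?_ ?_
      · exact mul_pos (hw0 j) (by have := hlt j; linarith)
      · intro k _ _
        exact mul_nonneg (hw0 k).le (by have := hlt k; linarith)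
    rw [hsum2, hself] at h1
    nlinarith
  · push Not at hj
    have hw : w i = 1 := by
      rw [← hw1]
      symm
      exact Finset.sum_eq_single i (fun j _ hji => absurd (hj j) hji)
        (fun h => absurd (Finset.mem_univ i) h)
    have h1 : ∑ j, w j * (inner ℝ (z i - o) (z j - o) + R ^ 2 / 4) =
        w i * (inner ℝ (z i - o) (z i - o) + R ^ 2 / 4) :=
      Finset.sum_eq_single i (fun j _ hji => absurd (hj j) hji)
        (fun h => absurd (Finset.mem_univ i) h)
    rw [hsum2, hself, hw] at h1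
    nlinarith

end Pool.Agent.CW4
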