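import Pool.Agent.CW4.Check

/-! # Configurations of two kills, boxes -/

set_option autoImplicit false

open scoped BigOperators

namespace Pool.Agent.CW4

/-- Two kills of the same frame, with integer column signs. -/
structure Conf (p b : ℝ) (x : Fin 4 → ℝ) (V : Fin 4 → Fin 4 → ℝ) (x' : Fin 4 → ℝ)
    (V' : Fin 4 → Fin 4 → ℝ) (s s' : Fin 4 → ℤ) : Prop where
  par : ParC p b
  k : KillC p b x V
  k' : KillC p b x' V'
  cr : CrossC x V x' V'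
  pm : ∀ j, s j = 1 ∨ s j = -1
  pm' : ∀ j, s' j = 1 ∨ s' j = -1
  nn : ∀ i j, 0 ≤ (s j : ℝ) * V i j
  nn' : ∀ i j, 0 ≤ (s' j : ℝ) * V' i j

/-- the thirteen branching quantities, in units `10⁻⁶` and `10⁻³`. -/
noncomputable def vals (p b : ℝ) (x x' : Fin 4 → ℝ) (s s' : Fin 4 → ℤ) : List ℝ :=
  [(p ^ 2 + b ^ 2) * 1000000, (∑ j, x j ^ 2) * 1000000, (∑ j, x' j ^ 2) * 1000000,
   (s 0 * x 0) * 1000, (s 1 * x 1) * 1000, (s 2 * x 2) * 1000, (s 3 * x 3) * 1000,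
   (s' 0 * x' 0) * 1000, (s' 1 * x' 1) * 1000, (s' 2 * x' 2) * 1000, (s' 3 * x' 3) * 1000,
   p * 1000, b * 1000]

/-- the values `vs` lie in the box `B` -/
structure InBox (B : Box) (vs : List ℝ) : Prop where
  lo : List.Forall₂ (fun (l : ℤ) (v : ℝ) => (l : ℝ) ≤ v) B.lo vs
  hi : List.Forall₂ (fun (h : ℤ) (v : ℝ) => v ≤ (h : ℝ)) B.hi vs

end Pool.Agent.CW4
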