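import Pool.Agent.CW4.Check

/-!
# A faster certificate checker (computable part)

The twelve points of a configuration are the two kills (`x`, `y_1, ..., y_4`), and the two contact
points.  In block (coordinate) `j` the quadratic form of the certificate is a weighted graph
Laplacian in the twelve coordinates, plus a diagonal form; it is transformed to the nonnegative
variables of the block.
-/

set_option autoImplicit false

namespace Pool.Agent.CW4

def isNN : Int → Bool
  | Int.ofNat _ => true
  | Int.negSucc _ => false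

def nnLF : List Int → Bool
  | [] => true
  | x :: xs => isNN x && nnLF xs

def nnQF : Quad → Bool
  | [] => true
  | r :: rs => nnLF r && nnQF rs

def nnUpsF : List (List Int × List Int) → Bool
  | [] => true
  | (b, e) :: ns => nnLF b && nnLF e && nnUpsF ns

/-- degrees: rows are `w_a :: m_{a,a+1}, ...`. -/
def degs : Quad → List Int
  | [] => []
  | [] :: rs => 0 :: degs rs
  | (w :: r) :: rs => (w + sumL r) :: addL r (degs rs)

/-- the upper triangular form of the energy `∑ w_a y_a² + ∑ m_ab (y_a - y_b)²`. -/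
def lap : Quad → List Int → Quad
  | [], _ => []
  | _, [] => []
  | [] :: rs, d :: ds => [d] :: lap rs ds
  | (_ :: r) :: rs, d :: ds => (d :: smulL (-2) r) :: lap rs ds

def cons0 : Quad → Quad
  | [] => []
  | r :: rs => (0 :: r) :: cons0 rs

def padRows : Quad → Quad
  | [] => []
  | r :: rs => r :: cons0 (padRows rs)

/-- `∑_b q_b f_b` -/
def rowForm (j : Nat) (s σ lo lo' pl : Int) (q : List Int) : Form :=
  match q with
  | [a0, a1, a2, a3, a4, b0, b1, b2, b3, b4, c0, c1] =>
    let S1 := a0 + a1 + a2 + a3 + a4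
    let S2 := σ * (b0 + b1 + b2 + b3 + b4)
    match j with
    | 0 => let S3 := s * (c0 + c1)
      [S1, S2, -a2, -a3, -a4, -σ * b2, -σ * b3, -σ * b4, lo * S1 + lo' * S2 + pl * S3, S3]
    | 1 => let S3 := s * (c0 - c1)
      [S1, S2, -a1, -a3, -a4, -σ * b1, -σ * b3, -σ * b4, lo * S1 + lo' * S2 + pl * S3, S3]
    | 2 => [S1, S2, -a1, -a2, -a4, -σ * b1, -σ * b2, -σ * b4, lo * S1 + lo' * S2]
    | _ => [S1, S2, -a1, -a2, -a3, -σ * b1, -σ * b2, -σ * b3, lo * S1 + lo' * S2]
  | _ => []

/-- the same with vectors in place of numbers -/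
def rowFormV (j : Nat) (s σ lo lo' pl : Int) (q : List Form) : Quad :=
  match q with
  | [a0, a1, a2, a3, a4, b0, b1, b2, b3, b4, c0, c1] =>
    let S1 := addL a0 (addL a1 (addL a2 (addL a3 a4)))
    let S2 := smulL σ (addL b0 (addL b1 (addL b2 (addL b3 b4))))
    match j with
    | 0 => let S3 := smulL s (addL c0 c1)
      [S1, S2, smulL (-1) a2, smulL (-1) a3, smulL (-1) a4, smulL (-σ) b2, smulL (-σ) b3,
        smulL (-σ) b4, addL (smulL lo S1) (addL (smulL lo' S2) (smulL pl S3)), S3]
    | 1 => let S3 := smulL s (subL c0 c1)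
      [S1, S2, smulL (-1) a1, smulL (-1) a3, smulL (-1) a4, smulL (-σ) b1, smulL (-σ) b3,
        smulL (-σ) b4, addL (smulL lo S1) (addL (smulL lo' S2) (smulL pl S3)), S3]
    | 2 => [S1, S2, smulL (-1) a1, smulL (-1) a2, smulL (-1) a4, smulL (-σ) b1, smulL (-σ) b2,
        smulL (-σ) b4, addL (smulL lo S1) (smulL lo' S2)]
    | _ => [S1, S2, smulL (-1) a1, smulL (-1) a2, smulL (-1) a3, smulL (-σ) b1, smulL (-σ) b2,
        smulL (-σ) b3, addL (smulL lo S1) (smulL lo' S2)]
  | _ => []

def mapF (j : Nat) (s σ lo lo' pl : Int) : Quad → Quad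
  | [] => []
  | q :: qs => rowForm j s σ lo lo' pl q :: mapF j s σ lo lo' pl qs

def addQ : Quad → Quad → Quad
  | [], ys => ys
  | x :: xs, [] => x :: xs
  | x :: xs, y :: ys => addL x y :: addQ xs ys

def heads : Quad → List Int
  | [] => []
  | [] :: rs => 0 :: heads rs
  | (a :: _) :: rs => a :: heads rs

def tails : Quad → Quad
  | [] => []
  | [] :: rs => [] :: tails rs
  | (_ :: r) :: rs => r :: tails rs

/-- full matrix to upper triangular -/
def toTri : Nat → Quad → Quad
  | 0, _ => []
  | _ + 1, [] => []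
  | n + 1, [] :: rs => (0 :: heads rs) :: toTri n (tails rs)
  | n + 1, (a :: t) :: rs => (a :: addL t (heads rs)) :: toTri n (tails rs)

structure BlockF where
  t : Int
  nu : List (List Int × List Int)
  L : List Form

structure LeafF where
  m : List (List Int)
  al : Int
  be : Int
  ga : Int
  de : Int
  ep : Int
  de' : Int
  ep' : Int
  mu : List Int
  B : List BlockF

/-- the correction rows: `∑_q -u_q ⊗ ν_q - t c² + par (c-form)²` -/
def corr (w w' wp pl par t : Int) (nu : List (List Int × List Int)) : Quad :=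
  match nu with
  | [(n0, [e0, e1]), (n1, [e2]), (n2, _)] =>
    let u1 : Form := [0, -1, 0, 0, 0, 0, 0, 0, w']
    let u2 : Form := [0, 0, 0, 0, 0, 0, 0, 0, wp, -1]
    let N0 := addL n0 (addL (smulL e0 u1) (smulL e1 u2))
    let N1 := addL n1 (smulL e2 u2)
    let N2 := n2
    [N0, N1, [], [], [], [], [], [],
      addL (smulL (-w) N0) (addL (smulL (-w') N1) (addL (smulL (-wp) N2)
        [0, 0, 0, 0, 0, 0, 0, 0, par * pl * pl - t, par * pl])),
      addL N2 [0, 0, 0, 0, 0, 0, 0, 0, par * pl, par]]
  | [(n0, [e0]), (n1, _)] =>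
    let u1 : Form := [0, -1, 0, 0, 0, 0, 0, 0, w']
    let N0 := addL n0 (smulL e0 u1)
    let N1 := n1
    [N0, N1, [], [], [], [], [], [],
      addL (smulL (-w) N0) (addL (smulL (-w') N1) [0, 0, 0, 0, 0, 0, 0, 0, -t])]
  | _ => []

/-- number of upper slack forms is as expected in block `j` -/
def nuLen (j : Nat) (nu : List (List Int × List Int)) : Bool :=
  match j, nu with
  | 0, [(_, [_, _]), (_, [_]), (_, _)] => true
  | 1, [(_, [_, _]), (_, [_]), (_, _)] => true
  | 2, [(_, [_]), (_, _)] => true
  | 3, [(_, [_]), (_, _)] => true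
  | _, _ => false

def blockOKF (j : Nat) (s s' : Int) (Q : Quad) (B : Box) (mt al be ga : Int) (bd : BlockF) : Bool :=
  let lo := B.lo.getD (3 + j) 0
  let lo' := B.lo.getD (7 + j) 0
  let pl := B.lo.getD (11 + j) 0
  let wp := B.hi.getD (11 + j) 0 - pl
  let G := mapF j s (s * s') lo lo' pl Q
  let F := rowFormV j s (s * s') lo lo' pl G
  let X := corr (B.hi.getD (3 + j) 0 - lo) (B.hi.getD (7 + j) 0 - lo') wp pl
    (parC j mt al be ga) bd.t bd.nu
  nuLen j bd.nu && nnUpsF bd.nu && nnQF (subTri bd.L (smulQ SC (toTri 10 (addQ F X))))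

def blocksOKF (Q : Quad) (B : Box) (mt al be ga : Int) :
    Nat → List Int → List Int → List BlockF → Bool
  | j, s :: ss, s' :: ss', bd :: bds =>
      blockOKF j s s' Q B mt al be ga bd && blocksOKF Q B mt al be ga (j + 1) ss ss' bds
  | _, [], [], [] => true
  | _, _, _, _ => false

def sumTF : List BlockF → Int
  | [] => 0
  | b :: bs => b.t + sumTF bs

def sumLL : List (List Int) → Int
  | [] => 0
  | r :: rs => sumL r + sumLL rs

/-- sign conditions on the edge multipliers: all nonnegative except the first four of rows 0, 5 -/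
def edgesOK : List (List Int) → Bool
  | [r0, r1, r2, r3, r4, r5, r6, r7, r8, r9, r10] =>
      nnLF (r0.drop 4) && nnLF r1 && nnLF r2 && nnLF r3 && nnLF r4 && nnLF (r5.drop 4) && nnLF r6 &&
      nnLF r7 && nnLF r8 && nnLF r9 && nnLF r10
  | _ => false

/-- rows of the energy -/
def mkRows (d : LeafF) : Quad :=
  match d.m, d.mu with
  | [r0, r1, r2, r3, r4, r5, r6, r7, r8, r9, r10], [w0, w1, w2, w3, w4, w5, w6, w7, w8, w9] =>
    [(w0 + d.de - d.ep) :: r0, w1 :: r1, w2 :: r2, w3 :: r3, w4 :: r4,
     (w5 + d.de' - d.ep') :: r5, w6 :: r6, w7 :: r7, w8 :: r8, w9 :: r9, 0 :: r10, [0]]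
  | _, _ => []

def leafCF (B : Box) (d : LeafF) : Int :=
  1000000 * sumLL d.m - d.be * B.lo.getD 0 0 + d.ga * B.hi.getD 0 0
    + (d.de * B.hi.getD 1 0 - d.ep * B.lo.getD 1 0) + (d.de' * B.hi.getD 2 0 - d.ep' * B.lo.getD 2 0)

def rowsOK : Nat → Quad → Bool
  | 0, [] => true
  | n + 1, r :: rs => Nat.beq r.length (n + 1) && rowsOK n rs
  | _, _ => false

def allLen (n : Nat) : Quad → Bool
  | [] => true
  | r :: rs => Nat.beq r.length n && allLen n rs

def leafOKF (ss ss' : List Int) (B : Box) (d : LeafF) : Bool :=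
  let R := mkRows d
  let Q := padRows (lap R (degs R))
  edgesOK d.m && nnLF d.mu && rowsOK 12 R && allLen 12 Q && Nat.beq Q.length 12 &&
  nnLF [d.al, d.be, d.ga, d.de, d.ep, d.de', d.ep'] &&
  decide (leafCF B d < sumTF d.B) && blocksOKF Q B (sumL d.mu) d.al d.be d.ga 0 ss ss' d.B

/-! ### decoding -/

def decBlockF (n k : Nat) (N : Nat) : BlockF × Nat :=
  match dec' 1 N with
  | (t, N1) => match decNu n k N1 with
    | (nu, N2) => match decTri n N2 with
      | (L, N3) => (⟨t.headD 0, nu, L⟩, N3)

def decLeafF (N : Nat) : LeafF :=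
  match decTri 11 N with
  | (m, N) => match dec' 10 N with
    | (mu, N) => match dec' 7 N with
      | (g, N) => match decBlockF 10 3 N with
        | (b0, N) => match decBlockF 10 3 N with
          | (b1, N) => match decBlockF 9 2 N with
            | (b2, N) => match decBlockF 9 2 N with
              | (b3, _) => match g with
                | [al, be, ga, de, ep, de', ep'] => ⟨m, al, be, ga, de, ep, de', ep', mu, [b0, b1, b2, b3]⟩
                | _ => ⟨[], 0, 0, 0, 0, 0, 0, 0, [], []⟩

def eqL : List Int → List Int → Bool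
  | [], [] => true
  | a :: as, b :: bs => (a == b) && eqL as bs
  | _, _ => false

/-- Branching tree: `S v t l r` splits variable `v` at `t`, `T` is a box excluded by the rules, and
`K i` is the `i`-th box of the list of boxes excluded by certificates. -/
inductive TreeG where
  | S (v : Nat) (t : Int) (l r : TreeG)
  | T
  | K (i : Nat)

def TreeG.check (known : List Box) : TreeG → Box → Bool
  | .S v t l r, B => l.check known ⟨B.lo, B.hi.set v t⟩ && r.check known ⟨B.lo.set v t, B.hi⟩
  | .T, B => triv B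
  | .K i, B =>
    match known[i]? with
    | some b => eqL B.lo b.lo && eqL B.hi b.hi
    | none => false

/-- every box of the list has a valid certificate -/
inductive AllOK (ss ss' : List Int) : List Box → Prop where
  | nil : AllOK ss ss' []
  | cons {b : Box} {l : List Box} {d : LeafF} (h : leafOKF ss ss' b d = true)
      (t : AllOK ss ss' l) : AllOK ss ss' (b :: l)

end Pool.Agent.CW4
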