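import Pool.Agent.CW4.Conf

/-! # The twelve points of a configuration and the variables of the four blocks -/

set_option autoImplicit false

open scoped BigOperators

namespace Pool.Agent.CW4

abbrev Pt := Fin 4 → ℝ

/-- the five points of a kill -/
def pl (x : Pt) (V : Fin 4 → Pt) : List Pt :=
  [x, fun j => x j - V 0 j, fun j => x j - V 1 j, fun j => x j - V 2 j, fun j => x j - V 3 j]

/-- the two contact points -/
def plc (p b : ℝ) : List Pt := [![p, b, 0, 0], ![p, -b, 0, 0]]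

theorem pl_pairwise {p b : ℝ} {x : Pt} {V : Fin 4 → Pt} {x' : Pt} {V' : Fin 4 → Pt}
    (hp : ParC p b) (k : KillC p b x V) (k' : KillC p b x' V') (cr : CrossC x V x' V') :
    (pl x V ++ pl x' V' ++ plc p b).Pairwise (fun A B => ∑ j, (A j - B j) ^ 2 ≤ 1) := by
  have e1 : ∀ (x : Pt) (V : Fin 4 → Pt) (i : Fin 4), (∑ j, V i j ^ 2 = 1) →
      ∑ j, (x j - (x j - V i j)) ^ 2 ≤ 1 := by
    intro x V i h
    rw [← h]
    refine le_of_eq (Finset.sum_congr rfl fun j _ => by ring)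
  have e2 : ∀ (x : Pt) (V : Fin 4 → Pt) (i l : Fin 4), (∑ j, (V i j - V l j) ^ 2 ≤ 1) →
      ∑ j, (x j - V i j - (x j - V l j)) ^ 2 ≤ 1 := by
    intro x V i l h
    refine le_trans (le_of_eq (Finset.sum_congr rfl fun j _ => by ring)) h
  have e3 : ∑ j, ((![p, b, 0, 0] : Pt) j - (![p, -b, 0, 0] : Pt) j) ^ 2 ≤ 1 := by
    simp [Fin.sum_univ_four]
    rw [abs_le]
    constructor <;> linarith [hp.b0, hp.b2]
  simp only [pl, plc, List.cons_append, List.nil_append, List.pairwise_cons, List.mem_cons,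
    List.not_mem_nil, or_false, forall_eq_or_imp, forall_eq, IsEmpty.forall_iff, implies_true,
    List.Pairwise.nil, and_true]
  refine ⟨⟨e1 _ _ _ (k.unit _), e1 _ _ _ (k.unit _), e1 _ _ _ (k.unit _), e1 _ _ _ (k.unit _),
      cr.xx, cr.xy _, cr.xy _, cr.xy _, cr.xy _, k.c1x, k.c2x⟩, 
    ⟨e2 _ _ _ _ (k.pair _ _), e2 _ _ _ _ (k.pair _ _), e2 _ _ _ _ (k.pair _ _),
      cr.yx _, cr.yy _ _, cr.yy _ _, cr.yy _ _, cr.yy _ _, k.c1y _, k.c2y _⟩,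
    ⟨e2 _ _ _ _ (k.pair _ _), e2 _ _ _ _ (k.pair _ _),
      cr.yx _, cr.yy _ _, cr.yy _ _, cr.yy _ _, cr.yy _ _, k.c1y _, k.c2y _⟩,
    ⟨e2 _ _ _ _ (k.pair _ _),
      cr.yx _, cr.yy _ _, cr.yy _ _, cr.yy _ _, cr.yy _ _, k.c1y _, k.c2y _⟩,
    ⟨cr.yx _, cr.yy _ _, cr.yy _ _, cr.yy _ _, cr.yy _ _, k.c1y _, k.c2y _⟩,
    ⟨e1 _ _ _ (k'.unit _), e1 _ _ _ (k'.unit _), e1 _ _ _ (k'.unit _), e1 _ _ _ (k'.unit _),
      k'.c1x, k'.c2x⟩,
    ⟨e2 _ _ _ _ (k'.pair _ _), e2 _ _ _ _ (k'.pair _ _), e2 _ _ _ _ (k'.pair _ _),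
      k'.c1y _, k'.c2y _⟩,
    ⟨e2 _ _ _ _ (k'.pair _ _), e2 _ _ _ _ (k'.pair _ _), k'.c1y _, k'.c2y _⟩,
    ⟨e2 _ _ _ _ (k'.pair _ _), k'.c1y _, k'.c2y _⟩,
    ⟨k'.c1y _, k'.c2y _⟩, e3⟩

theorem forall₂_getD {R : ℤ → ℝ → Prop} {l : List ℤ} {v : List ℝ} (h : List.Forall₂ R l v)
    (i : ℕ) (hi : i < v.length) : R (l.getD i 0) (v.getD i 0) := by
  induction h generalizing i with
  | nil => simp at hi
  | cons h1 h2 ih =>
    cases i with
    | zero => simpa using h1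
    | succ i => simpa using ih i (by simpa using hi)

section zv
variable (x : Pt) (V : Fin 4 → Pt) (x' : Pt) (V' : Fin 4 → Pt) (p b : ℝ) (s s' lo lo' plo blo : ℤ)

noncomputable def z0 : List ℝ :=
  [s * x 0 - lo / 1000, s' * x' 0 - lo' / 1000, s * V 1 0, s * V 2 0, s * V 3 0,
    s' * V' 1 0, s' * V' 2 0, s' * V' 3 0, 1 / 1000, p - plo / 1000]

noncomputable def z1 : List ℝ :=
  [s * x 1 - lo / 1000, s' * x' 1 - lo' / 1000, s * V 0 1, s * V 2 1, s * V 3 1,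
    s' * V' 0 1, s' * V' 2 1, s' * V' 3 1, 1 / 1000, b - blo / 1000]

noncomputable def z2 : List ℝ :=
  [s * x 2 - lo / 1000, s' * x' 2 - lo' / 1000, s * V 0 2, s * V 1 2, s * V 3 2,
    s' * V' 0 2, s' * V' 1 2, s' * V' 3 2, 1 / 1000]

noncomputable def z3 : List ℝ :=
  [s * x 3 - lo / 1000, s' * x' 3 - lo' / 1000, s * V 0 3, s * V 1 3, s * V 2 3,
    s' * V' 0 3, s' * V' 1 3, s' * V' 2 3, 1 / 1000]

end zv

end Pool.Agent.CW4
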