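import Pool.Agent.CW4.Check

/-! # Soundness of the list arithmetic -/

set_option autoImplicit false

namespace Pool.Agent.CW4

def lin : List Int → List ℝ → ℝ
  | a :: l, z :: zs => (a : ℝ) * z + lin l zs
  | _, _ => 0

def quad : List (List Int) → List ℝ → ℝ
  | r :: rs, z :: zs => z * lin r (z :: zs) + quad rs zs
  | _, _ => 0

@[simp] theorem lin_nil (z : List ℝ) : lin [] z = 0 := by cases z <;> rfl
@[simp] theorem lin_nil' (l : List Int) : lin l [] = 0 := by cases l <;> rfl
@[simp] theorem lin_cons (a : Int) (l : List Int) (z : ℝ) (zs : List ℝ) :
    lin (a :: l) (z :: zs) = (a : ℝ) * z + lin l zs := rfl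
@[simp] theorem quad_nil (z : List ℝ) : quad [] z = 0 := by cases z <;> rfl
@[simp] theorem quad_nil' (l : List (List Int)) : quad l [] = 0 := by cases l <;> rfl
@[simp] theorem quad_cons (r : List Int) (rs : List (List Int)) (z : ℝ) (zs : List ℝ) :
    quad (r :: rs) (z :: zs) = z * lin r (z :: zs) + quad rs zs := rfl

theorem lin_smulL (m : Int) (l : List Int) (z : List ℝ) :
    lin (smulL m l) z = m * lin l z := by
  induction l generalizing z with
  | nil => simp [smulL]
  | cons a l ih =>
    cases z with
    | nil => simp
    | cons z zs => simp only [smulL, lin_cons, ih]; push_cast; ring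

theorem lin_addL (l l' : List Int) (z : List ℝ) :
    lin (addL l l') z = lin l z + lin l' z := by
  induction l generalizing l' z with
  | nil => simp [addL]
  | cons a l ih =>
    cases l' with
    | nil => simp [addL]
    | cons b l' =>
      cases z with
      | nil => simp
      | cons z zs => simp only [addL, lin_cons, ih]; push_cast; ring

theorem lin_subL (l l' : List Int) (z : List ℝ) :
    lin (subL l l') z = lin l z - lin l' z := by
  induction l generalizing l' z with
  | nil => simp [subL, lin_smulL]
  | cons a l ih =>
    cases l' with
    | nil => simp [subL]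
    | cons b l' =>
      cases z with
      | nil => simp
      | cons z zs => simp only [subL, lin_cons, ih]; push_cast; ring

theorem isZ_eq {a : Int} (h : isZ a = true) : a = 0 := by
  unfold isZ at h
  split at h
  · rfl
  · exact absurd h (by simp)

theorem quad_addSq (m : Int) (l : Form) (acc : Quad) (z : List ℝ) :
    quad (addSq m l acc) z = m * (lin l z) ^ 2 + quad acc z := by
  induction l generalizing acc z with
  | nil => simp [addSq]
  | cons a l ih =>
    cases acc with
    | nil =>
      cases h : isZ a with
      | true =>
        have ha := isZ_eq h
        subst ha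
        cases z with
        | nil => simp
        | cons z zs => simp only [addSq, h, cond_true, quad_cons, ih]; simp
      | false =>
        cases z with
        | nil => simp
        | cons z zs =>
          simp only [addSq, h, cond_false, quad_cons, ih, lin_cons, lin_smulL]
          push_cast
          simp
          ring
    | cons r acc =>
      cases h : isZ a with
      | true =>
        have ha := isZ_eq h
        subst ha
        cases z with
        | nil => simp
        | cons z zs => simp only [addSq, h, cond_true, quad_cons, ih]; simp; ring
      | false =>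
        cases z with
        | nil => simp
        | cons z zs =>
          simp only [addSq, h, cond_false, quad_cons, ih, lin_addL, lin_cons, lin_smulL]
          push_cast
          ring

/-- `∑ m_k y_k ^ 2` -/
def sumSq : List Int → List ℝ → ℝ
  | m :: ms, y :: ys => (m : ℝ) * y ^ 2 + sumSq ms ys
  | _, _ => 0

@[simp] theorem sumSq_nil (z : List ℝ) : sumSq [] z = 0 := by cases z <;> rfl
@[simp] theorem sumSq_nil' (l : List Int) : sumSq l [] = 0 := by cases l <;> rfl
@[simp] theorem sumSq_cons (a : Int) (l : List Int) (z : ℝ) (zs : List ℝ) :
    sumSq (a :: l) (z :: zs) = (a : ℝ) * z ^ 2 + sumSq l zs := rfl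

theorem quad_smulQ (m : Int) (q : Quad) (z : List ℝ) :
    quad (smulQ m q) z = m * quad q z := by
  induction q generalizing z with
  | nil => simp [smulQ]
  | cons r rs ih =>
    cases z with
    | nil => simp
    | cons z zs => simp only [smulQ, quad_cons, lin_smulL, ih]; ring

theorem nnL_lin {l : List Int} (h : nnL l = true) {z : List ℝ} (hz : ∀ y ∈ z, 0 ≤ y) :
    0 ≤ lin l z := by
  induction l generalizing z with
  | nil => simp
  | cons a l ih =>
    simp only [nnL, Bool.and_eq_true, decide_eq_true_eq] at h
    cases z with
    | nil => simp
    | cons z zs =>
      simp only [lin_cons]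
      have h1 : 0 ≤ z := hz z (by simp)
      have h2 := ih h.2 (z := zs) (fun y hy => hz y (by simp [hy]))
      have h3 : (0 : ℝ) ≤ a := by exact_mod_cast h.1
      positivity

theorem nnQ_quad {q : Quad} (h : nnQ q = true) {z : List ℝ} (hz : ∀ y ∈ z, 0 ≤ y) :
    0 ≤ quad q z := by
  induction q generalizing z with
  | nil => simp
  | cons r rs ih =>
    simp only [nnQ, Bool.and_eq_true] at h
    cases z with
    | nil => simp
    | cons z zs =>
      simp only [quad_cons]
      have h1 : 0 ≤ z := hz z (by simp)
      have h2 := ih h.2 (z := zs) (fun y hy => hz y (by simp [hy]))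
      have h3 := nnL_lin h.1 (z := z :: zs) hz
      have := mul_nonneg h1 h3
      linarith

theorem quad_subTri (ls : List Form) (acc : Quad) (z : List ℝ) :
    quad (subTri ls acc) z ≤ quad acc z := by
  induction ls generalizing acc z with
  | nil => simp [subTri]
  | cons l ls ih =>
    have key := quad_addSq (-1) l acc z
    simp only [subTri]
    cases h : addSq (-1) l acc with
    | nil =>
      rw [h] at key
      simp only [quad_nil] at key ⊢
      push_cast at key
      nlinarith [sq_nonneg (lin l z)]
    | cons r rs =>
      rw [h] at key
      cases z with
      | nil => simp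
      | cons z zs =>
        simp only [quad_cons] at key ⊢
        push_cast at key
        have := ih rs zs
        nlinarith [sq_nonneg (lin l (z :: zs))]

end Pool.Agent.CW4
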