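import Pool.Agent.CW4.Fast
import Pool.Agent.CW4.Sound1
import Pool.Agent.CW4.Pts

/-! # Soundness of the fast checker, list part -/

set_option autoImplicit false

open scoped BigOperators

namespace Pool.Agent.CW4

theorem isNN_iff {a : Int} (h : isNN a = true) : 0 ≤ a := by
  cases a with
  | ofNat n => exact Int.natCast_nonneg n
  | negSucc n => simp [isNN] at h

theorem nnLF_nnL {l : List Int} (h : nnLF l = true) : nnL l = true := by
  induction l with
  | nil => rfl
  | cons a l ih =>
    simp only [nnLF, Bool.and_eq_true] at h
    simp only [nnL, Bool.and_eq_true, decide_eq_true_eq]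
    exact ⟨isNN_iff h.1, ih h.2⟩

theorem nnQF_nnQ {q : Quad} (h : nnQF q = true) : nnQ q = true := by
  induction q with
  | nil => rfl
  | cons a l ih =>
    simp only [nnQF, Bool.and_eq_true] at h
    simp only [nnQ, Bool.and_eq_true]
    exact ⟨nnLF_nnL h.1, ih h.2⟩

theorem nnUpsF_nnUps {q : List (List Int × List Int)} (h : nnUpsF q = true) : nnUps q = true := by
  induction q with
  | nil => rfl
  | cons a l ih =>
    obtain ⟨b, e⟩ := a
    simp only [nnUpsF, Bool.and_eq_true] at h
    simp only [nnUps, Bool.and_eq_true]
    exact ⟨⟨nnLF_nnL h.1.1, nnLF_nnL h.1.2⟩, ih h.2⟩

/-- `∑_b r_b (y - y_b)^2` -/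
def sd : List Int → ℝ → List ℝ → ℝ
  | r :: rs, y, w :: ws => (r : ℝ) * (y - w) ^ 2 + sd rs y ws
  | _, _, _ => 0

@[simp] theorem sd_nil (y : ℝ) (w : List ℝ) : sd [] y w = 0 := by cases w <;> rfl
@[simp] theorem sd_nil' (r : List Int) (y : ℝ) : sd r y [] = 0 := by cases r <;> rfl
@[simp] theorem sd_cons (r : Int) (rs : List Int) (y w : ℝ) (ws : List ℝ) :
    sd (r :: rs) y (w :: ws) = (r : ℝ) * (y - w) ^ 2 + sd rs y ws := rfl

/-- the energy -/
def en : Quad → List ℝ → ℝ
  | (w :: r) :: rs, y :: ys => (w : ℝ) * y ^ 2 + sd r y ys + en rs ys
  | [] :: rs, _ :: ys => en rs ys
  | _, _ => 0

@[simp] theorem en_nil (y : List ℝ) : en [] y = 0 := by cases y <;> rfl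
@[simp] theorem en_nil' (q : Quad) : en q [] = 0 := by
  cases q with
  | nil => rfl
  | cons r rs => cases r <;> rfl
@[simp] theorem en_cons (w : Int) (r : List Int) (rs : Quad) (y : ℝ) (ys : List ℝ) :
    en ((w :: r) :: rs) (y :: ys) = (w : ℝ) * y ^ 2 + sd r y ys + en rs ys := rfl

theorem sd_expand (r : List Int) (y : ℝ) (ws : List ℝ) (h : r.length = ws.length) :
    sd r y ws = (sumL r : ℝ) * y ^ 2 - 2 * y * lin r ws + sumSq r ws := by
  induction r generalizing ws with
  | nil => simp [sumL]
  | cons a r ih =>
    cases ws with
    | nil => simp at h
    | cons w ws =>
      simp only [sd_cons, sumL, lin_cons, sumSq_cons, ih ws (by simpa using h)]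
      push_cast
      ring

theorem length_addL (a b : List Int) (h : a.length = b.length) : (addL a b).length = a.length := by
  induction a generalizing b with
  | nil => simpa [addL] using h.symm
  | cons x a ih =>
    cases b with
    | nil => simp at h
    | cons y b => simp only [addL, List.length_cons, ih b (by simpa using h)]

theorem length_degs {n : ℕ} {q : Quad} (h : rowsOK n q = true) : (degs q).length = q.length := by
  induction q generalizing n with
  | nil => rfl
  | cons r rs ih =>
    cases n with
    | zero => simp [rowsOK] at h
    | succ n =>
      simp only [rowsOK, Bool.and_eq_true] at h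
      cases r with
      | nil => simp [degs, ih h.2]
      | cons w r =>
        have h1 : (w :: r).length = n + 1 := Nat.eq_of_beq_eq_true h.1
        have h2 : r.length = n := by simpa using h1
        have hn : rs.length = n := by
          clear ih h1 h2
          have := h.2
          clear h
          induction rs generalizing n with
          | nil => cases n with
            | zero => rfl
            | succ n => simp [rowsOK] at this
          | cons a rs ih => cases n with
            | zero => simp [rowsOK] at this
            | succ n =>
              simp only [rowsOK, Bool.and_eq_true] at this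
              simp [ih n this.2]
        simp only [degs, List.length_cons]
        rw [length_addL _ _ (by rw [ih h.2, h2, hn]), h2, hn]

theorem lap_add (rs : Quad) (r D : List Int) (ys : List ℝ) (h1 : r.length = rs.length)
    (h2 : D.length = rs.length) :
    quad (lap rs (addL r D)) ys = quad (lap rs D) ys + sumSq r ys := by
  induction rs generalizing r D ys with
  | nil =>
    have : r = [] := by simpa using h1
    subst this
    simp [lap]
  | cons row rs ih =>
    cases r with
    | nil => simp at h1
    | cons a r =>
      cases D with
      | nil => simp at h2
      | cons d D =>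
        cases ys with
        | nil => simp
        | cons y ys =>
          have := ih r D ys (by simpa using h1) (by simpa using h2)
          cases row with
          | nil =>
            simp only [addL, lap, quad_cons, sumSq_cons, this, lin_cons, lin_nil]
            push_cast
            ring
          | cons w row =>
            simp only [addL, lap, quad_cons, sumSq_cons, this, lin_cons]
            push_cast
            ring

theorem rowsOK_length {n : ℕ} {q : Quad} (h : rowsOK n q = true) : q.length = n := by
  induction q generalizing n with
  | nil => cases n with
    | zero => rfl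
    | succ n => simp [rowsOK] at h
  | cons a rs ih => cases n with
    | zero => simp [rowsOK] at h
    | succ n =>
      simp only [rowsOK, Bool.and_eq_true] at h
      simp [ih h.2]

theorem quad_lap {n : ℕ} {q : Quad} (h : rowsOK n q = true) {ys : List ℝ} (hy : ys.length = n) :
    quad (lap q (degs q)) ys = en q ys := by
  induction q generalizing n ys with
  | nil => simp [lap]
  | cons row rs ih =>
    cases n with
    | zero => simp [rowsOK] at h
    | succ n =>
      have hl := rowsOK_length h
      simp only [rowsOK, Bool.and_eq_true] at h
      have hrl : row.length = n + 1 := Nat.eq_of_beq_eq_true h.1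
      cases row with
      | nil => simp at hrl
      | cons w r =>
        cases ys with
        | nil => simp at hy
        | cons y ys =>
          have hr : r.length = n := by simpa using hrl
          have hrs : rs.length = n := rowsOK_length h.2
          have hys : ys.length = n := by simpa using hy
          simp only [degs, lap, quad_cons, lin_cons, en_cons, lin_smulL]
          rw [lap_add rs r (degs rs) ys (by rw [hr, hrs]) (length_degs h.2), ih h.2 hys,
            sd_expand r y ys (by rw [hr, hys])]
          push_cast
          ring

/-- full matrix evaluation -/
def full : Quad → List ℝ → List ℝ → ℝ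
  | r :: rs, y :: ys, w => y * lin r w + full rs ys w
  | _, _, _ => 0

@[simp] theorem full_nil (y w : List ℝ) : full [] y w = 0 := by cases y <;> rfl
@[simp] theorem full_nil' (q : Quad) (w : List ℝ) : full q [] w = 0 := by cases q <;> rfl
@[simp] theorem full_cons (r : List Int) (rs : Quad) (y : ℝ) (ys w : List ℝ) :
    full (r :: rs) (y :: ys) w = y * lin r w + full rs ys w := rfl

theorem full_cons0 (q : Quad) (ys : List ℝ) (y : ℝ) (w : List ℝ) :
    full (cons0 q) ys (y :: w) = full q ys w := by
  induction q generalizing ys with
  | nil => simp [cons0]
  | cons r rs ih =>
    cases ys with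
    | nil => simp
    | cons z ys => simp [cons0, ih]

theorem quad_padRows (q : Quad) (ys : List ℝ) : quad q ys = full (padRows q) ys ys := by
  induction q generalizing ys with
  | nil => simp [padRows]
  | cons r rs ih =>
    cases ys with
    | nil => simp
    | cons y ys => simp only [quad_cons, padRows, full_cons, full_cons0, ih]

theorem full_addQ (a b : Quad) (ys w : List ℝ) :
    full (addQ a b) ys w = full a ys w + full b ys w := by
  induction a generalizing b ys with
  | nil => simp [addQ]
  | cons r rs ih =>
    cases b with
    | nil => simp [addQ]
    | cons t ts =>
      cases ys with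
      | nil => simp
      | cons y ys => simp only [addQ, full_cons, lin_addL, ih]; ring

theorem full_heads_tails (rs : Quad) (ys : List ℝ) (y : ℝ) (w : List ℝ) :
    full rs ys (y :: w) = y * lin (heads rs) ys + full (tails rs) ys w := by
  induction rs generalizing ys with
  | nil => simp [heads, tails]
  | cons r rs ih =>
    cases ys with
    | nil => simp
    | cons z ys =>
      cases r with
      | nil => simp only [full_cons, heads, tails, lin_cons, lin_nil, ih]; push_cast; ring
      | cons a t => simp only [full_cons, heads, tails, lin_cons, ih]; ring

theorem quad_toTri (n : ℕ) (q : Quad) (z : List ℝ) (hz : z.length ≤ n) :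
    quad (toTri n q) z = full q z z := by
  induction n generalizing q z with
  | zero =>
    have : z = [] := by simpa using hz
    subst this
    simp
  | succ n ih =>
    cases q with
    | nil => simp [toTri]
    | cons r rs =>
      cases z with
      | nil => simp
      | cons y ys =>
        have hys : ys.length ≤ n := by simpa using hz
        cases r with
        | nil =>
          simp only [toTri, quad_cons, lin_cons, lin_nil, full_cons, ih _ _ hys,
            full_heads_tails rs ys y ys]
          push_cast
          ring
        | cons a t =>
          simp only [toTri, quad_cons, lin_cons, full_cons, lin_addL, ih _ _ hys,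
            full_heads_tails rs ys y ys]
          ring

end Pool.Agent.CW4
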