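import Pool.Agent.CW4.FastSound

/-! # Soundness of the fast checker, change of variables -/

set_option autoImplicit false

open scoped BigOperators

namespace Pool.Agent.CW4

/-- real dot product -/
def rdot : List ℝ → List ℝ → ℝ
  | a :: as, b :: bs => a * b + rdot as bs
  | _, _ => 0

@[simp] theorem rdot_nil (z : List ℝ) : rdot [] z = 0 := by cases z <;> rfl
@[simp] theorem rdot_nil' (l : List ℝ) : rdot l [] = 0 := by cases l <;> rfl
@[simp] theorem rdot_cons (a : ℝ) (l : List ℝ) (z : ℝ) (zs : List ℝ) :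
    rdot (a :: l) (z :: zs) = a * z + rdot l zs := rfl

theorem full_eq_rdot (q : Quad) (ys w : List ℝ) :
    full q ys w = rdot (q.map (fun g => lin g w)) ys := by
  induction q generalizing ys with
  | nil => simp
  | cons r rs ih =>
    cases ys with
    | nil => simp
    | cons y ys => simp only [full_cons, List.map_cons, rdot_cons, ih]; ring

/-- the twelve coordinates of the points -/
noncomputable def Y (x : Pt) (V : Fin 4 → Pt) (x' : Pt) (V' : Fin 4 → Pt) (p b : ℝ) (s : ℝ)
    (j : Fin 4) : List ℝ :=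
  (pl x V ++ pl x' V' ++ plc p b).map (fun v => s * v j)

theorem exists12 {α : Type} {q : List α} (h : q.length = 12) :
    ∃ a0 a1 a2 a3 a4 b0 b1 b2 b3 b4 c0 c1, q = [a0, a1, a2, a3, a4, b0, b1, b2, b3, b4, c0, c1] := by
  match q, h with
  | [a0, a1, a2, a3, a4, b0, b1, b2, b3, b4, c0, c1], _ =>
    exact ⟨a0, a1, a2, a3, a4, b0, b1, b2, b3, b4, c0, c1, rfl⟩

section
variable {x : Pt} {V : Fin 4 → Pt} {x' : Pt} {V' : Fin 4 → Pt} {p b : ℝ} {s s' lo lo' plo : ℤ}

theorem rowForm_0 (hs' : s' = 1 ∨ s' = -1) (hd : V 0 0 = 0) (hd' : V' 0 0 = 0) {q : List Int}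
    (hq : q.length = 12) :
    lin (rowForm 0 s (s * s') lo lo' plo q) (z0 x V x' V' p s s' lo lo' plo)
      = lin q (Y x V x' V' p b s 0) := by
  obtain ⟨a0, a1, a2, a3, a4, b0, b1, b2, b3, b4, c0, c1, rfl⟩ := exists12 hq
  rcases hs' with rfl | rfl <;>
  · simp only [rowForm, z0, Y, pl, plc, List.map_cons, List.cons_append, List.nil_append,
      List.map_nil, lin_cons, lin_nil, hd, hd', Matrix.cons_val_zero]
    push_cast
    ring

theorem rowForm_1 (hs' : s' = 1 ∨ s' = -1) (hd : V 1 1 = 0) (hd' : V' 1 1 = 0) {q : List Int}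
    (hq : q.length = 12) :
    lin (rowForm 1 s (s * s') lo lo' plo q) (z1 x V x' V' b s s' lo lo' plo)
      = lin q (Y x V x' V' p b s 1) := by
  obtain ⟨a0, a1, a2, a3, a4, b0, b1, b2, b3, b4, c0, c1, rfl⟩ := exists12 hq
  rcases hs' with rfl | rfl <;>
  · simp only [rowForm, z1, Y, pl, plc, List.map_cons, List.cons_append, List.nil_append,
      List.map_nil, lin_cons, lin_nil, hd, hd', Matrix.cons_val_one, Matrix.cons_val_zero]
    push_cast
    ring

theorem rowForm_2 (hs' : s' = 1 ∨ s' = -1) (hd : V 2 2 = 0) (hd' : V' 2 2 = 0) {q : List Int}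
    (hq : q.length = 12) :
    lin (rowForm 2 s (s * s') lo lo' plo q) (z2 x V x' V' s s' lo lo')
      = lin q (Y x V x' V' p b s 2) := by
  obtain ⟨a0, a1, a2, a3, a4, b0, b1, b2, b3, b4, c0, c1, rfl⟩ := exists12 hq
  have e : (![p, b, 0, 0] : Pt) 2 = 0 := rfl
  have e' : (![p, -b, 0, 0] : Pt) 2 = 0 := rfl
  rcases hs' with rfl | rfl <;>
  · simp only [rowForm, z2, Y, pl, plc, List.map_cons, List.cons_append, List.nil_append,
      List.map_nil, lin_cons, lin_nil, hd, hd', e, e']
    push_cast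
    ring

theorem rowForm_3 (hs' : s' = 1 ∨ s' = -1) (hd : V 3 3 = 0) (hd' : V' 3 3 = 0) {q : List Int}
    (hq : q.length = 12) :
    lin (rowForm 3 s (s * s') lo lo' plo q) (z3 x V x' V' s s' lo lo')
      = lin q (Y x V x' V' p b s 3) := by
  obtain ⟨a0, a1, a2, a3, a4, b0, b1, b2, b3, b4, c0, c1, rfl⟩ := exists12 hq
  have e : (![p, b, 0, 0] : Pt) 3 = 0 := rfl
  have e' : (![p, -b, 0, 0] : Pt) 3 = 0 := rfl
  rcases hs' with rfl | rfl <;>
  · simp only [rowForm, z3, Y, pl, plc, List.map_cons, List.cons_append, List.nil_append,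
      List.map_nil, lin_cons, lin_nil, hd, hd', e, e']
    push_cast
    ring

theorem rowFormV_0 (hs' : s' = 1 ∨ s' = -1) (hd : V 0 0 = 0) (hd' : V' 0 0 = 0) {G : Quad}
    (hq : G.length = 12) (w : List ℝ) :
    full (rowFormV 0 s (s * s') lo lo' plo G) (z0 x V x' V' p s s' lo lo' plo) w
      = rdot (G.map (fun g => lin g w)) (Y x V x' V' p b s 0) := by
  obtain ⟨a0, a1, a2, a3, a4, b0, b1, b2, b3, b4, c0, c1, rfl⟩ := exists12 hq
  rcases hs' with rfl | rfl <;>
  · simp only [rowFormV, z0, Y, pl, plc, List.map_cons, List.cons_append, List.nil_append,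
      List.map_nil, full_cons, full_nil, rdot_cons, rdot_nil, lin_addL, lin_smulL, hd, hd',
      Matrix.cons_val_zero]
    push_cast
    ring

theorem rowFormV_1 (hs' : s' = 1 ∨ s' = -1) (hd : V 1 1 = 0) (hd' : V' 1 1 = 0) {G : Quad}
    (hq : G.length = 12) (w : List ℝ) :
    full (rowFormV 1 s (s * s') lo lo' plo G) (z1 x V x' V' b s s' lo lo' plo) w
      = rdot (G.map (fun g => lin g w)) (Y x V x' V' p b s 1) := by
  obtain ⟨a0, a1, a2, a3, a4, b0, b1, b2, b3, b4, c0, c1, rfl⟩ := exists12 hq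
  rcases hs' with rfl | rfl <;>
  · simp only [rowFormV, z1, Y, pl, plc, List.map_cons, List.cons_append, List.nil_append,
      List.map_nil, full_cons, full_nil, rdot_cons, rdot_nil, lin_addL, lin_smulL, lin_subL, hd,
      hd', Matrix.cons_val_one, Matrix.cons_val_zero]
    push_cast
    ring

theorem rowFormV_2 (hs' : s' = 1 ∨ s' = -1) (hd : V 2 2 = 0) (hd' : V' 2 2 = 0) {G : Quad}
    (hq : G.length = 12) (w : List ℝ) :
    full (rowFormV 2 s (s * s') lo lo' plo G) (z2 x V x' V' s s' lo lo') w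
      = rdot (G.map (fun g => lin g w)) (Y x V x' V' p b s 2) := by
  obtain ⟨a0, a1, a2, a3, a4, b0, b1, b2, b3, b4, c0, c1, rfl⟩ := exists12 hq
  have e : (![p, b, 0, 0] : Pt) 2 = 0 := rfl
  have e' : (![p, -b, 0, 0] : Pt) 2 = 0 := rfl
  rcases hs' with rfl | rfl <;>
  · simp only [rowFormV, z2, Y, pl, plc, List.map_cons, List.cons_append, List.nil_append,
      List.map_nil, full_cons, full_nil, rdot_cons, rdot_nil, lin_addL, lin_smulL, hd, hd', e, e']
    push_cast
    ring

theorem rowFormV_3 (hs' : s' = 1 ∨ s' = -1) (hd : V 3 3 = 0) (hd' : V' 3 3 = 0) {G : Quad}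
    (hq : G.length = 12) (w : List ℝ) :
    full (rowFormV 3 s (s * s') lo lo' plo G) (z3 x V x' V' s s' lo lo') w
      = rdot (G.map (fun g => lin g w)) (Y x V x' V' p b s 3) := by
  obtain ⟨a0, a1, a2, a3, a4, b0, b1, b2, b3, b4, c0, c1, rfl⟩ := exists12 hq
  have e : (![p, b, 0, 0] : Pt) 3 = 0 := rfl
  have e' : (![p, -b, 0, 0] : Pt) 3 = 0 := rfl
  rcases hs' with rfl | rfl <;>
  · simp only [rowFormV, z3, Y, pl, plc, List.map_cons, List.cons_append, List.nil_append,
      List.map_nil, full_cons, full_nil, rdot_cons, rdot_nil, lin_addL, lin_smulL, hd, hd', e, e']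
    push_cast
    ring

end

theorem allLen_mem {n : ℕ} {q : Quad} (h : allLen n q = true) : ∀ r ∈ q, r.length = n := by
  induction q with
  | nil => simp
  | cons r rs ih =>
    simp only [allLen, Bool.and_eq_true] at h
    intro t ht
    rcases List.mem_cons.1 ht with rfl | ht
    · exact Nat.eq_of_beq_eq_true h.1
    · exact ih h.2 t ht

theorem mapF_eq (j : ℕ) (s σ lo lo' pl' : ℤ) (q : Quad) :
    mapF j s σ lo lo' pl' q = q.map (rowForm j s σ lo lo' pl') := by
  induction q with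
  | nil => rfl
  | cons r rs ih => simp only [mapF, List.map_cons, ih]

/-- the block form equals the energy form of the points -/
theorem block_eq {j : ℕ} {s σ lo lo' pl' : ℤ} {z Yj : List ℝ} {Q : Quad}
    (hQ : ∀ r ∈ Q, r.length = 12) (hQ' : Q.length = 12)
    (h1 : ∀ q : List Int, q.length = 12 → lin (rowForm j s σ lo lo' pl' q) z = lin q Yj)
    (h2 : ∀ G : Quad, G.length = 12 → ∀ w, full (rowFormV j s σ lo lo' pl' G) z w
      = rdot (G.map (fun g => lin g w)) Yj) :
    full (rowFormV j s σ lo lo' pl' (mapF j s σ lo lo' pl' Q)) z z = full Q Yj Yj := by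
  rw [mapF_eq, h2 _ (by simpa using hQ'), full_eq_rdot]
  congr 1
  rw [List.map_map]
  refine List.map_congr_left fun r hr => ?_
  exact h1 r (hQ r hr)

end Pool.Agent.CW4
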