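import Pool.Agent.CW4.FastSound2

/-! # Soundness of the fast checker: leaves -/

set_option autoImplicit false
set_option maxHeartbeats 4000000

open scoped BigOperators

namespace Pool.Agent.CW4

theorem corr_le3 {w w' wp pl' par t : ℤ} {n0 n1 n2 e3 : List Int} {e0 e1 e2 : ℤ}
    (hn : nnUps [(n0, [e0, e1]), (n1, [e2]), (n2, e3)] = true)
    {a a' v1 v2 v3 v4 v5 v6 c q : ℝ} (hz : ∀ y ∈ [a, a', v1, v2, v3, v4, v5, v6, c, q], 0 ≤ y)
    (h1 : 0 ≤ w * c - a) (h2 : 0 ≤ w' * c - a') (h3 : 0 ≤ wp * c - q) :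
    full (corr w w' wp pl' par t [(n0, [e0, e1]), (n1, [e2]), (n2, e3)])
      [a, a', v1, v2, v3, v4, v5, v6, c, q] [a, a', v1, v2, v3, v4, v5, v6, c, q]
      ≤ par * (q + pl' * c) ^ 2 - t * c ^ 2 := by
  simp only [nnUps, nnL, Bool.and_eq_true, decide_eq_true_eq, and_true] at hn
  obtain ⟨⟨hn0, he0, he1⟩, ⟨hn1, he2⟩, hn2, _⟩ := hn
  have N0 := nnL_lin hn0 hz
  have N1 := nnL_lin hn1 hz
  have N2 := nnL_lin hn2 hz
  have E0 : (0 : ℝ) ≤ e0 := by exact_mod_cast he0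
  have E1 : (0 : ℝ) ≤ e1 := by exact_mod_cast he1
  have E2 : (0 : ℝ) ≤ e2 := by exact_mod_cast he2
  simp only [corr, full_cons, full_nil, lin_addL, lin_smulL, lin_cons, lin_nil]
  push_cast
  set L0 := lin n0 [a, a', v1, v2, v3, v4, v5, v6, c, q]
  set L1 := lin n1 [a, a', v1, v2, v3, v4, v5, v6, c, q]
  set L2 := lin n2 [a, a', v1, v2, v3, v4, v5, v6, c, q]
  have k1 : 0 ≤ (w * c - a) * (L0 + e0 * (w' * c - a') + e1 * (wp * c - q)) := by positivity
  have k2 : 0 ≤ (w' * c - a') * (L1 + e2 * (wp * c - q)) := by positivity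
  have k3 : 0 ≤ (wp * c - q) * L2 := by positivity
  linarith

theorem corr_le2 {w w' wp pl' par t : ℤ} {n0 n1 e1 : List Int} {e0 : ℤ}
    (hn : nnUps [(n0, [e0]), (n1, e1)] = true)
    {a a' v1 v2 v3 v4 v5 v6 c : ℝ} (hz : ∀ y ∈ [a, a', v1, v2, v3, v4, v5, v6, c], 0 ≤ y)
    (h1 : 0 ≤ w * c - a) (h2 : 0 ≤ w' * c - a') :
    full (corr w w' wp pl' par t [(n0, [e0]), (n1, e1)])
      [a, a', v1, v2, v3, v4, v5, v6, c] [a, a', v1, v2, v3, v4, v5, v6, c]
      ≤ - t * c ^ 2 := by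
  simp only [nnUps, nnL, Bool.and_eq_true, decide_eq_true_eq, and_true] at hn
  obtain ⟨⟨hn0, he0⟩, hn1, _⟩ := hn
  have N0 := nnL_lin hn0 hz
  have N1 := nnL_lin hn1 hz
  have E0 : (0 : ℝ) ≤ e0 := by exact_mod_cast he0
  simp only [corr, full_cons, full_nil, lin_addL, lin_smulL, lin_cons, lin_nil]
  push_cast
  set L0 := lin n0 [a, a', v1, v2, v3, v4, v5, v6, c]
  set L1 := lin n1 [a, a', v1, v2, v3, v4, v5, v6, c]
  have k1 : 0 ≤ (w * c - a) * (L0 + e0 * (w' * c - a')) := by positivity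
  have k2 : 0 ≤ (w' * c - a') * L1 := by positivity
  linarith

theorem chain {L : List Form} {A : Quad} {z : List ℝ} (h : nnQF (subTri L (smulQ SC (toTri 10 A))) = true)
    (hz : ∀ y ∈ z, 0 ≤ y) (hl : z.length ≤ 10) : 0 ≤ full A z z := by
  have h1 := nnQ_quad (nnQF_nnQ h) hz
  have h2 := h1.trans (quad_subTri _ _ _)
  rw [quad_smulQ, quad_toTri _ _ _ hl] at h2
  have hS : (0 : ℝ) < (SC : ℝ) := by norm_num [SC]
  exact nonneg_of_mul_nonneg_right h2 hS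

/-- blocks 0 and 1 -/
theorem blockF_sound3 {j : ℕ} {s s' : ℤ} {Q : Quad} {B : Box} {mt al be ga : ℤ} {bd : BlockF}
    (hj : j = 0 ∨ j = 1)
    (h : blockOKF j s s' Q B mt al be ga bd = true)
    {a a' v1 v2 v3 v4 v5 v6 c q : ℝ} (hz : ∀ y ∈ [a, a', v1, v2, v3, v4, v5, v6, c, q], 0 ≤ y)
    (h1 : 0 ≤ ((B.hi.getD (3 + j) 0 - B.lo.getD (3 + j) 0 : ℤ) : ℝ) * c - a)
    (h2 : 0 ≤ ((B.hi.getD (7 + j) 0 - B.lo.getD (7 + j) 0 : ℤ) : ℝ) * c - a')
    (h3 : 0 ≤ ((B.hi.getD (11 + j) 0 - B.lo.getD (11 + j) 0 : ℤ) : ℝ) * c - q)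
    {Yj : List ℝ} (hQ : ∀ r ∈ Q, r.length = 12) (hQ' : Q.length = 12)
    (hf : ∀ q' : List Int, q'.length = 12 → lin (rowForm j s (s * s') (B.lo.getD (3 + j) 0)
      (B.lo.getD (7 + j) 0) (B.lo.getD (11 + j) 0) q') [a, a', v1, v2, v3, v4, v5, v6, c, q] = lin q' Yj)
    (hg : ∀ G : Quad, G.length = 12 → ∀ w, full (rowFormV j s (s * s') (B.lo.getD (3 + j) 0)
      (B.lo.getD (7 + j) 0) (B.lo.getD (11 + j) 0) G) [a, a', v1, v2, v3, v4, v5, v6, c, q] w
      = rdot (G.map (fun g => lin g w)) Yj) :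
    (bd.t : ℝ) * c ^ 2 ≤ full Q Yj Yj
      + (parC j mt al be ga : ℝ) * (q + (B.lo.getD (11 + j) 0 : ℤ) * c) ^ 2 := by
  unfold blockOKF at h
  simp only [Bool.and_eq_true] at h
  obtain ⟨⟨hl, hn⟩, hq⟩ := h
  have hq2 := chain hq hz (by simp)
  rw [full_addQ, block_eq hQ hQ' hf hg] at hq2
  have hn' := nnUpsF_nnUps hn
  obtain ⟨n0, e0, e1, n1, e2, n2, e3, hnu⟩ : ∃ n0 e0 e1 n1 e2 n2 e3,
      bd.nu = [(n0, [e0, e1]), (n1, [e2]), (n2, e3)] := by
    rcases hj with rfl | rfl <;>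
    · unfold nuLen at hl
      split at hl
      all_goals first
        | exact ⟨_, _, _, _, _, _, _, by assumption⟩
        | simp_all
  rw [hnu] at hq2 hn'
  have := corr_le3 (pl' := B.lo.getD (11 + j) 0) (par := parC j mt al be ga) (t := bd.t) hn' hz h1 h2 h3
  linarith

/-- blocks 2 and 3 -/
theorem blockF_sound2 {j : ℕ} {s s' : ℤ} {Q : Quad} {B : Box} {mt al be ga : ℤ} {bd : BlockF}
    (hj : j = 2 ∨ j = 3)
    (h : blockOKF j s s' Q B mt al be ga bd = true)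
    {a a' v1 v2 v3 v4 v5 v6 c : ℝ} (hz : ∀ y ∈ [a, a', v1, v2, v3, v4, v5, v6, c], 0 ≤ y)
    (h1 : 0 ≤ ((B.hi.getD (3 + j) 0 - B.lo.getD (3 + j) 0 : ℤ) : ℝ) * c - a)
    (h2 : 0 ≤ ((B.hi.getD (7 + j) 0 - B.lo.getD (7 + j) 0 : ℤ) : ℝ) * c - a')
    {Yj : List ℝ} (hQ : ∀ r ∈ Q, r.length = 12) (hQ' : Q.length = 12)
    (hf : ∀ q' : List Int, q'.length = 12 → lin (rowForm j s (s * s') (B.lo.getD (3 + j) 0)
      (B.lo.getD (7 + j) 0) (B.lo.getD (11 + j) 0) q') [a, a', v1, v2, v3, v4, v5, v6, c] = lin q' Yj)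
    (hg : ∀ G : Quad, G.length = 12 → ∀ w, full (rowFormV j s (s * s') (B.lo.getD (3 + j) 0)
      (B.lo.getD (7 + j) 0) (B.lo.getD (11 + j) 0) G) [a, a', v1, v2, v3, v4, v5, v6, c] w
      = rdot (G.map (fun g => lin g w)) Yj) :
    (bd.t : ℝ) * c ^ 2 ≤ full Q Yj Yj := by
  unfold blockOKF at h
  simp only [Bool.and_eq_true] at h
  obtain ⟨⟨hl, hn⟩, hq⟩ := h
  have hq2 := chain hq hz (by simp)
  rw [full_addQ, block_eq hQ hQ' hf hg] at hq2
  have hn' := nnUpsF_nnUps hn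
  obtain ⟨n0, e0, n1, e1, hnu⟩ : ∃ n0 e0 n1 e1,
      bd.nu = [(n0, [e0]), (n1, e1)] := by
    rcases hj with rfl | rfl <;>
    · unfold nuLen at hl
      split at hl
      all_goals first
        | exact ⟨_, _, _, _, by assumption⟩
        | simp_all
  rw [hnu] at hq2 hn'
  have := corr_le2 (wp := B.hi.getD (11 + j) 0 - B.lo.getD (11 + j) 0)
    (pl' := B.lo.getD (11 + j) 0) (par := parC j mt al be ga) (t := bd.t) hn' hz h1 h2
  linarith

/-- squared distances weighted -/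
def sdV : List Int → Pt → List Pt → ℝ
  | r :: rs, P, Q :: Qs => (r : ℝ) * (∑ j, (P j - Q j) ^ 2) + sdV rs P Qs
  | _, _, _ => 0

theorem sum_sd (r : List Int) (P : Pt) (Qs : List Pt) {σ : Fin 4 → ℝ} (hσ : ∀ j, σ j ^ 2 = 1) :
    ∑ j, sd r (σ j * P j) (Qs.map (fun v => σ j * v j)) = sdV r P Qs := by
  induction r generalizing Qs with
  | nil => simp [sdV]
  | cons a r ih =>
    cases Qs with
    | nil => simp [sdV]
    | cons Q Qs =>
      simp only [List.map_cons, sd_cons, Finset.sum_add_distrib, ih, sdV]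
      congr 1
      rw [Finset.mul_sum]
      refine Finset.sum_congr rfl fun j _ => ?_
      have : (σ j * P j - σ j * Q j) ^ 2 = σ j ^ 2 * (P j - Q j) ^ 2 := by ring
      rw [this, hσ j, one_mul]

/-- energy of points -/
def enV : Quad → List Pt → ℝ
  | (w :: r) :: rs, P :: Ps => (w : ℝ) * (∑ j, P j ^ 2) + sdV r P Ps + enV rs Ps
  | [] :: rs, _ :: Ps => enV rs Ps
  | _, _ => 0

theorem sum_en (R : Quad) (Ps : List Pt) {σ : Fin 4 → ℝ} (hσ : ∀ j, σ j ^ 2 = 1) :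
    ∑ j, en R (Ps.map (fun v => σ j * v j)) = enV R Ps := by
  induction R generalizing Ps with
  | nil => simp [enV]
  | cons r rs ih =>
    cases Ps with
    | nil => simp [enV]
    | cons P Ps =>
      cases r with
      | nil =>
        simp only [List.map_cons, enV]
        exact ih Ps
      | cons w r =>
        simp only [List.map_cons, en_cons, Finset.sum_add_distrib, ih, enV, sum_sd _ _ _ hσ]
        congr 2
        rw [Finset.mul_sum]
        refine Finset.sum_congr rfl fun j _ => ?_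
        rw [mul_pow, hσ j, one_mul]

theorem sdV_le {r : List Int} (hr : nnL r = true) {P : Pt} {Qs : List Pt}
    (h : ∀ Q ∈ Qs, ∑ j, (P j - Q j) ^ 2 ≤ 1) : sdV r P Qs ≤ (sumL r : ℝ) := by
  induction r generalizing Qs with
  | nil => simp [sdV, sumL]
  | cons a r ih =>
    simp only [nnL, Bool.and_eq_true, decide_eq_true_eq] at hr
    have ha : (0 : ℝ) ≤ a := by exact_mod_cast hr.1
    cases Qs with
    | nil =>
      have := ih hr.2 (Qs := []) (by simp)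
      simp only [sdV, sumL]
      push_cast
      have h0 : sdV r P [] = 0 := by cases r <;> rfl
      rw [h0] at this
      linarith
    | cons Q Qs =>
      have h1 := ih hr.2 (Qs := Qs) (fun w hw => h w (by simp [hw]))
      have h2 := h Q (by simp)
      simp only [sdV, sumL]
      push_cast
      have := mul_le_mul_of_nonneg_left h2 ha
      linarith

/-- first four edges exact -/
theorem sdV_le4 {r : List Int} (hr : nnL (r.drop 4) = true) {P Q1 Q2 Q3 Q4 : Pt} {Qs : List Pt}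
    (h1 : ∑ j, (P j - Q1 j) ^ 2 = 1) (h2 : ∑ j, (P j - Q2 j) ^ 2 = 1)
    (h3 : ∑ j, (P j - Q3 j) ^ 2 = 1) (h4 : ∑ j, (P j - Q4 j) ^ 2 = 1)
    (h : ∀ Q ∈ Qs, ∑ j, (P j - Q j) ^ 2 ≤ 1) :
    sdV r P (Q1 :: Q2 :: Q3 :: Q4 :: Qs) ≤ (sumL r : ℝ) := by
  match r with
  | [] => simp [sdV, sumL]
  | [a] => simp [sdV, sumL, h1]
  | [a, b] => simp [sdV, sumL, h1, h2]
  | [a, b, c] => simp [sdV, sumL, h1, h2, h3]
  | a :: b :: c :: d :: r =>
    have := sdV_le (r := r) (by simpa using hr) h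
    simp only [sdV, sumL, h1, h2, h3, h4]
    push_cast
    linarith

end Pool.Agent.CW4
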