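import Pool.Agent.CW4.FastSound3

/-! # Soundness of the fast checker: the leaf theorem -/

set_option autoImplicit false
set_option maxHeartbeats 4000000

open scoped BigOperators

namespace Pool.Agent.CW4

theorem exists4 {s0 s1 s2 s3 t0 t1 t2 t3 : ℤ} {Q : Quad} {B : Box}
    {mt al be ga : ℤ} {Bs : List BlockF}
    (h : blocksOKF Q B mt al be ga 0 [s0, s1, s2, s3] [t0, t1, t2, t3] Bs = true) :
    ∃ b0 b1 b2 b3, Bs = [b0, b1, b2, b3] ∧
      blockOKF 0 s0 t0 Q B mt al be ga b0 = true ∧ blockOKF 1 s1 t1 Q B mt al be ga b1 = true ∧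
      blockOKF 2 s2 t2 Q B mt al be ga b2 = true ∧ blockOKF 3 s3 t3 Q B mt al be ga b3 = true := by
  match Bs, h with
  | [b0, b1, b2, b3], h =>
    simp only [blocksOKF, Bool.and_eq_true, and_true] at h
    exact ⟨b0, b1, b2, b3, rfl, h.1, h.2.1, h.2.2.1, h.2.2.2⟩
  | [], h => simp [blocksOKF] at h
  | [_], h => simp [blocksOKF] at h
  | [_, _], h => simp [blocksOKF] at h
  | [_, _, _], h => simp [blocksOKF] at h
  | _ :: _ :: _ :: _ :: _ :: _, h => simp [blocksOKF] at h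

/-- the shape of the rows -/
theorem mkRows_shape {d : LeafF} (h2 : (mkRows d).length = 12) :
    ∃ r0 r1 r2 r3 r4 r5 r6 r7 r8 r9 r10 w0 w1 w2 w3 w4 w5 w6 w7 w8 w9,
      d.m = [r0, r1, r2, r3, r4, r5, r6, r7, r8, r9, r10] ∧
      d.mu = [w0, w1, w2, w3, w4, w5, w6, w7, w8, w9] := by
  unfold mkRows at h2
  split at h2
  · exact ⟨_, _, _, _, _, _, _, _, _, _, _, _, _, _, _, _, _, _, _, _, _, by assumption, by assumption⟩
  · simp at h2

theorem enV_le {d : LeafF} (he : edgesOK d.m = true) (hmu : nnL d.mu = true)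
    (hlen : (mkRows d).length = 12) {p b : ℝ} {x : Pt} {V : Fin 4 → Pt} {x' : Pt}
    {V' : Fin 4 → Pt} (hp : ParC p b) (k : KillC p b x V) (k' : KillC p b x' V')
    (cr : CrossC x V x' V') :
    enV (mkRows d) (pl x V ++ pl x' V' ++ plc p b) ≤
      (sumLL d.m : ℝ) + (sumL d.mu : ℝ) * (p ^ 2 + b ^ 2)
      + ((d.de : ℝ) - d.ep) * ∑ j, x j ^ 2 + ((d.de' : ℝ) - d.ep') * ∑ j, x' j ^ 2 := by
  obtain ⟨r0, r1, r2, r3, r4, r5, r6, r7, r8, r9, r10, w0, w1, w2, w3, w4, w5, w6, w7, w8, w9,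
    hm, hw⟩ := mkRows_shape hlen
  have hpw := pl_pairwise hp k k' cr
  have hR : mkRows d = [(w0 + d.de - d.ep) :: r0, w1 :: r1, w2 :: r2, w3 :: r3, w4 :: r4,
     (w5 + d.de' - d.ep') :: r5, w6 :: r6, w7 :: r7, w8 :: r8, w9 :: r9, 0 :: r10, [0]] := by
    unfold mkRows
    rw [hm, hw]
  rw [hm] at he ⊢
  rw [hw] at hmu ⊢
  rw [hR]
  simp only [edgesOK, Bool.and_eq_true] at he
  obtain ⟨⟨⟨⟨⟨⟨⟨⟨⟨⟨g0, g1⟩, g2⟩, g3⟩, g4⟩, g5⟩, g6⟩, g7⟩, g8⟩, g9⟩, g10⟩ := he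
  simp only [nnL, Bool.and_eq_true, decide_eq_true_eq, and_true] at hmu
  obtain ⟨u0, u1, u2, u3, u4, u5, u6, u7, u8, u9⟩ := hmu
  have u0' : (0 : ℝ) ≤ w0 := by exact_mod_cast u0
  have u1' : (0 : ℝ) ≤ w1 := by exact_mod_cast u1
  have u2' : (0 : ℝ) ≤ w2 := by exact_mod_cast u2
  have u3' : (0 : ℝ) ≤ w3 := by exact_mod_cast u3
  have u4' : (0 : ℝ) ≤ w4 := by exact_mod_cast u4
  have u5' : (0 : ℝ) ≤ w5 := by exact_mod_cast u5
  have u6' : (0 : ℝ) ≤ w6 := by exact_mod_cast u6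
  have u7' : (0 : ℝ) ≤ w7 := by exact_mod_cast u7
  have u8' : (0 : ℝ) ≤ w8 := by exact_mod_cast u8
  have u9' : (0 : ℝ) ≤ w9 := by exact_mod_cast u9
  -- distances
  set P1 : Pt := fun j => x j - V 0 j with hP1
  set P2 : Pt := fun j => x j - V 1 j with hP2
  set P3 : Pt := fun j => x j - V 2 j with hP3
  set P4 : Pt := fun j => x j - V 3 j with hP4
  set Q1 : Pt := fun j => x' j - V' 0 j with hQ1
  set Q2 : Pt := fun j => x' j - V' 1 j with hQ2
  set Q3 : Pt := fun j => x' j - V' 2 j with hQ3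
  set Q4 : Pt := fun j => x' j - V' 3 j with hQ4
  have ePL : pl x V ++ pl x' V' ++ plc p b
      = [x, P1, P2, P3, P4, x', Q1, Q2, Q3, Q4, ![p, b, 0, 0], ![p, -b, 0, 0]] := rfl
  rw [ePL] at hpw ⊢
  have eu : ∀ (x : Pt) (V : Fin 4 → Pt) (i : Fin 4), (∑ j, V i j ^ 2 = 1) →
      ∑ j, (x j - (x j - V i j)) ^ 2 = 1 := by
    intro x V i h
    rw [← h]
    exact (Finset.sum_congr rfl fun j _ => by ring)
  have d1 := eu x V 0 (k.unit 0)
  have d2 := eu x V 1 (k.unit 1)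
  have d3 := eu x V 2 (k.unit 2)
  have d4 := eu x V 3 (k.unit 3)
  have d1' := eu x' V' 0 (k'.unit 0)
  have d2' := eu x' V' 1 (k'.unit 1)
  have d3' := eu x' V' 2 (k'.unit 2)
  have d4' := eu x' V' 3 (k'.unit 3)
  rw [List.pairwise_cons] at hpw
  obtain ⟨p0, hpw⟩ := hpw
  rw [List.pairwise_cons] at hpw
  obtain ⟨p1, hpw⟩ := hpw
  rw [List.pairwise_cons] at hpw
  obtain ⟨p2, hpw⟩ := hpw
  rw [List.pairwise_cons] at hpw
  obtain ⟨p3, hpw⟩ := hpw
  rw [List.pairwise_cons] at hpw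
  obtain ⟨p4, hpw⟩ := hpw
  rw [List.pairwise_cons] at hpw
  obtain ⟨p5, hpw⟩ := hpw
  rw [List.pairwise_cons] at hpw
  obtain ⟨p6, hpw⟩ := hpw
  rw [List.pairwise_cons] at hpw
  obtain ⟨p7, hpw⟩ := hpw
  rw [List.pairwise_cons] at hpw
  obtain ⟨p8, hpw⟩ := hpw
  rw [List.pairwise_cons] at hpw
  obtain ⟨p9, hpw⟩ := hpw
  rw [List.pairwise_cons] at hpw
  obtain ⟨p10, hpw⟩ := hpw
  have s0 := sdV_le4 (nnLF_nnL g0) (Qs := [x', Q1, Q2, Q3, Q4, ![p, b, 0, 0], ![p, -b, 0, 0]])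
    d1 d2 d3 d4 (fun Q hQ => p0 Q (by simp only [List.mem_cons] at hQ ⊢; tauto))
  have s1 := sdV_le (nnLF_nnL g1) p1
  have s2 := sdV_le (nnLF_nnL g2) p2
  have s3 := sdV_le (nnLF_nnL g3) p3
  have s4 := sdV_le (nnLF_nnL g4) p4
  have s5 := sdV_le4 (nnLF_nnL g5) (Qs := [![p, b, 0, 0], ![p, -b, 0, 0]])
    d1' d2' d3' d4' (fun Q hQ => p5 Q (by simp only [List.mem_cons] at hQ ⊢; tauto))
  have s6 := sdV_le (nnLF_nnL g6) p6
  have s7 := sdV_le (nnLF_nnL g7) p7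
  have s8 := sdV_le (nnLF_nnL g8) p8
  have s9 := sdV_le (nnLF_nnL g9) p9
  have s10 := sdV_le (nnLF_nnL g10) p10
  have t0 := mul_le_mul_of_nonneg_left k.ballx u0'
  have t1 := mul_le_mul_of_nonneg_left (k.bally 0) u1'
  have t2 := mul_le_mul_of_nonneg_left (k.bally 1) u2'
  have t3 := mul_le_mul_of_nonneg_left (k.bally 2) u3'
  have t4 := mul_le_mul_of_nonneg_left (k.bally 3) u4'
  have t5 := mul_le_mul_of_nonneg_left k'.ballx u5'
  have t6 := mul_le_mul_of_nonneg_left (k'.bally 0) u6'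
  have t7 := mul_le_mul_of_nonneg_left (k'.bally 1) u7'
  have t8 := mul_le_mul_of_nonneg_left (k'.bally 2) u8'
  have t9 := mul_le_mul_of_nonneg_left (k'.bally 3) u9'
  have z0 : ∀ P, sdV [] P [] = 0 := fun _ => rfl
  simp only [enV, sumLL, sumL, z0]
  push_cast
  simp only [hP1, hP2, hP3, hP4, hQ1, hQ2, hQ3, hQ4] at *
  linarith

theorem leafOKF_sound {B : Box} {d : LeafF} {p b : ℝ} {x : Pt} {V : Fin 4 → Pt} {x' : Pt}
    {V' : Fin 4 → Pt} {s s' : Fin 4 → ℤ}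
    (h : leafOKF [s 0, s 1, s 2, s 3] [s' 0, s' 1, s' 2, s' 3] B d = true)
    (hc : Conf p b x V x' V' s s') (hb : InBox B (vals p b x x' s s')) : False := by
  -- box facts
  have hl := fun i hi => forall₂_getD hb.lo i hi
  have hh := fun i hi => forall₂_getD hb.hi i hi
  have vlen : (vals p b x x' s s').length = 13 := rfl
  rw [vlen] at hl hh
  have l0 := hl 0 (by norm_num); have h0 := hh 0 (by norm_num)
  have l1 := hl 1 (by norm_num); have h1 := hh 1 (by norm_num)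
  have l2 := hl 2 (by norm_num); have h2 := hh 2 (by norm_num)
  have l3 := hl 3 (by norm_num); have h3 := hh 3 (by norm_num)
  have l4 := hl 4 (by norm_num); have h4 := hh 4 (by norm_num)
  have l5 := hl 5 (by norm_num); have h5 := hh 5 (by norm_num)
  have l6 := hl 6 (by norm_num); have h6 := hh 6 (by norm_num)
  have l7 := hl 7 (by norm_num); have h7 := hh 7 (by norm_num)
  have l8 := hl 8 (by norm_num); have h8 := hh 8 (by norm_num)
  have l9 := hl 9 (by norm_num); have h9 := hh 9 (by norm_num)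
  have l10 := hl 10 (by norm_num); have h10 := hh 10 (by norm_num)
  have l11 := hl 11 (by norm_num); have h11 := hh 11 (by norm_num)
  have l12 := hl 12 (by norm_num); have h12 := hh 12 (by norm_num)
  clear hl hh
  simp only [vals, List.getD_cons_zero, List.getD_cons_succ] at l0 h0 l1 h1 l2 h2 l3 h3 l4 h4 l5 h5
  simp only [vals, List.getD_cons_zero, List.getD_cons_succ] at l6 h6 l7 h7 l8 h8 l9 h9 l10 h10
  simp only [vals, List.getD_cons_zero, List.getD_cons_succ] at l11 h11 l12 h12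
  -- unpack the check
  unfold leafOKF at h
  simp only [Bool.and_eq_true, decide_eq_true_eq] at h
  obtain ⟨⟨⟨⟨⟨⟨⟨hm, hmu⟩, hrows⟩, hall⟩, hQlen⟩, hg⟩, hC⟩, hB⟩ := h
  have hmu' := nnLF_nnL hmu
  have hQ := allLen_mem hall
  have hQ' : (padRows (lap (mkRows d) (degs (mkRows d)))).length = 12 := Nat.eq_of_beq_eq_true hQlen
  have hg' := nnLF_nnL hg
  simp only [nnL, Bool.and_eq_true, decide_eq_true_eq, and_true] at hg'
  obtain ⟨gal, gbe, gga, gde, gep, gde', gep'⟩ := hg'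
  obtain ⟨b0, b1, b2, b3, hdB, q0, q1, q2, q3⟩ := exists4 hB
  set Q := padRows (lap (mkRows d) (degs (mkRows d))) with hQdef
  have ylen : ∀ σ j, (Y x V x' V' p b σ j).length = 12 := by intro σ j; rfl
  have eF : ∀ σ j, full Q (Y x V x' V' p b σ j) (Y x V x' V' p b σ j)
      = en (mkRows d) (Y x V x' V' p b σ j) := by
    intro σ j
    rw [hQdef, ← quad_padRows, quad_lap hrows (ylen σ j)]
  -- nonnegativity
  have c0 : (0 : ℝ) ≤ 1 / 1000 := by norm_num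
  have B0 := blockF_sound3 (Or.inl rfl) q0
    (a := s 0 * x 0 - (B.lo.getD 3 0 : ℤ) / 1000) (a' := s' 0 * x' 0 - (B.lo.getD 7 0 : ℤ) / 1000)
    (v1 := s 0 * V 1 0) (v2 := s 0 * V 2 0) (v3 := s 0 * V 3 0) (v4 := s' 0 * V' 1 0)
    (v5 := s' 0 * V' 2 0) (v6 := s' 0 * V' 3 0) (c := 1 / 1000)
    (q := p - (B.lo.getD 11 0 : ℤ) / 1000)
    (by
      simp only [List.mem_cons, List.not_mem_nil, or_false, forall_eq_or_imp, forall_eq]
      exact ⟨by linarith, by linarith, hc.nn 1 0, hc.nn 2 0, hc.nn 3 0, hc.nn' 1 0, hc.nn' 2 0,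
        hc.nn' 3 0, c0, by linarith⟩)
    (by push_cast; linarith)
    (by push_cast; linarith)
    (by push_cast; linarith)
    hQ hQ'
    (fun q' hq' => rowForm_0 (V := V) (V' := V') (b := b) (hc.pm' 0) (hc.k.diag 0) (hc.k'.diag 0) hq')
    (fun G hG w => rowFormV_0 (V := V) (V' := V') (b := b) (hc.pm' 0) (hc.k.diag 0) (hc.k'.diag 0) hG w)
  have B1 := blockF_sound3 (Or.inr rfl) q1
    (a := s 1 * x 1 - (B.lo.getD 4 0 : ℤ) / 1000) (a' := s' 1 * x' 1 - (B.lo.getD 8 0 : ℤ) / 1000)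
    (v1 := s 1 * V 0 1) (v2 := s 1 * V 2 1) (v3 := s 1 * V 3 1) (v4 := s' 1 * V' 0 1)
    (v5 := s' 1 * V' 2 1) (v6 := s' 1 * V' 3 1) (c := 1 / 1000)
    (q := b - (B.lo.getD 12 0 : ℤ) / 1000)
    (by
      simp only [List.mem_cons, List.not_mem_nil, or_false, forall_eq_or_imp, forall_eq]
      exact ⟨by linarith, by linarith, hc.nn 0 1, hc.nn 2 1, hc.nn 3 1, hc.nn' 0 1, hc.nn' 2 1,
        hc.nn' 3 1, c0, by linarith⟩)
    (by norm_num only [Nat.reduceAdd]; push_cast; linarith)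
    (by norm_num only [Nat.reduceAdd]; push_cast; linarith)
    (by norm_num only [Nat.reduceAdd]; push_cast; linarith)
    hQ hQ'
    (fun q' hq' => rowForm_1 (V := V) (V' := V') (p := p) (hc.pm' 1) (hc.k.diag 1) (hc.k'.diag 1) hq')
    (fun G hG w => rowFormV_1 (V := V) (V' := V') (p := p) (hc.pm' 1) (hc.k.diag 1) (hc.k'.diag 1) hG w)
  have B2 := blockF_sound2 (Or.inl rfl) q2
    (a := s 2 * x 2 - (B.lo.getD 5 0 : ℤ) / 1000) (a' := s' 2 * x' 2 - (B.lo.getD 9 0 : ℤ) / 1000)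
    (v1 := s 2 * V 0 2) (v2 := s 2 * V 1 2) (v3 := s 2 * V 3 2) (v4 := s' 2 * V' 0 2)
    (v5 := s' 2 * V' 1 2) (v6 := s' 2 * V' 3 2) (c := 1 / 1000)
    (by
      simp only [List.mem_cons, List.not_mem_nil, or_false, forall_eq_or_imp, forall_eq]
      exact ⟨by linarith, by linarith, hc.nn 0 2, hc.nn 1 2, hc.nn 3 2, hc.nn' 0 2, hc.nn' 1 2,
        hc.nn' 3 2, c0⟩)
    (by norm_num only [Nat.reduceAdd]; push_cast; linarith)
    (by norm_num only [Nat.reduceAdd]; push_cast; linarith)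
    hQ hQ'
    (fun q' hq' => rowForm_2 (V := V) (V' := V') (p := p) (b := b) (hc.pm' 2) (hc.k.diag 2) (hc.k'.diag 2) hq')
    (fun G hG w => rowFormV_2 (V := V) (V' := V') (p := p) (b := b) (hc.pm' 2) (hc.k.diag 2) (hc.k'.diag 2) hG w)
  have B3 := blockF_sound2 (Or.inr rfl) q3
    (a := s 3 * x 3 - (B.lo.getD 6 0 : ℤ) / 1000) (a' := s' 3 * x' 3 - (B.lo.getD 10 0 : ℤ) / 1000)
    (v1 := s 3 * V 0 3) (v2 := s 3 * V 1 3) (v3 := s 3 * V 2 3) (v4 := s' 3 * V' 0 3)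
    (v5 := s' 3 * V' 1 3) (v6 := s' 3 * V' 2 3) (c := 1 / 1000)
    (by
      simp only [List.mem_cons, List.not_mem_nil, or_false, forall_eq_or_imp, forall_eq]
      exact ⟨by linarith, by linarith, hc.nn 0 3, hc.nn 1 3, hc.nn 2 3, hc.nn' 0 3, hc.nn' 1 3,
        hc.nn' 2 3, c0⟩)
    (by norm_num only [Nat.reduceAdd]; push_cast; linarith)
    (by norm_num only [Nat.reduceAdd]; push_cast; linarith)
    hQ hQ'
    (fun q' hq' => rowForm_3 (V := V) (V' := V') (p := p) (b := b) (hc.pm' 3) (hc.k.diag 3) (hc.k'.diag 3) hq')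
    (fun G hG w => rowFormV_3 (V := V) (V' := V') (p := p) (b := b) (hc.pm' 3) (hc.k.diag 3) (hc.k'.diag 3) hG w)
  rw [eF] at B0 B1 B2 B3
  have hs2 : ∀ j, ((s j : ℤ) : ℝ) ^ 2 = 1 := by
    intro j; rcases hc.pm j with h | h <;> simp [h]
  have S := sum_en (mkRows d) (pl x V ++ pl x' V' ++ plc p b) (σ := fun j => (s j : ℝ)) hs2
  rw [Fin.sum_univ_four] at S
  have S' : en (mkRows d) (Y x V x' V' p b (s 0) 0) + en (mkRows d) (Y x V x' V' p b (s 1) 1)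
      + en (mkRows d) (Y x V x' V' p b (s 2) 2) + en (mkRows d) (Y x V x' V' p b (s 3) 3)
      = enV (mkRows d) (pl x V ++ pl x' V' ++ plc p b) := S
  have U := enV_le hm hmu' (rowsOK_length hrows) hc.par hc.k hc.k' hc.cr
  have hC' : ((leafCF B d : ℤ) : ℝ) < ((sumTF d.B : ℤ) : ℝ) := by exact_mod_cast hC
  rw [hdB] at hC'
  unfold leafCF at hC'
  simp only [sumTF] at hC'
  push_cast at hC'
  simp only [parC] at B0 B1
  push_cast at B0 B1
  have eq0 : p - (B.lo.getD 11 0 : ℤ) / 1000 + (B.lo.getD 11 0 : ℤ) * (1 / 1000 : ℝ) = p := by ring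
  have eq1 : b - (B.lo.getD 12 0 : ℤ) / 1000 + (B.lo.getD 12 0 : ℤ) * (1 / 1000 : ℝ) = b := by ring
  norm_num only [Nat.reduceAdd] at B0 B1
  simp only [eq0] at B0
  simp only [eq1] at B1
  have Gal : (0 : ℝ) ≤ d.al := by exact_mod_cast gal
  have Gbe : (0 : ℝ) ≤ d.be := by exact_mod_cast gbe
  have Gga : (0 : ℝ) ≤ d.ga := by exact_mod_cast gga
  have Gde : (0 : ℝ) ≤ d.de := by exact_mod_cast gde
  have Gep : (0 : ℝ) ≤ d.ep := by exact_mod_cast gep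
  have Gde' : (0 : ℝ) ≤ d.de' := by exact_mod_cast gde'
  have Gep' : (0 : ℝ) ≤ d.ep' := by exact_mod_cast gep'
  have m1 := mul_nonneg Gal (sub_nonneg.2 hc.par.pb)
  have m2 := mul_nonneg Gbe (sub_nonneg.2 l0)
  have m3 := mul_nonneg Gga (sub_nonneg.2 h0)
  have m4 := mul_nonneg Gde (sub_nonneg.2 h1)
  have m5 := mul_nonneg Gep (sub_nonneg.2 l1)
  have m6 := mul_nonneg Gde' (sub_nonneg.2 h2)
  have m7 := mul_nonneg Gep' (sub_nonneg.2 l2)
  nlinarith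
end Pool.Agent.CW4
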