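import Pool.Agent.CW4.Basic

set_option autoImplicit false

open scoped BigOperators
open Real

namespace Pool.Agent.CW4

namespace F4

/-- coordinates of four vectors in a frame -/
noncomputable def coords (e : Fin 4 → E) (v : Fin 4 → E) : Fin 4 → Fin 4 → ℝ :=
  fun i j => inner ℝ (v i) (e j)

theorem parseval {e : Fin 4 → E} (he : Orthonormal ℝ e) (w : E) :
    ∑ j, (inner ℝ w (e j)) ^ 2 = ‖w‖ ^ 2 := by
  obtain ⟨b, hb⟩ := Orthonormal.exists_orthonormalBasis_extension_of_card_eq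
    (by simp) (v := e) (s := Set.univ) (he.comp _ Subtype.val_injective)
  have h1 := b.sum_sq_norm_inner_left w
  rw [← h1]
  refine Finset.sum_congr rfl fun j _ => ?_
  rw [hb j (Set.mem_univ j), Real.norm_eq_abs, sq_abs]

/-- rotated frame -/
noncomputable def fr (f : Fin 4 → E) (θ : ℝ) : Fin 4 → E :=
  ![f 0, f 1, cos θ • f 2 + sin θ • f 3, (-sin θ) • f 2 + cos θ • f 3]

theorem fr_orthonormal {f : Fin 4 → E} (hf : Orthonormal ℝ f) (θ : ℝ) :
    Orthonormal ℝ (fr f θ) := by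
  have h := orthonormal_iff_ite.1 hf
  have hn := hf.1
  have hcs := cos_sq_add_sin_sq θ
  rw [orthonormal_iff_ite]
  intro i j
  have g0 : fr f θ 0 = f 0 := rfl
  have g1 : fr f θ 1 = f 1 := rfl
  have g2 : fr f θ 2 = cos θ • f 2 + sin θ • f 3 := rfl
  have g3 : fr f θ 3 = (-sin θ) • f 2 + cos θ • f 3 := rfl
  fin_cases i <;> fin_cases j <;>
    simp only [Fin.zero_eta, Fin.mk_one, Fin.reduceFinMk, g0, g1, g2, g3, inner_add_left,
      inner_add_right, real_inner_smul_left, real_inner_smul_right, h, Fin.isValue,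
      Fin.reduceEq, if_true, if_false, zero_ne_one, one_ne_zero] <;>
    nlinarith [hcs]

theorem fr_zero (f : Fin 4 → E) : fr f 0 = f := by
  ext i : 1
  fin_cases i <;> simp [fr]

theorem fr_cont (f : Fin 4 → E) (i : Fin 4) : Continuous fun θ => fr f θ i := by
  fin_cases i <;> simp only [fr] <;> fun_prop

/-- coordinates of the contact points -/
theorem contact {e : Fin 4 → E} (he : Orthonormal ℝ e) {c : E} {p b : ℝ}
    (hc : c = p • e 0 + b • e 1) (j : Fin 4) : inner ℝ c (e j) = (![p, b, 0, 0] : Fin 4 → ℝ) j := by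
  have h := orthonormal_iff_ite.1 he
  have hn := he.1
  rw [hc, inner_add_left, inner_smul_left, inner_smul_left, h, h]
  fin_cases j <;> simp

/-- the geometric data -/
structure Data (K : Set E) (o c₁ c₂ : E) (f : Fin 4 → E) (p b : ℝ) : Prop where
  on : Orthonormal ℝ f
  par : ParC p b
  ball : ∀ x ∈ K, ‖x - o‖ ^ 2 ≤ p ^ 2 + b ^ 2
  m1 : c₁ ∈ K
  m2 : c₂ ∈ K
  e1 : c₁ - o = p • f 0 + b • f 1
  e2 : c₂ - o = p • f 0 + (-b) • f 1

theorem sq_le_one {K : Set E} (hK : CW K) {a b : E} (ha : a ∈ K) (hb : b ∈ K) :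
    ‖a - b‖ ^ 2 ≤ 1 := by
  have := hK.diam a ha b hb
  have h0 := norm_nonneg (a - b)
  nlinarith

theorem killC_of {K : Set E} (hK : CW K) {o c₁ c₂ : E} {e : Fin 4 → E} {p b : ℝ}
    (D : Data K o c₁ c₂ e p b) {x : E} {v : Fin 4 → E} (hk : Kill K e x v) :
    KillC p b (fun j => inner ℝ (x - o) (e j)) (coords e v) := by
  have k1 : ∀ j, (![p, b, 0, 0] : Fin 4 → ℝ) j = inner ℝ (c₁ - o) (e j) := fun j =>
    (contact D.on D.e1 j).symm
  have k2 : ∀ j, (![p, -b, 0, 0] : Fin 4 → ℝ) j = inner ℝ (c₂ - o) (e j) := fun j =>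
    (contact D.on D.e2 j).symm
  refine ⟨fun i => hk.ho i, fun i => ?_, ?_, fun i => ?_, ?_, ?_, fun i => ?_, fun i => ?_,
    fun i k => ?_⟩
  · simp only [coords]
    rw [parseval D.on, hk.hv, one_pow]
  · show ∑ j, (inner ℝ (x - o) (e j)) ^ 2 ≤ _
    rw [parseval D.on]
    exact D.ball x hk.hx
  · simp only [coords]
    have : ∀ j, inner ℝ (x - o) (e j) - inner ℝ (v i) (e j) = inner ℝ (x - v i - o) (e j) := by
      intro j; rw [← inner_sub_left]; congr 1; abel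
    simp only [this]
    rw [parseval D.on]
    exact D.ball _ (hk.hy i)
  · simp only [k1, ← inner_sub_left]
    rw [parseval D.on, sub_sub_sub_cancel_right]
    exact sq_le_one hK hk.hx D.m1
  · simp only [k2, ← inner_sub_left]
    rw [parseval D.on, sub_sub_sub_cancel_right]
    exact sq_le_one hK hk.hx D.m2
  · simp only [k1, coords, ← inner_sub_left]
    rw [parseval D.on]
    have : x - o - v i - (c₁ - o) = x - v i - c₁ := by abel
    rw [this]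
    exact sq_le_one hK (hk.hy i) D.m1
  · simp only [k2, coords, ← inner_sub_left]
    rw [parseval D.on]
    have : x - o - v i - (c₂ - o) = x - v i - c₂ := by abel
    rw [this]
    exact sq_le_one hK (hk.hy i) D.m2
  · simp only [coords, ← inner_sub_left]
    rw [parseval D.on]
    have : v i - v k = (x - v k) - (x - v i) := by abel
    rw [this]
    exact sq_le_one hK (hk.hy k) (hk.hy i)

theorem crossC_of {K : Set E} (hK : CW K) {o : E} {e : Fin 4 → E}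
    (he : Orthonormal ℝ e) {x : E} {v : Fin 4 → E} (hk : Kill K e x v)
    {x' : E} {v' : Fin 4 → E} (hk' : Kill K e x' v') :
    CrossC (fun j => inner ℝ (x - o) (e j)) (coords e v)
      (fun j => inner ℝ (x' - o) (e j)) (coords e v') := by
  refine ⟨?_, fun k => ?_, fun i => ?_, fun i k => ?_⟩
  · simp only [← inner_sub_left]
    rw [parseval he, sub_sub_sub_cancel_right]
    exact sq_le_one hK hk.hx hk'.hx
  · simp only [coords, ← inner_sub_left]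
    rw [parseval he]
    have : x - o - (x' - o - v' k) = x - (x' - v' k) := by abel
    rw [this]
    exact sq_le_one hK hk.hx (hk'.hy k)
  · simp only [coords, ← inner_sub_left]
    rw [parseval he]
    have : x - o - v i - (x' - o) = x - v i - x' := by abel
    rw [this]
    exact sq_le_one hK (hk.hy i) hk'.hx
  · simp only [coords, ← inner_sub_left]
    rw [parseval he]
    have : x - o - v i - (x' - o - v' k) = x - v i - (x' - v' k) := by abel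
    rw [this]
    exact sq_le_one hK (hk.hy i) (hk'.hy k)

/-- construction of the frame from the contact points -/
theorem exists_data {K : Set E} (hK : CW K)
    (hcirc : ∃ (o : E) (R : ℝ), 0 ≤ R ∧ (∀ x ∈ K, ‖x - o‖ ≤ R) ∧
      ∃ c₁ ∈ K, ∃ c₂ ∈ K, ‖c₁ - o‖ = R ∧ ‖c₂ - o‖ = R ∧
        inner ℝ (c₁ - o) (c₂ - o) ≤ - R ^ 2 / 4) :
    ∃ (o c₁ c₂ : E) (f : Fin 4 → E) (p b : ℝ), Data K o c₁ c₂ f p b := by
  obtain ⟨o, R, hR0, hball, c₁, hc₁, c₂, hc₂, n1, n2, hin⟩ := hcirc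
  have hR : 0 < R := by
    rcases hR0.lt_or_eq with h | h
    · exact h
    · exfalso
      have hsub : K ⊆ {o} := by
        intro x hx
        have := hball x hx
        rw [← h] at this
        have h2 : x - o = 0 := norm_le_zero_iff.1 this
        exact sub_eq_zero.1 h2
      obtain ⟨z, hz⟩ := hK.int_nonempty
      have h1 := interior_mono hsub hz
      rw [interior_singleton] at h1
      exact h1
  obtain ⟨a₁, ha₁⟩ : ∃ a, a = c₁ - o := ⟨_, rfl⟩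
  obtain ⟨a₂, ha₂⟩ : ∃ a, a = c₂ - o := ⟨_, rfl⟩
  rw [← ha₁] at n1 hin
  rw [← ha₂] at n2 hin
  obtain ⟨b, hb⟩ : ∃ b, b = ‖a₁ - a₂‖ / 2 := ⟨_, rfl⟩
  obtain ⟨p, hp⟩ : ∃ p, p = ‖a₁ + a₂‖ / 2 := ⟨_, rfl⟩
  have hadd : ‖a₁ + a₂‖ ^ 2 = 2 * R ^ 2 + 2 * inner ℝ a₁ a₂ := by
    rw [@norm_add_sq_real, n1, n2]; ring
  have hsub : ‖a₁ - a₂‖ ^ 2 = 2 * R ^ 2 - 2 * inner ℝ a₁ a₂ := by
    rw [@norm_sub_sq_real, n1, n2]; ring
  have hpb : p ^ 2 + b ^ 2 = R ^ 2 := by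
    rw [hp, hb]; nlinarith
  have hne : a₁ - a₂ ≠ 0 := by
    intro h
    rw [h, norm_zero] at hsub
    nlinarith [sq_nonneg R, mul_pos hR hR]
  have hbpos : 0 < b := by
    rw [hb]; have := norm_pos_iff.2 hne; linarith
  obtain ⟨g, hg⟩ : ∃ g : Fin 4 → E, g = ![a₁ + a₂, a₁ - a₂, 0, 0] := ⟨_, rfl⟩
  have hg0 : g 0 = a₁ + a₂ := by rw [hg]; rfl
  have hg1 : g 1 = a₁ - a₂ := by rw [hg]; rfl
  have horth : inner ℝ (a₁ + a₂) (a₁ - a₂) = 0 := by
    rw [inner_add_left, inner_sub_right, inner_sub_right, real_inner_self_eq_norm_sq,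
      real_inner_self_eq_norm_sq, n1, n2, real_inner_comm]
    ring
  have horth' : inner ℝ (a₁ - a₂) (a₁ + a₂) = 0 := by rw [real_inner_comm]; exact horth
  have hpair : Pairwise fun i j => inner ℝ (g i) (g j) = 0 := by
    intro i j hij
    rw [hg]
    fin_cases i <;> fin_cases j <;> simp_all
  have hfin : Module.finrank ℝ E = Fintype.card (Fin 4) := by simp
  obtain ⟨B, hB⟩ : ∃ B, B = InnerProductSpace.gramSchmidtOrthonormalBasis hfin g := ⟨_, rfl⟩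
  have hB1 : B 1 = (‖a₁ - a₂‖⁻¹ : ℝ) • (a₁ - a₂) := by
    have := InnerProductSpace.gramSchmidtOrthonormalBasis_apply_of_orthogonal hfin hpair
      (i := 1) (by rw [hg1]; exact hne)
    rw [← hB, hg1] at this
    exact this
  have hs : a₁ - a₂ = (2 * b) • B 1 := by
    rw [hB1, smul_smul, hb]
    have : ‖a₁ - a₂‖ ≠ 0 := norm_ne_zero_iff.2 hne
    have : 2 * (‖a₁ - a₂‖ / 2) * ‖a₁ - a₂‖⁻¹ = 1 := by field_simp
    rw [this, one_smul]
  have ht : a₁ + a₂ = (2 * p) • B 0 := by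
    by_cases h0 : a₁ + a₂ = 0
    · rw [h0, hp, h0, norm_zero]; simp
    · have hB0 : B 0 = (‖a₁ + a₂‖⁻¹ : ℝ) • (a₁ + a₂) := by
        have := InnerProductSpace.gramSchmidtOrthonormalBasis_apply_of_orthogonal hfin hpair
          (i := 0) (by rw [hg0]; exact h0)
        rw [← hB, hg0] at this
        exact this
      rw [hB0, smul_smul, hp]
      have : ‖a₁ + a₂‖ ≠ 0 := norm_ne_zero_iff.2 h0
      have : 2 * (‖a₁ + a₂‖ / 2) * ‖a₁ + a₂‖⁻¹ = 1 := by field_simp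
      rw [this, one_smul]
  refine ⟨o, c₁, c₂, B, p, b, B.orthonormal, ⟨by rw [hp]; positivity, hbpos.le, ?_, ?_⟩, fun x hx => ?_,
    hc₁, hc₂, ?_, ?_⟩
  · have h1 := hK.diam c₁ hc₁ c₂ hc₂
    have h2 : a₁ - a₂ = c₁ - c₂ := by rw [ha₁, ha₂]; abel
    rw [hb, h2]; linarith
  · rw [hp, hb]
    nlinarith
  · rw [hpb]
    have := hball x hx
    have h0 := norm_nonneg (x - o)
    nlinarith
  · have h3 : (2 : ℝ) • (c₁ - o) = (2 : ℝ) • (p • B 0 + b • B 1) := by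
      rw [← ha₁, smul_add, smul_smul, smul_smul, ← hs, ← ht, two_smul]; abel
    exact smul_right_injective E (two_ne_zero) h3
  · have h3 : (2 : ℝ) • (c₂ - o) = (2 : ℝ) • (p • B 0 + (-b) • B 1) := by
      rw [← ha₂, smul_add, smul_smul, smul_smul, mul_neg, neg_smul, ← hs, ← ht, two_smul]; abel
    exact smul_right_injective E (two_ne_zero) h3

/-- the killed parameters with sign pattern of character `χ` -/
def Z (K : Set E) (f : Fin 4 → E) (χ : ℝ) : Set (ℝ × E × (Fin 4 → E) × (Fin 4 → ℝ)) :=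
  {z | z.1 ∈ Set.Icc 0 (π / 2) ∧ Kill K (fr f z.1) z.2.1 z.2.2.1 ∧
    SignC (coords (fr f z.1) z.2.2.1) z.2.2.2 ∧ z.2.2.2 0 * z.2.2.2 2 * z.2.2.2 3 = χ}

theorem Z_eq (K : Set E) (f : Fin 4 → E) (χ : ℝ) : Z K f χ =
    {z | z.1 ∈ Set.Icc 0 (π / 2)} ∩ {z | z.2.1 ∈ K} ∩ (⋂ i, {z | ‖z.2.2.1 i‖ = 1}) ∩
    (⋂ i, {z | inner ℝ (z.2.2.1 i) (fr f z.1 i) = 0}) ∩ (⋂ i, {z | z.2.1 - z.2.2.1 i ∈ K}) ∩
    (⋂ j, {z | z.2.2.2 j = 1 ∨ z.2.2.2 j = -1}) ∩
    (⋂ i, ⋂ j, {z | 0 ≤ z.2.2.2 j * inner ℝ (z.2.2.1 i) (fr f z.1 j)}) ∩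
    {z | z.2.2.2 0 * z.2.2.2 2 * z.2.2.2 3 = χ} := by
  ext z
  simp only [Z, Set.mem_inter_iff, Set.mem_iInter, Set.mem_ofPred_eq]
  constructor
  · rintro ⟨h1, h2, h3, h4⟩
    exact ⟨⟨⟨⟨⟨⟨⟨h1, h2.hx⟩, h2.hv⟩, h2.ho⟩, h2.hy⟩, h3.pm⟩, h3.nn⟩, h4⟩
  · rintro ⟨⟨⟨⟨⟨⟨⟨h1, h2⟩, h3⟩, h4⟩, h5⟩, h6⟩, h7⟩, h8⟩
    exact ⟨h1, ⟨h2, h3, h4, h5⟩, ⟨h6, h7⟩, h8⟩

theorem Z_closed {K : Set E} (hK : IsClosed K) (f : Fin 4 → E) (χ : ℝ) : IsClosed (Z K f χ) := by
  rw [Z_eq]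
  have cf : ∀ i, Continuous fun z : ℝ × E × (Fin 4 → E) × (Fin 4 → ℝ) => fr f z.1 i :=
    fun i => (fr_cont f i).comp continuous_fst
  have cv : ∀ i, Continuous fun z : ℝ × E × (Fin 4 → E) × (Fin 4 → ℝ) => z.2.2.1 i := by
    intro i; fun_prop
  have cx : Continuous fun z : ℝ × E × (Fin 4 → E) × (Fin 4 → ℝ) => z.2.1 := by fun_prop
  have cs : ∀ i, Continuous fun z : ℝ × E × (Fin 4 → E) × (Fin 4 → ℝ) => z.2.2.2 i := by
    intro i; fun_prop
  refine IsClosed.inter (IsClosed.inter (IsClosed.inter (IsClosed.inter (IsClosed.inter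
    (IsClosed.inter (IsClosed.inter ?_ ?_) ?_) ?_) ?_) ?_) ?_) ?_
  · exact isClosed_Icc.preimage continuous_fst
  · exact hK.preimage cx
  · exact isClosed_iInter fun i => isClosed_eq (cv i).norm continuous_const
  · exact isClosed_iInter fun i => isClosed_eq ((cv i).inner (cf i)) continuous_const
  · exact isClosed_iInter fun i => hK.preimage (cx.sub (cv i))
  · exact isClosed_iInter fun j => (isClosed_eq (cs j) continuous_const).union
      (isClosed_eq (cs j) continuous_const)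
  · exact isClosed_iInter fun i => isClosed_iInter fun j =>
      isClosed_le continuous_const ((cs j).mul ((cv i).inner (cf j)))
  · exact isClosed_eq (((cs 0).mul (cs 2)).mul (cs 3)) continuous_const

theorem Z_compact {K : Set E} (hK : IsCompact K) (f : Fin 4 → E) (χ : ℝ) :
    IsCompact (Z K f χ) := by
  have h1 : IsCompact (Set.Icc (0 : ℝ) (π / 2) ×ˢ (K ×ˢ
      ((Set.univ.pi fun _ : Fin 4 => Metric.closedBall (0 : E) 1) ×ˢ
        (Set.univ.pi fun _ : Fin 4 => Set.Icc (-1 : ℝ) 1)))) :=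
    isCompact_Icc.prod (hK.prod ((isCompact_univ_pi fun _ => isCompact_closedBall _ _).prod
      (isCompact_univ_pi fun _ => isCompact_Icc)))
  refine h1.of_isClosed_subset (Z_closed hK.isClosed f χ) ?_
  rintro ⟨θ, x, v, s⟩ ⟨h1, h2, h3, -⟩
  refine ⟨h1, h2.hx, fun i _ => ?_, fun j _ => ?_⟩
  · rw [mem_closedBall_zero_iff]; exact (h2.hv i).le
  · rcases h3.pm j with h | h
    · simp only [] at h ⊢
      rw [h]; constructor <;> norm_num
    · simp only [] at h ⊢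
      rw [h]; constructor <;> norm_num

/-- killed parameters -/
def Th (K : Set E) (f : Fin 4 → E) (χ : ℝ) : Set ℝ := Prod.fst '' Z K f χ

theorem Th_closed {K : Set E} (hK : IsCompact K) (f : Fin 4 → E) (χ : ℝ) :
    IsClosed (Th K f χ) := ((Z_compact hK f χ).image continuous_fst).isClosed

/-- quarter turn -/
theorem quarter {K : Set E} {f : Fin 4 → E} {χ : ℝ} (h : (0 : ℝ) ∈ Th K f χ) :
    π / 2 ∈ Th K f (-χ) := by
  obtain ⟨⟨θ, x, v, s⟩, ⟨h1, h2, h3, h4⟩, h5⟩ := h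
  simp only [] at h1 h2 h3 h4 h5
  subst h5
  rw [fr_zero] at h2 h3
  have q0 : fr f (π / 2) 0 = f 0 := rfl
  have q1 : fr f (π / 2) 1 = f 1 := rfl
  have q2 : fr f (π / 2) 2 = f 3 := by simp [fr]
  have q3 : fr f (π / 2) 3 = -f 2 := by simp [fr]
  refine ⟨⟨π / 2, x, ![v 0, v 1, v 3, v 2], ![s 0, s 1, s 3, -s 2]⟩, ⟨?_, ?_, ?_, ?_⟩, rfl⟩
  · exact ⟨by positivity, le_rfl⟩
  · refine ⟨h2.hx, fun i => ?_, fun i => ?_, fun i => ?_⟩
    · fin_cases i
      · exact h2.hv 0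
      · exact h2.hv 1
      · exact h2.hv 3
      · exact h2.hv 2
    · fin_cases i
      · exact h2.ho 0
      · exact h2.ho 1
      · show inner ℝ (v 3) (fr f (π / 2) 2) = 0
        rw [q2]; exact h2.ho 3
      · show inner ℝ (v 2) (fr f (π / 2) 3) = 0
        rw [q3, inner_neg_right, h2.ho 2, neg_zero]
    · fin_cases i
      · exact h2.hy 0
      · exact h2.hy 1
      · exact h2.hy 3
      · exact h2.hy 2
  · have key : ∀ w i, w = v i → ∀ j, 0 ≤ (![s 0, s 1, s 3, -s 2] : Fin 4 → ℝ) j *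
        inner ℝ w (fr f (π / 2) j) := by
      rintro w i rfl j
      fin_cases j
      · exact h3.nn i 0
      · exact h3.nn i 1
      · show 0 ≤ s 3 * inner ℝ (v i) (fr f (π / 2) 2)
        rw [q2]; exact h3.nn i 3
      · show 0 ≤ -s 2 * inner ℝ (v i) (fr f (π / 2) 3)
        rw [q3, inner_neg_right, neg_mul_neg]; exact h3.nn i 2
    refine ⟨fun j => ?_, fun i j => ?_⟩
    · fin_cases j
      · exact h3.pm 0
      · exact h3.pm 1
      · exact h3.pm 3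
      · show -s 2 = 1 ∨ -s 2 = -1
        rcases h3.pm 2 with h | h
        · right; rw [h]
        · left; rw [h]; norm_num
    · fin_cases i
      · exact key _ 0 rfl j
      · exact key _ 1 rfl j
      · exact key _ 3 rfl j
      · exact key _ 2 rfl j
  · show s 0 * s 3 * -s 2 = -χ
    rw [← h4]; ring

end F4

open F4 in
/-- F4: the topological argument (with F2 and F3 as hypotheses). -/
theorem exists_good_frame_of
    (circum : ∀ (K : Set E) (_ : IsCompact K) (_ : K.Nonempty),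
      ∃ (o : E) (R : ℝ), 0 ≤ R ∧ (∀ x ∈ K, ‖x - o‖ ≤ R) ∧
      ∃ c₁ ∈ K, ∃ c₂ ∈ K, ‖c₁ - o‖ = R ∧ ‖c₂ - o‖ = R ∧
        inner ℝ (c₁ - o) (c₂ - o) ≤ - R ^ 2 / 4)
    (sign_lemma : ∀ (V : Fin 4 → Fin 4 → ℝ) (_ : ∀ i, V i i = 0) (_ : ∀ i, ∑ j, V i j ^ 2 = 1)
      (_ : ∀ i k, ∑ j, (V i j - V k j) ^ 2 ≤ 1), ∃ s : Fin 4 → ℝ, SignC V s)
    (K : Set E) (hK : CW K)
    (hinf : ∀ s s' : Fin 4 → ℝ, (∀ j, s j = 1 ∨ s j = -1) → (∀ j, s' j = 1 ∨ s' j = -1) →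
      s 0 * s 2 * s 3 = - (s' 0 * s' 2 * s' 3) → Infeas s s') :
    ∃ e : Fin 4 → E, Orthonormal ℝ e ∧ ∀ x v, ¬ Kill K e x v := by
  by_contra hcon
  push Not at hcon
  obtain ⟨o, c₁, c₂, f, p, b, D⟩ := exists_data hK
    (circum K hK.compact (hK.int_nonempty.mono interior_subset))
  have Dθ : ∀ θ, Data K o c₁ c₂ (fr f θ) p b := fun θ =>
    ⟨fr_orthonormal D.on θ, D.par, D.ball, D.m1, D.m2, D.e1, D.e2⟩
  have hcover : ∀ θ ∈ Set.Icc (0 : ℝ) (π / 2), θ ∈ Th K f 1 ∪ Th K f (-1) := by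
    intro θ hθ
    obtain ⟨x, v, hk⟩ := hcon (fr f θ) (Dθ θ).on
    have hC := killC_of hK (Dθ θ) hk
    obtain ⟨s, hs⟩ := sign_lemma _ hC.diag hC.unit hC.pair
    have : s 0 * s 2 * s 3 = 1 ∨ s 0 * s 2 * s 3 = -1 := by
      rcases hs.pm 0 with h0 | h0 <;> rcases hs.pm 2 with h2 | h2 <;>
        rcases hs.pm 3 with h3 | h3 <;> rw [h0, h2, h3] <;> norm_num
    rcases this with h | h
    · exact Or.inl ⟨⟨θ, x, v, s⟩, ⟨hθ, hk, hs, h⟩, rfl⟩
    · exact Or.inr ⟨⟨θ, x, v, s⟩, ⟨hθ, hk, hs, h⟩, rfl⟩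
  have hpi : (0 : ℝ) ≤ π / 2 := by positivity
  have hboth : (Set.Icc (0 : ℝ) (π / 2) ∩ Th K f 1).Nonempty ∧
      (Set.Icc (0 : ℝ) (π / 2) ∩ Th K f (-1)).Nonempty := by
    rcases hcover 0 ⟨le_rfl, hpi⟩ with h | h
    · exact ⟨⟨0, ⟨le_rfl, hpi⟩, h⟩, ⟨π / 2, ⟨hpi, le_rfl⟩, quarter h⟩⟩
    · have := quarter h
      rw [neg_neg] at this
      exact ⟨⟨π / 2, ⟨hpi, le_rfl⟩, this⟩, ⟨0, ⟨le_rfl, hpi⟩, h⟩⟩
  obtain ⟨θ, -, ⟨⟨⟨θ1, x, v, s⟩, ⟨-, k1, k2, k3⟩, k4⟩, ⟨⟨θ2, x', v', s'⟩, ⟨-, l1, l2, l3⟩, l4⟩⟩⟩ :=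
    isPreconnected_closed_iff.1 isPreconnected_Icc (Th K f 1) (Th K f (-1))
      (Th_closed hK.compact f 1) (Th_closed hK.compact f (-1)) hcover hboth.1 hboth.2
  simp only [] at k1 k2 k3 k4 l1 l2 l3 l4
  subst k4
  subst l4
  exact hinf s s' k2.pm l2.pm (by rw [k3, l3]; norm_num) p b _ _ _ _ D.par
    (killC_of hK (Dθ θ2) k1) (killC_of hK (Dθ θ2) l1) (crossC_of hK (Dθ θ2).on k1 l1) k2 l2

end Pool.Agent.CW4
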