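import Pool.Agent.CW4.Basic

/-!
# Column signs and symmetries of the sign cases (steps F3, F5 of MP_ba7b31_co, S11071)
-/

set_option autoImplicit false

open scoped BigOperators

namespace Pool.Agent.CW4

/-- Three numbers whose squares are dominated by the mixed products have a common weak sign. -/
theorem three_signs (a b c : ℝ) (h : a ^ 2 + b ^ 2 + c ^ 2 ≤ 2 * (a * b + b * c + c * a)) :
    ∃ s : ℝ, (s = 1 ∨ s = -1) ∧ 0 ≤ s * a ∧ 0 ≤ s * b ∧ 0 ≤ s * c := by
  have hab : 0 ≤ a * b := by nlinarith [sq_nonneg (c - (a + b))]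
  have hbc : 0 ≤ b * c := by nlinarith [sq_nonneg (a - (b + c))]
  have hca : 0 ≤ c * a := by nlinarith [sq_nonneg (b - (c + a))]
  rcases lt_trichotomy a 0 with ha | ha | ha
  · refine ⟨-1, Or.inr rfl, by linarith, ?_, ?_⟩
    · nlinarith
    · nlinarith
  · subst ha
    rcases le_total b 0 with hb | hb
    · rcases eq_or_lt_of_le hb with hb0 | hb0
      · subst hb0
        have hc0 : c = 0 := by nlinarith [sq_nonneg c]
        exact ⟨1, Or.inl rfl, by simp, by simp, by simp [hc0]⟩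
      · refine ⟨-1, Or.inr rfl, by simp, by linarith, ?_⟩
        nlinarith
    · rcases eq_or_lt_of_le hb with hb0 | hb0
      · have hb' : b = 0 := hb0.symm
        subst hb'
        have hc0 : c = 0 := by nlinarith [sq_nonneg c]
        exact ⟨1, Or.inl rfl, by simp, by simp, by simp [hc0]⟩
      · refine ⟨1, Or.inl rfl, by simp, by linarith, ?_⟩
        nlinarith
  · refine ⟨1, Or.inl rfl, by linarith, ?_, ?_⟩
    · nlinarith
    · nlinarith

/-- The column estimate. -/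
theorem col_signs (a b c p q r s u v : ℝ) (h1 : a ^ 2 + p ^ 2 + q ^ 2 = 1)
    (h2 : b ^ 2 + r ^ 2 + s ^ 2 = 1) (h3 : c ^ 2 + u ^ 2 + v ^ 2 = 1)
    (h12 : 1 / 2 ≤ a * b + q * s) (h13 : 1 / 2 ≤ a * c + p * v) (h23 : 1 / 2 ≤ b * c + r * u) :
    ∃ t : ℝ, (t = 1 ∨ t = -1) ∧ 0 ≤ t * a ∧ 0 ≤ t * b ∧ 0 ≤ t * c := by
  apply three_signs
  nlinarith [sq_nonneg (q - s), sq_nonneg (p - v), sq_nonneg (r - u)]

/-- F3: sign lemma -/
theorem sign_lemma (V : Fin 4 → Fin 4 → ℝ) (hd : ∀ i, V i i = 0) (hu : ∀ i, ∑ j, V i j ^ 2 = 1)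
    (hp : ∀ i k, ∑ j, (V i j - V k j) ^ 2 ≤ 1) :
    ∃ s : Fin 4 → ℝ, SignC V s := by
  have d0 := hd 0
  have d1 := hd 1
  have d2 := hd 2
  have d3 := hd 3
  have u0 := hu 0
  have u1 := hu 1
  have u2 := hu 2
  have u3 := hu 3
  have p01 := hp 0 1
  have p02 := hp 0 2
  have p03 := hp 0 3
  have p12 := hp 1 2
  have p13 := hp 1 3
  have p23 := hp 2 3
  simp only [Fin.sum_univ_four, d0, d1, d2, d3] at u0 u1 u2 u3 p01 p02 p03 p12 p13 p23
  have hcol : ∀ j, ∃ t : ℝ, (t = 1 ∨ t = -1) ∧ ∀ i, 0 ≤ t * V i j := by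
    intro j
    fin_cases j
    · obtain ⟨t, ht, ha, hb, hc⟩ := col_signs (V 1 0) (V 2 0) (V 3 0) (V 1 2) (V 1 3) (V 2 1)
        (V 2 3) (V 3 1) (V 3 2) (by linarith) (by linarith) (by linarith) (by linarith)
        (by linarith) (by linarith)
      refine ⟨t, ht, fun i => ?_⟩
      fin_cases i
      · show 0 ≤ t * V 0 0
        rw [d0, mul_zero]
      · exact ha
      · exact hb
      · exact hc
    · obtain ⟨t, ht, ha, hb, hc⟩ := col_signs (V 0 1) (V 2 1) (V 3 1) (V 0 2) (V 0 3) (V 2 0)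
        (V 2 3) (V 3 0) (V 3 2) (by linarith) (by linarith) (by linarith) (by linarith)
        (by linarith) (by linarith)
      refine ⟨t, ht, fun i => ?_⟩
      fin_cases i
      · exact ha
      · show 0 ≤ t * V 1 1
        rw [d1, mul_zero]
      · exact hb
      · exact hc
    · obtain ⟨t, ht, ha, hb, hc⟩ := col_signs (V 0 2) (V 1 2) (V 3 2) (V 0 1) (V 0 3) (V 1 0)
        (V 1 3) (V 3 0) (V 3 1) (by linarith) (by linarith) (by linarith) (by linarith)
        (by linarith) (by linarith)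
      refine ⟨t, ht, fun i => ?_⟩
      fin_cases i
      · exact ha
      · exact hb
      · show 0 ≤ t * V 2 2
        rw [d2, mul_zero]
      · exact hc
    · obtain ⟨t, ht, ha, hb, hc⟩ := col_signs (V 0 3) (V 1 3) (V 2 3) (V 0 1) (V 0 2) (V 1 0)
        (V 1 2) (V 2 0) (V 2 1) (by linarith) (by linarith) (by linarith) (by linarith)
        (by linarith) (by linarith)
      refine ⟨t, ht, fun i => ?_⟩
      fin_cases i
      · exact ha
      · exact hb
      · exact hc
      · show 0 ≤ t * V 3 3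
        rw [d3, mul_zero]
  choose s hs1 hs2 using hcol
  exact ⟨s, hs1, fun i j => hs2 j i⟩

/-! ### Symmetries of `Infeas` -/

theorem CrossC.symm {x x' : Fin 4 → ℝ} {V V' : Fin 4 → Fin 4 → ℝ} (h : CrossC x V x' V') :
    CrossC x' V' x V := by
  refine ⟨?_, fun k => ?_, fun i => ?_, fun i k => ?_⟩
  · refine le_trans (le_of_eq (Finset.sum_congr rfl fun j _ => ?_)) h.xx
    ring
  · refine le_trans (le_of_eq (Finset.sum_congr rfl fun j _ => ?_)) (h.yx k)
    ring
  · refine le_trans (le_of_eq (Finset.sum_congr rfl fun j _ => ?_)) (h.xy i)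
    ring
  · refine le_trans (le_of_eq (Finset.sum_congr rfl fun j _ => ?_)) (h.yy k i)
    ring

theorem Infeas.symm {s s' : Fin 4 → ℝ} (h : Infeas s s') : Infeas s' s :=
  fun p b x V x' V' hP hK hK' hC hS hS' => h p b x' V' x V hP hK' hK hC.symm hS' hS

theorem sq_sign_mul {σ a b : ℝ} (hσ : σ = 1 ∨ σ = -1) : (σ * a - σ * b) ^ 2 = (a - b) ^ 2 := by
  rcases hσ with rfl | rfl <;> ring

/-- Reflection in coordinates. -/
theorem KillC.refl {p b : ℝ} {x : Fin 4 → ℝ} {V : Fin 4 → Fin 4 → ℝ} (h : KillC p b x V)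
    {σ : Fin 4 → ℝ} (hσ : ∀ j, σ j = 1 ∨ σ j = -1) (h0 : σ 0 = 1) :
    KillC p b (fun j => σ j * x j) (fun i j => σ j * V i j) := by
  have hsq : ∀ j, σ j ^ 2 = 1 := fun j => by rcases hσ j with h | h <;> rw [h] <;> norm_num
  have hc1 : ∀ y : Fin 4 → ℝ, ∑ j, (y j - ![p, b, 0, 0] j) ^ 2 ≤ 1 →
      ∑ j, (y j - ![p, -b, 0, 0] j) ^ 2 ≤ 1 →
      ∑ j, (σ j * y j - ![p, b, 0, 0] j) ^ 2 ≤ 1 ∧ ∑ j, (σ j * y j - ![p, -b, 0, 0] j) ^ 2 ≤ 1 := by
    intro y h1 h2
    have v0 : ∀ b : ℝ, (![p, b, 0, 0] : Fin 4 → ℝ) 0 = p := fun _ => rfl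
    have v1 : ∀ b : ℝ, (![p, b, 0, 0] : Fin 4 → ℝ) 1 = b := fun _ => rfl
    have v2 : ∀ b : ℝ, (![p, b, 0, 0] : Fin 4 → ℝ) 2 = 0 := fun _ => rfl
    have v3 : ∀ b : ℝ, (![p, b, 0, 0] : Fin 4 → ℝ) 3 = 0 := fun _ => rfl
    simp only [Fin.sum_univ_four, v0, v1, v2, v3, sub_zero, h0, mul_pow, hsq, one_mul] at h1 h2 ⊢
    rcases hσ 1 with h | h <;> rw [h]
    · constructor <;> linarith
    · constructor <;> linarith
  refine ⟨fun i => by simp only [h.diag, mul_zero], fun i => ?_, ?_, fun i => ?_, ?_, ?_,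
    fun i => ?_, fun i => ?_, fun i k => ?_⟩
  · simp only [mul_pow, hsq, one_mul]
    exact h.unit i
  · simp only [mul_pow, hsq, one_mul]
    exact h.ballx
  · simp only [sq_sign_mul (hσ _)]
    exact h.bally i
  · exact (hc1 x h.c1x h.c2x).1
  · exact (hc1 x h.c1x h.c2x).2
  · have := (hc1 (fun j => x j - V i j) (h.c1y i) (h.c2y i)).1
    simpa only [mul_sub] using this
  · have := (hc1 (fun j => x j - V i j) (h.c1y i) (h.c2y i)).2
    simpa only [mul_sub] using this
  · simp only [sq_sign_mul (hσ _)]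
    exact h.pair i k

theorem CrossC.refl {x x' : Fin 4 → ℝ} {V V' : Fin 4 → Fin 4 → ℝ} (h : CrossC x V x' V')
    {σ : Fin 4 → ℝ} (hσ : ∀ j, σ j = 1 ∨ σ j = -1) :
    CrossC (fun j => σ j * x j) (fun i j => σ j * V i j) (fun j => σ j * x' j)
      (fun i j => σ j * V' i j) := by
  refine ⟨?_, fun k => ?_, fun i => ?_, fun i k => ?_⟩
  · simp only [sq_sign_mul (hσ _)]
    exact h.xx
  · simp only [← mul_sub]
    refine le_trans (le_of_eq (Finset.sum_congr rfl fun j _ => ?_)) (h.xy k)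
    rcases hσ j with h | h <;> rw [h] <;> ring
  · simp only [← mul_sub]
    refine le_trans (le_of_eq (Finset.sum_congr rfl fun j _ => ?_)) (h.yx i)
    rcases hσ j with h | h <;> rw [h] <;> ring
  · simp only [← mul_sub]
    refine le_trans (le_of_eq (Finset.sum_congr rfl fun j _ => ?_)) (h.yy i k)
    rcases hσ j with h | h <;> rw [h] <;> ring

theorem SignC.refl {V : Fin 4 → Fin 4 → ℝ} {s : Fin 4 → ℝ} (h : SignC V s)
    {σ : Fin 4 → ℝ} (hσ : ∀ j, σ j = 1 ∨ σ j = -1) :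
    SignC (fun i j => σ j * V i j) (fun j => σ j * s j) := by
  refine ⟨fun j => ?_, fun i j => ?_⟩
  · rcases hσ j with h1 | h1 <;> rcases h.pm j with h2 | h2 <;> simp [h1, h2]
  · have h3 := h.nn i j
    rcases hσ j with h1 | h1 <;> simp only [h1] <;> linarith

theorem Infeas.of_refl {s s' : Fin 4 → ℝ} {σ : Fin 4 → ℝ} (hσ : ∀ j, σ j = 1 ∨ σ j = -1)
    (h0 : σ 0 = 1) (h : Infeas (fun j => σ j * s j) (fun j => σ j * s' j)) : Infeas s s' :=
  fun p b _ _ _ _ hP hK hK' hC hS hS' =>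
    h p b _ _ _ _ hP (hK.refl hσ h0) (hK'.refl hσ h0) (hC.refl hσ) (hS.refl hσ) (hS'.refl hσ)

/-- Exchange of the coordinates `2`, `3` and of the rows `2`, `3`. -/
def ex : Equiv.Perm (Fin 4) := Equiv.swap 2 3

theorem sum_ex (f : Fin 4 → ℝ) : ∑ j, f (ex j) = ∑ j, f j := Equiv.sum_comp ex f

theorem vec_ex (p b : ℝ) (j : Fin 4) :
    (![p, b, 0, 0] : Fin 4 → ℝ) j = ![p, b, 0, 0] (ex j) := by
  fin_cases j <;> simp [ex, Equiv.swap_apply_def]

theorem sum_ex_vec (p b : ℝ) (y : Fin 4 → ℝ) :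
    ∑ j, (y (ex j) - ![p, b, 0, 0] j) ^ 2 = ∑ j, (y j - ![p, b, 0, 0] j) ^ 2 := by
  rw [← sum_ex fun j => (y j - ![p, b, 0, 0] j) ^ 2]
  exact Finset.sum_congr rfl fun j _ => by rw [← vec_ex p b j]

theorem KillC.exch {p b : ℝ} {x : Fin 4 → ℝ} {V : Fin 4 → Fin 4 → ℝ} (h : KillC p b x V) :
    KillC p b (fun j => x (ex j)) (fun i j => V (ex i) (ex j)) := by
  refine ⟨fun i => h.diag _, fun i => ?_, ?_, fun i => ?_, ?_, ?_, fun i => ?_, fun i => ?_,
    fun i k => ?_⟩
  · exact (sum_ex fun j => V (ex i) j ^ 2).trans (h.unit _)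
  · exact (sum_ex fun j => x j ^ 2).le.trans h.ballx
  · exact (sum_ex fun j => (x j - V (ex i) j) ^ 2).le.trans (h.bally _)
  · exact (sum_ex_vec p b x).le.trans h.c1x
  · exact (sum_ex_vec p (-b) x).le.trans h.c2x
  · exact (sum_ex_vec p b fun j => x j - V (ex i) j).le.trans (h.c1y _)
  · exact (sum_ex_vec p (-b) fun j => x j - V (ex i) j).le.trans (h.c2y _)
  · exact (sum_ex fun j => (V (ex i) j - V (ex k) j) ^ 2).le.trans (h.pair _ _)

theorem CrossC.exch {x x' : Fin 4 → ℝ} {V V' : Fin 4 → Fin 4 → ℝ} (h : CrossC x V x' V') :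
    CrossC (fun j => x (ex j)) (fun i j => V (ex i) (ex j)) (fun j => x' (ex j))
      (fun i j => V' (ex i) (ex j)) := by
  refine ⟨?_, fun k => ?_, fun i => ?_, fun i k => ?_⟩
  · exact (sum_ex fun j => (x j - x' j) ^ 2).le.trans h.xx
  · exact (sum_ex fun j => (x j - (x' j - V' (ex k) j)) ^ 2).le.trans (h.xy _)
  · exact (sum_ex fun j => (x j - V (ex i) j - x' j) ^ 2).le.trans (h.yx _)
  · exact (sum_ex fun j => (x j - V (ex i) j - (x' j - V' (ex k) j)) ^ 2).le.trans (h.yy _ _)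

theorem SignC.exch {V : Fin 4 → Fin 4 → ℝ} {s : Fin 4 → ℝ} (h : SignC V s) :
    SignC (fun i j => V (ex i) (ex j)) (fun j => s (ex j)) :=
  ⟨fun _ => h.pm _, fun _ _ => h.nn _ _⟩

theorem Infeas.of_exch {s s' : Fin 4 → ℝ} (h : Infeas (fun j => s (ex j)) (fun j => s' (ex j))) :
    Infeas s s' :=
  fun p b _ _ _ _ hP hK hK' hC hS hS' =>
    h p b _ _ _ _ hP hK.exch hK'.exch hC.exch hS.exch hS'.exch

theorem exch_vec (a b c d : ℝ) :
    (fun j => (![a, b, c, d] : Fin 4 → ℝ) (ex j)) = ![a, b, d, c] := by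
  funext j
  fin_cases j <;> simp [ex, Equiv.swap_apply_def]

theorem refl_vec (a b c d a' b' c' d' : ℝ) :
    (fun j => (![a, b, c, d] : Fin 4 → ℝ) j * ![a', b', c', d'] j) =
      ![a * a', b * b', c * c', d * d'] := by
  funext j
  fin_cases j <;> simp

theorem Infeas.exch_vec {a b c d a' b' c' d' : ℝ}
    (h : Infeas ![a, b, d, c] ![a', b', d', c']) : Infeas ![a, b, c, d] ![a', b', c', d'] := by
  apply Infeas.of_exch
  rw [CW4.exch_vec, CW4.exch_vec]
  exact h

theorem Infeas.refl_vec {a b c d a' b' c' d' : ℝ} (σ1 σ2 σ3 : ℝ) (h1 : σ1 = 1 ∨ σ1 = -1)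
    (h2 : σ2 = 1 ∨ σ2 = -1) (h3 : σ3 = 1 ∨ σ3 = -1)
    (h : Infeas ![a, σ1 * b, σ2 * c, σ3 * d] ![a', σ1 * b', σ2 * c', σ3 * d']) :
    Infeas ![a, b, c, d] ![a', b', c', d'] := by
  apply Infeas.of_refl (σ := ![1, σ1, σ2, σ3])
  · intro j
    fin_cases j
    · exact Or.inl rfl
    · exact h1
    · exact h2
    · exact h3
  · rfl
  · rw [CW4.refl_vec, CW4.refl_vec, one_mul, one_mul]
    exact h

/-- F5: reduction of all sign cases to eight. -/
theorem infeas_all
    (h1 : Infeas ![1,1,1,1] ![1,1,1,-1]) (h2 : Infeas ![-1,1,1,1] ![-1,1,1,-1])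
    (h3 : Infeas ![1,1,1,1] ![1,-1,1,-1]) (h4 : Infeas ![-1,1,1,1] ![-1,-1,1,-1])
    (h5 : Infeas ![1,1,1,1] ![-1,1,1,1]) (h6 : Infeas ![1,1,1,1] ![-1,-1,1,1])
    (h7 : Infeas ![1,1,1,1] ![-1,1,-1,-1]) (h8 : Infeas ![1,1,1,1] ![-1,-1,-1,-1])
    (s s' : Fin 4 → ℝ) (hs : ∀ j, s j = 1 ∨ s j = -1) (hs' : ∀ j, s' j = 1 ∨ s' j = -1)
    (hchi : s 0 * s 2 * s 3 = - (s' 0 * s' 2 * s' 3)) : Infeas s s' := by
  have base : ∀ a a' b' c' d' : ℝ, (a = 1 ∨ a = -1) → (a' = 1 ∨ a' = -1) → (b' = 1 ∨ b' = -1) →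
      (c' = 1 ∨ c' = -1) → (d' = 1 ∨ d' = -1) → a = - (a' * c' * d') →
      Infeas ![a, 1, 1, 1] ![a', b', c', d'] := by
    intro a a' b' c' d' ha ha' hb' hc' hd' h
    rcases ha with rfl | rfl
    · rcases ha' with rfl | rfl
      · rcases hc' with rfl | rfl
        · rcases hd' with rfl | rfl
          · norm_num at h
          · rcases hb' with rfl | rfl
            · exact h1
            · exact h3
        · rcases hd' with rfl | rfl
          · apply Infeas.exch_vec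
            rcases hb' with rfl | rfl
            · exact h1
            · exact h3
          · norm_num at h
      · rcases hc' with rfl | rfl
        · rcases hd' with rfl | rfl
          · rcases hb' with rfl | rfl
            · exact h5
            · exact h6
          · norm_num at h
        · rcases hd' with rfl | rfl
          · norm_num at h
          · rcases hb' with rfl | rfl
            · exact h7
            · exact h8
    · rcases ha' with rfl | rfl
      · apply Infeas.symm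
        apply Infeas.refl_vec b' c' d' hb' hc' hd'
        have hb2 : b' * b' = 1 := by rcases hb' with rfl | rfl <;> norm_num
        have hc2 : c' * c' = 1 := by rcases hc' with rfl | rfl <;> norm_num
        have hd2 : d' * d' = 1 := by rcases hd' with rfl | rfl <;> norm_num
        rw [hb2, hc2, hd2, mul_one, mul_one, mul_one]
        rcases hc' with rfl | rfl
        · rcases hd' with rfl | rfl
          · rcases hb' with rfl | rfl
            · exact h5
            · exact h6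
          · norm_num at h
        · rcases hd' with rfl | rfl
          · norm_num at h
          · rcases hb' with rfl | rfl
            · exact h7
            · exact h8
      · rcases hc' with rfl | rfl
        · rcases hd' with rfl | rfl
          · norm_num at h
          · rcases hb' with rfl | rfl
            · exact h2
            · exact h4
        · rcases hd' with rfl | rfl
          · apply Infeas.exch_vec
            rcases hb' with rfl | rfl
            · exact h2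
            · exact h4
          · norm_num at h
  have hse : s = ![s 0, s 1, s 2, s 3] := by
    funext j; fin_cases j <;> rfl
  have hse' : s' = ![s' 0, s' 1, s' 2, s' 3] := by
    funext j; fin_cases j <;> rfl
  rw [hse, hse']
  apply Infeas.refl_vec (s 1) (s 2) (s 3) (hs 1) (hs 2) (hs 3)
  have hsq : ∀ j, s j * s j = 1 := fun j => by rcases hs j with h | h <;> rw [h] <;> norm_num
  have hpm : ∀ j, s j * s' j = 1 ∨ s j * s' j = -1 := fun j => by
    rcases hs j with h | h <;> rcases hs' j with h' | h' <;> rw [h, h'] <;> norm_num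
  rw [hsq, hsq, hsq]
  refine base _ _ _ _ _ (hs 0) (hs' 0) (hpm 1) (hpm 2) (hpm 3) ?_
  have e1 : s 0 * s 2 * s 3 * (s 2 * s 3) = s 0 := by
    calc s 0 * s 2 * s 3 * (s 2 * s 3) = s 0 * (s 2 * s 2) * (s 3 * s 3) := by ring
      _ = s 0 := by rw [hsq, hsq]; ring
  calc s 0 = s 0 * s 2 * s 3 * (s 2 * s 3) := e1.symm
    _ = - (s' 0 * s' 2 * s' 3) * (s 2 * s 3) := by rw [hchi]
    _ = - (s' 0 * (s 2 * s' 2) * (s 3 * s' 3)) := by ring

end Pool.Agent.CW4
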