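import Pool.Agent.CW4.Width
import Pool.Agent.CW4.Circum
import Pool.Agent.CW4.Frame
import Pool.Agent.CW4.Signs

/-!
# Bodies of constant width in dimension four: the final assembly

`illuminated` proves S11071 from the eight infeasibility statements.
-/

set_option autoImplicit false

open scoped BigOperators Pointwise

namespace Pool.Agent.CW4

/-- The full statement from the eight certificates. -/
theorem illuminated
    (h1 : Infeas ![1,1,1,1] ![1,1,1,-1]) (h2 : Infeas ![-1,1,1,1] ![-1,1,1,-1])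
    (h3 : Infeas ![1,1,1,1] ![1,-1,1,-1]) (h4 : Infeas ![-1,1,1,1] ![-1,-1,1,-1])
    (h5 : Infeas ![1,1,1,1] ![-1,1,1,1]) (h6 : Infeas ![1,1,1,1] ![-1,-1,1,1])
    (h7 : Infeas ![1,1,1,1] ![-1,1,-1,-1]) (h8 : Infeas ![1,1,1,1] ![-1,-1,-1,-1])
    (K : Set (EuclideanSpace ℝ (Fin 4))) (hc : IsCompact K) (hconv : Convex ℝ K)
    (hint : (interior K).Nonempty)
    (hw : ∃ w : ℝ, ∀ u : EuclideanSpace ℝ (Fin 4), ‖u‖ = 1 →
        IsLUB {s : ℝ | ∃ x ∈ K, ∃ y ∈ K, s = inner ℝ u (x - y)} w) :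
    ∃ D : Finset (EuclideanSpace ℝ (Fin 4)), D.card ≤ 8 ∧
        ∀ x ∈ frontier K, ∃ d ∈ D, ∃ t : ℝ, 0 < t ∧ x + t • d ∈ interior K := by
  obtain ⟨r, hr, hK⟩ := CW_of_width K hc hconv hint hw
  refine illuminate_of_smul K r hr ?_
  obtain ⟨e, he, hno⟩ := exists_good_frame_of circum sign_lemma (r • K) hK
    (infeas_all h1 h2 h3 h4 h5 h6 h7 h8)
  exact illuminate_of_no_kill (r • K) hK e he hno

end Pool.Agent.CW4
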