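import Pool.Agent.CW4.Glue
import Pool.Agent.CW4.Cases

/-!
# Bodies of constant width in dimension four: the frame, and light sources at finite distance

`frame`: the eight directions of `S11071` are `e i` and `- e i` for an orthonormal frame `e`.
`uniform`: compactness, one margin for all boundary points.
`sources`: the eight points `c + T • e i`, `c - T • e i` illuminate `K` for all large `T`.
-/

set_option autoImplicit false

open scoped BigOperators Pointwise
open Set Metric

namespace Pool.Agent.CW4.Net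

theorem frame_of_no_kill (K : Set E) (hK : CW K) (e : Fin 4 → E)
    (hno : ∀ x v, ¬ Kill K e x v) (x : E) (hx : x ∈ frontier K) :
    ∃ i, (∃ t : ℝ, 0 < t ∧ x + t • e i ∈ interior K) ∨
      ∃ t : ℝ, 0 < t ∧ x + t • (- e i) ∈ interior K := by
  by_contra hcon
  push Not at hcon
  have hxK : x ∈ K := by
    have := frontier_subset_closure hx
    rwa [hK.compact.isClosed.closure_eq] at this
  have hd : ∀ i, ∃ v : E, ‖v‖ = 1 ∧ inner ℝ v (e i) = 0 ∧ x - v ∈ K := by
    intro i
    obtain ⟨u, hu0, hum, hud⟩ := exists_normal hK.compact hK.convex hK.int_nonempty hxK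
      (d := e i) (fun t ht => (hcon i).1 t ht)
    obtain ⟨u', hu0', hum', hud'⟩ := exists_normal hK.compact hK.convex hK.int_nonempty hxK
      (d := - e i) (fun t ht => (hcon i).2 t ht)
    rw [inner_neg_right] at hud'
    obtain ⟨z, hz⟩ := hK.int_nonempty
    have hz1 := inner_lt_of_interior hu0 hum hz
    have hz2 := inner_lt_of_interior hu0' hum' hz
    obtain ⟨w, hw0, hwm, hwe⟩ : ∃ w : E, w ≠ 0 ∧ (∀ y ∈ K, inner ℝ w y ≤ inner ℝ w x) ∧
        inner ℝ w (e i) = 0 := by
      by_cases hab : inner ℝ u (e i) = 0 ∧ inner ℝ u' (e i) = 0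
      · exact ⟨u, hu0, hum, hab.1⟩
      · set a : ℝ := inner ℝ u (e i) with ha
        set b : ℝ := - inner ℝ u' (e i) with hb
        have hpos : 0 < a + b := by
          rcases lt_or_eq_of_le hud with h1 | h1
          · linarith
          · rcases lt_or_eq_of_le hud' with h2 | h2
            · linarith
            · exact absurd ⟨h1.symm, by linarith⟩ hab
        refine ⟨b • u + a • u', ?_, ?_, ?_⟩
        · intro h0
          have h1 : inner ℝ (b • u + a • u') (z - x) = (0 : ℝ) := by rw [h0, inner_zero_left]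
          rw [inner_add_left, inner_smul_left, inner_smul_left, inner_sub_right,
            inner_sub_right] at h1
          simp only [conj_trivial] at h1
          rcases lt_or_eq_of_le hud with h2 | h2
          · nlinarith [mul_pos h2 (sub_pos.2 hz2), mul_nonneg hud' (sub_pos.2 hz1).le]
          · have hbpos : 0 < b := by linarith
            nlinarith [mul_nonneg hud (sub_pos.2 hz2).le, mul_pos hbpos (sub_pos.2 hz1)]
        · intro y hy
          rw [inner_add_left, inner_add_left, inner_smul_left, inner_smul_left, inner_smul_left,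
            inner_smul_left]
          simp only [conj_trivial]
          have h1 := hum y hy
          have h2 := hum' y hy
          have h3 := mul_le_mul_of_nonneg_left h1 hud'
          have h4 := mul_le_mul_of_nonneg_left h2 hud
          linarith
        · rw [inner_add_left, inner_smul_left, inner_smul_left]
          simp only [conj_trivial]
          rw [← ha]
          have : inner ℝ u' (e i) = - b := by rw [hb, neg_neg]
          rw [this]
          ring
    have hn : 0 < ‖w‖ := norm_pos_iff.2 hw0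
    refine ⟨‖w‖⁻¹ • w, ?_, ?_, ?_⟩
    · rw [norm_smul, norm_inv, norm_norm, inv_mul_cancel₀ hn.ne']
    · rw [inner_smul_left, hwe, mul_zero]
    · refine hK.normal x hxK _ ?_ ?_
      · rw [norm_smul, norm_inv, norm_norm, inv_mul_cancel₀ hn.ne']
      · intro y hy
        rw [inner_smul_left, inner_smul_left]
        simp only [conj_trivial]
        exact mul_le_mul_of_nonneg_left (hwm y hy) (inv_pos.2 hn).le
  choose v hv1 hv2 hv3 using hd
  exact hno x v ⟨hxK, hv1, hv2, hv3⟩

/-- A body of constant width is illuminated by plus and minus the vectors of an orthonormal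
frame. -/
theorem frame (K : Set E) (hc : IsCompact K) (hconv : Convex ℝ K) (hint : (interior K).Nonempty)
    (hw : ∃ w : ℝ, ∀ u : E, ‖u‖ = 1 →
        IsLUB {s : ℝ | ∃ x ∈ K, ∃ y ∈ K, s = inner ℝ u (x - y)} w) :
    ∃ e : Fin 4 → E, Orthonormal ℝ e ∧ ∀ x ∈ frontier K, ∃ (i : Fin 4) (σ : ℝ),
      (σ = 1 ∨ σ = -1) ∧ ∃ t : ℝ, 0 < t ∧ x + t • (σ • e i) ∈ interior K := by
  obtain ⟨r, hr, hK⟩ := CW_of_width K hc hconv hint hw
  obtain ⟨e, he, hno⟩ := exists_good_frame_of circum sign_lemma (r • K) hK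
    (infeas_all h1 h2 h3 h4 h5 h6 h7 h8)
  refine ⟨e, he, fun x hx => ?_⟩
  have hfr : frontier (r • K) = r • frontier K := by
    rw [frontier, frontier, closure_smul₀' hr.ne', interior_smul₀ hr.ne', smul_set_sdiff₀ hr.ne']
  have hx' : r • x ∈ frontier (r • K) := by
    rw [hfr]
    exact smul_mem_smul_set hx
  have key : ∀ (d : E) (t : ℝ), 0 < t → r • x + t • d ∈ interior (r • K) →
      x + (r⁻¹ * t) • d ∈ interior K := by
    intro d t _ hmem
    rw [interior_smul₀ hr.ne', mem_smul_set_iff_inv_smul_mem₀ hr.ne', smul_add, smul_smul,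
      inv_mul_cancel₀ hr.ne', one_smul, smul_smul] at hmem
    exact hmem
  obtain ⟨i, ⟨t, ht, hm⟩ | ⟨t, ht, hm⟩⟩ := frame_of_no_kill (r • K) hK e hno _ hx'
  · exact ⟨i, 1, Or.inl rfl, r⁻¹ * t, by positivity, by rw [one_smul]; exact key _ t ht hm⟩
  · refine ⟨i, -1, Or.inr rfl, r⁻¹ * t, by positivity, ?_⟩
    rw [neg_smul (1 : ℝ) (e i), one_smul]
    exact key _ t ht hm

/-- One margin for all boundary points. -/
theorem uniform {K : Set E} (hc : IsCompact K) {P : E → Prop}
    (h : ∀ x ∈ frontier K, ∃ d, P d ∧ ∃ t : ℝ, 0 < t ∧ x + t • d ∈ interior K) :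
    ∃ ε : ℝ, 0 < ε ∧ ∀ x ∈ frontier K, ∃ d, P d ∧ ∃ t : ℝ, 0 < t ∧
      ∀ v : E, ‖v‖ < ε → x + t • (d + v) ∈ interior K := by
  have hcf : IsCompact (frontier K) :=
    hc.of_isClosed_subset isClosed_frontier
      (frontier_subset_closure.trans hc.isClosed.closure_eq.subset)
  refine hcf.induction_on (p := fun s => ∃ ε : ℝ, 0 < ε ∧ ∀ x ∈ s, ∃ d, P d ∧ ∃ t : ℝ, 0 < t ∧
      ∀ v : E, ‖v‖ < ε → x + t • (d + v) ∈ interior K) ?_ ?_ ?_ ?_
  · exact ⟨1, one_pos, fun x hx => absurd hx (notMem_empty x)⟩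
  · rintro s t hst ⟨ε, hε, H⟩
    exact ⟨ε, hε, fun x hx => H x (hst hx)⟩
  · rintro s t ⟨ε, hε, H⟩ ⟨ε', hε', H'⟩
    refine ⟨min ε ε', lt_min hε hε', fun x hx => ?_⟩
    rcases hx with hx | hx
    · obtain ⟨d, hd, u, hu, hv⟩ := H x hx
      exact ⟨d, hd, u, hu, fun v hv' => hv v (hv'.trans_le (min_le_left _ _))⟩
    · obtain ⟨d, hd, u, hu, hv⟩ := H' x hx
      exact ⟨d, hd, u, hu, fun v hv' => hv v (hv'.trans_le (min_le_right _ _))⟩
  · intro x hx
    obtain ⟨d, hd, t, ht, hm⟩ := h x hx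
    obtain ⟨r, hr, hball⟩ := Metric.isOpen_iff.1 isOpen_interior _ hm
    refine ⟨ball x (r / 2), mem_nhdsWithin_of_mem_nhds (ball_mem_nhds x (by positivity)),
      r / (2 * t), by positivity, fun y hy => ⟨d, hd, t, ht, fun v hv => hball ?_⟩⟩
    rw [mem_ball, dist_eq_norm] at hy ⊢
    have h1 : y + t • (d + v) - (x + t • d) = (y - x) + t • v := by
      rw [smul_add]; abel
    rw [h1]
    have h2 : ‖t • v‖ < r / 2 := by
      rw [norm_smul, Real.norm_eq_abs, abs_of_pos ht]
      calc t * ‖v‖ < t * (r / (2 * t)) := by gcongr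
        _ = r / 2 := by field_simp
    calc ‖y - x + t • v‖ ≤ ‖y - x‖ + ‖t • v‖ := norm_add_le _ _
      _ < r / 2 + r / 2 := by gcongr
      _ = r := by ring

/-- Light sources at finite distance: `p = c - T • d` with `c` in `K`. -/
theorem sources {K : Set E} (hc : IsCompact K) {P : E → Prop} (hP : ∀ d, P d → ‖d‖ = 1)
    (h : ∀ x ∈ frontier K, ∃ d, P d ∧ ∃ t : ℝ, 0 < t ∧ x + t • d ∈ interior K) :
    ∃ M : ℝ, 0 < M ∧ (∀ x ∈ K, ∀ y ∈ K, ‖x - y‖ < M) ∧ ∃ T₀ : ℝ, 2 * M ≤ T₀ ∧
      ∀ T, T₀ ≤ T → ∀ c ∈ K, ∀ q ∈ frontier K, ∃ d, P d ∧ c - T • d ∉ K ∧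
        ∃ s : ℝ, 0 < s ∧ q + s • (q - (c - T • d)) ∈ interior K := by
  obtain ⟨ε, hε, hu⟩ := uniform hc h
  obtain ⟨C, hC⟩ := Metric.isBounded_iff.1 hc.isBounded
  have hM : ∀ x ∈ K, ∀ y ∈ K, ‖x - y‖ < |C| + 1 := by
    intro x hx y hy
    have := hC hx hy
    rw [dist_eq_norm] at this
    linarith [le_abs_self C]
  have hM0 : 0 < |C| + 1 := by positivity
  refine ⟨|C| + 1, hM0, hM, 2 * (|C| + 1) + (|C| + 1) / ε, by
    have : 0 < (|C| + 1) / ε := by positivity
    linarith, ?_⟩
  intro T hT c hcK q hq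
  have hq' : q ∈ K := by
    have := frontier_subset_closure hq
    rwa [hc.isClosed.closure_eq] at this
  have h1 : 0 < (|C| + 1) / ε := by positivity
  have hT0 : 0 < T := by linarith
  obtain ⟨d, hd, t, ht, hv⟩ := hu q hq
  refine ⟨d, hd, ?_, t / T, by positivity, ?_⟩
  · intro hmem
    have := hM c hcK _ hmem
    rw [sub_sub_cancel, norm_smul, hP d hd, mul_one, Real.norm_eq_abs, abs_of_pos hT0] at this
    linarith
  · have h2 : (t / T) • (q - (c - T • d)) = t • (d + T⁻¹ • (q - c)) := by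
      have : q - (c - T • d) = T • (d + T⁻¹ • (q - c)) := by
        rw [smul_add, smul_smul, mul_inv_cancel₀ hT0.ne', one_smul]; abel
      rw [this, smul_smul, div_mul_cancel₀ _ hT0.ne']
    rw [h2]
    apply hv
    rw [norm_smul, norm_inv, Real.norm_eq_abs, abs_of_pos hT0, inv_mul_lt_iff₀ hT0]
    have h3 := hM q hq' c hcK
    have h4 : |C| + 1 ≤ T * ε := by
      have : (|C| + 1) / ε * ε ≤ T * ε := by gcongr; linarith
      rwa [div_mul_cancel₀ _ hε.ne'] at this
    linarith

theorem line_finrank {p p' : E} (h : p ≠ p') :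
    Module.finrank ℝ (affineSpan ℝ ({p, p'} : Set E)).direction = 1 := by
  rw [direction_affineSpan, vectorSpan_pair]
  exact finrank_span_singleton (sub_ne_zero.2 h)

theorem line_disjoint {K : Set E} {M T : ℝ} {c : E} (hM : ∀ x ∈ K, ∀ y ∈ K, ‖x - y‖ < M)
    (hM0 : 0 < M) (hT : 2 * M ≤ T) (hc : c ∈ K) {a b : E} (ha : ‖a‖ = 1) (hb : ‖b‖ = 1)
    (hab : inner ℝ a b = (0 : ℝ)) :
    Disjoint (affineSpan ℝ ({c - T • a, c - T • b} : Set E) : Set E) K := by
  rw [Set.disjoint_left]
  intro z hz hzK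
  obtain ⟨r, hr⟩ := mem_affineSpan_pair_iff_exists_lineMap_eq.1 hz
  rw [AffineMap.lineMap_apply_module] at hr
  have h1 : c - z = T • ((1 - r) • a + r • b) := by
    rw [← hr]; module
  have h2 := hM c hc z hzK
  have h3 : ‖(1 - r) • a + r • b‖ ^ 2 = (1 - r) ^ 2 + r ^ 2 := by
    rw [norm_add_sq_real, norm_smul, norm_smul, ha, hb, inner_smul_left, inner_smul_right, hab,
      mul_one, mul_one, Real.norm_eq_abs, Real.norm_eq_abs, sq_abs, sq_abs]
    ring
  have h4 : ‖c - z‖ ^ 2 = T ^ 2 * ((1 - r) ^ 2 + r ^ 2) := by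
    rw [h1, norm_smul, mul_pow, h3, Real.norm_eq_abs, sq_abs]
  have h5 : ‖c - z‖ ^ 2 < M ^ 2 := by
    have := norm_nonneg (c - z)
    gcongr
  have h6 : (2 * M) ^ 2 ≤ T ^ 2 := by gcongr
  have h7 : (1 : ℝ) / 2 ≤ (1 - r) ^ 2 + r ^ 2 := by nlinarith [sq_nonneg (2 * r - 1)]
  nlinarith [mul_le_mul_of_nonneg_left h7 (sq_nonneg T)]

end Pool.Agent.CW4.Net
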