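import Pool.Agent.CW4.Conf

/-!
# Soundness of the elementary rules of the certificate checker
-/

set_option autoImplicit false

open scoped BigOperators

namespace Pool.Agent.CW4

/-- three vectors, dropping the coordinate `y`. -/
theorem g3_aux (y x1 x2 x3 a1 a2 a3 m12 m13 m21 m23 m31 m32 η : ℝ) (hη : 0 ≤ η)
    (u1 : a1 ^ 2 + m12 ^ 2 + m13 ^ 2 = 1) (u2 : a2 ^ 2 + m21 ^ 2 + m23 ^ 2 = 1)
    (u3 : a3 ^ 2 + m31 ^ 2 + m32 ^ 2 = 1)
    (h1 : η ≤ y * a1 + x2 * m12 + x3 * m13) (h2 : η ≤ y * a2 + x1 * m21 + x3 * m23)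
    (h3 : η ≤ y * a3 + x1 * m31 + x2 * m32) (hy : y * (a1 + a2 + a3) ≤ 0) :
    3 / 2 * η ^ 2 ≤ x1 ^ 2 + x2 ^ 2 + x3 ^ 2 := by
  set D := x1 * (m21 + m31) + x2 * (m12 + m32) + x3 * (m13 + m23) with hD
  have hDl : 3 * η ≤ D := by
    rw [hD]
    nlinarith
  have hQ : (m21 + m31) ^ 2 + (m12 + m32) ^ 2 + (m13 + m23) ^ 2 ≤ 6 := by
    nlinarith [sq_nonneg (m21 - m31), sq_nonneg (m12 - m32), sq_nonneg (m13 - m23),
      sq_nonneg a1, sq_nonneg a2, sq_nonneg a3]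
  have hCS : D ^ 2 ≤ (x1 ^ 2 + x2 ^ 2 + x3 ^ 2) *
      ((m21 + m31) ^ 2 + (m12 + m32) ^ 2 + (m13 + m23) ^ 2) := by
    rw [hD]
    nlinarith [sq_nonneg (x1 * (m12 + m32) - x2 * (m21 + m31)),
      sq_nonneg (x1 * (m13 + m23) - x3 * (m21 + m31)),
      sq_nonneg (x2 * (m13 + m23) - x3 * (m12 + m32))]
  have h9 : (3 * η) ^ 2 ≤ D ^ 2 := pow_le_pow_left₀ (by linarith) hDl 2
  have h10 : (x1 ^ 2 + x2 ^ 2 + x3 ^ 2) *
      ((m21 + m31) ^ 2 + (m12 + m32) ^ 2 + (m13 + m23) ^ 2) ≤ (x1 ^ 2 + x2 ^ 2 + x3 ^ 2) * 6 :=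
    mul_le_mul_of_nonneg_left hQ (by positivity)
  nlinarith

/-- one vector -/
theorem g2_aux (x1 x2 x3 m1 m2 m3 η : ℝ) (hη : 0 ≤ η) (u : m1 ^ 2 + m2 ^ 2 + m3 ^ 2 = 1)
    (h : η ≤ x1 * m1 + x2 * m2 + x3 * m3) : η ^ 2 ≤ x1 ^ 2 + x2 ^ 2 + x3 ^ 2 := by
  have hCS : (x1 * m1 + x2 * m2 + x3 * m3) ^ 2 ≤ (x1 ^ 2 + x2 ^ 2 + x3 ^ 2) *
      (m1 ^ 2 + m2 ^ 2 + m3 ^ 2) := by
    nlinarith [sq_nonneg (x1 * m2 - x2 * m1), sq_nonneg (x1 * m3 - x3 * m1),
      sq_nonneg (x2 * m3 - x3 * m2)]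
  rw [u, mul_one] at hCS
  exact (pow_le_pow_left₀ hη h 2).trans hCS

/-- The facts used by the rules; `y j = s j * x j`. -/
structure KF (ρ R : ℝ) (y : Fin 4 → ℝ) : Prop where
  hρ : ρ = y 0 ^ 2 + y 1 ^ 2 + y 2 ^ 2 + y 3 ^ 2
  hρR : ρ ≤ R
  hR : R ≤ 2 / 5
  g2 : ∀ j, y j ^ 2 ≤ ρ - ((1 + ρ - R) / 2) ^ 2
  g3 : ∀ j, y j ≤ 0 → y j ^ 2 ≤ ρ - 3 / 2 * ((1 + ρ - R) / 2) ^ 2

theorem kf_of_kill {p b : ℝ} {x : Fin 4 → ℝ} {V : Fin 4 → Fin 4 → ℝ} {s : Fin 4 → ℤ}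
    (hpar : ParC p b) (hk : KillC p b x V) (pm : ∀ j, s j = 1 ∨ s j = -1)
    (nn : ∀ i j, 0 ≤ (s j : ℝ) * V i j) :
    KF (∑ j, x j ^ 2) (p ^ 2 + b ^ 2) (fun j => (s j : ℝ) * x j) := by
  have hs : ∀ j, (s j : ℝ) ^ 2 = 1 := by
    intro j
    rcases pm j with h | h <;> rw [h] <;> norm_num
  have hy : ∀ j, ((s j : ℝ) * x j) ^ 2 = x j ^ 2 := by
    intro j
    rw [mul_pow, hs j, one_mul]
  have hR : p ^ 2 + b ^ 2 ≤ 2 / 5 := by
    have h1 := hpar.b0
    have h2 := hpar.b2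
    have h3 := hpar.pb
    nlinarith
  have hρ0 : 0 ≤ ∑ j, x j ^ 2 := Finset.sum_nonneg (fun j _ => sq_nonneg _)
  have hη : 0 ≤ (1 + (∑ j, x j ^ 2) - (p ^ 2 + b ^ 2)) / 2 := by linarith
  have hd := hk.diag
  have hu := hk.unit
  have hb := hk.bally
  have G1 : ∀ i, (1 + (∑ j, x j ^ 2) - (p ^ 2 + b ^ 2)) / 2 ≤
      x 0 * V i 0 + x 1 * V i 1 + x 2 * V i 2 + x 3 * V i 3 := by
    intro i
    have h1 := hb i
    have h2 := hu i
    simp only [Fin.sum_univ_four] at h1 h2 ⊢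
    nlinarith
  have g3y : ∀ j, (s j : ℝ) * x j ≤ 0 → ∀ t : ℝ, 0 ≤ (s j : ℝ) * t → x j * t ≤ 0 := by
    intro j hj t ht
    have h1 : x j * t = ((s j : ℝ) * x j) * ((s j : ℝ) * t) := by
      have := hs j
      calc x j * t = (s j : ℝ) ^ 2 * (x j * t) := by rw [this, one_mul]
        _ = ((s j : ℝ) * x j) * ((s j : ℝ) * t) := by ring
    rw [h1]
    exact mul_nonpos_of_nonpos_of_nonneg hj ht
  set η := (1 + (∑ j, x j ^ 2) - (p ^ 2 + b ^ 2)) / 2 with hηd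
  have hρ4 : ∑ j, x j ^ 2 = x 0 ^ 2 + x 1 ^ 2 + x 2 ^ 2 + x 3 ^ 2 := Fin.sum_univ_four _
  refine ⟨?_, hk.ballx, hR, ?_, ?_⟩
  · simp only [hy, Fin.sum_univ_four]
  · intro j
    show ((s j : ℝ) * x j) ^ 2 ≤ (∑ j, x j ^ 2) - η ^ 2
    rw [hy j, hρ4]
    have hg := G1 j
    have hun := hu j
    have hdj := hd j
    rw [Fin.sum_univ_four] at hun
    fin_cases j
    · simp only [Fin.zero_eta, Fin.isValue] at hg hun hdj ⊢
      rw [hdj] at hg hun
      have := g2_aux (x 1) (x 2) (x 3) (V 0 1) (V 0 2) (V 0 3) η hη (by linarith) (by linarith)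
      linarith
    · simp only [Fin.mk_one, Fin.isValue] at hg hun hdj ⊢
      rw [hdj] at hg hun
      have := g2_aux (x 0) (x 2) (x 3) (V 1 0) (V 1 2) (V 1 3) η hη (by linarith) (by linarith)
      linarith
    · simp only [Fin.reduceFinMk, Fin.isValue] at hg hun hdj ⊢
      rw [hdj] at hg hun
      have := g2_aux (x 0) (x 1) (x 3) (V 2 0) (V 2 1) (V 2 3) η hη (by linarith) (by linarith)
      linarith
    · simp only [Fin.reduceFinMk, Fin.isValue] at hg hun hdj ⊢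
      rw [hdj] at hg hun
      have := g2_aux (x 0) (x 1) (x 2) (V 3 0) (V 3 1) (V 3 2) η hη (by linarith) (by linarith)
      linarith
  · intro j hj
    show ((s j : ℝ) * x j) ^ 2 ≤ (∑ j, x j ^ 2) - 3 / 2 * η ^ 2
    rw [hy j, hρ4]
    have hg0 := G1 0
    have hg1 := G1 1
    have hg2 := G1 2
    have hg3 := G1 3
    have hu0 := hu 0
    have hu1 := hu 1
    have hu2 := hu 2
    have hu3 := hu 3
    have d0 := hd 0
    have d1 := hd 1
    have d2 := hd 2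
    have d3 := hd 3
    rw [Fin.sum_univ_four] at hu0 hu1 hu2 hu3
    rw [d0] at hg0 hu0
    rw [d1] at hg1 hu1
    rw [d2] at hg2 hu2
    rw [d3] at hg3 hu3
    fin_cases j
    · simp only [Fin.zero_eta, Fin.isValue] at hj ⊢
      have hn := g3y 0 hj (V 1 0 + V 2 0 + V 3 0) (by
        have h1 := nn 1 0
        have h2 := nn 2 0
        have h3 := nn 3 0
        linarith)
      have := g3_aux (x 0) (x 1) (x 2) (x 3) (V 1 0) (V 2 0) (V 3 0) (V 1 2) (V 1 3) (V 2 1)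
        (V 2 3) (V 3 1) (V 3 2) η hη (by linarith) (by linarith) (by linarith) (by linarith)
        (by linarith) (by linarith) hn
      linarith
    · simp only [Fin.mk_one, Fin.isValue] at hj ⊢
      have hn := g3y 1 hj (V 0 1 + V 2 1 + V 3 1) (by
        have h1 := nn 0 1
        have h2 := nn 2 1
        have h3 := nn 3 1
        linarith)
      have := g3_aux (x 1) (x 0) (x 2) (x 3) (V 0 1) (V 2 1) (V 3 1) (V 0 2) (V 0 3) (V 2 0)
        (V 2 3) (V 3 0) (V 3 2) η hη (by linarith) (by linarith) (by linarith) (by linarith)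
        (by linarith) (by linarith) hn
      linarith
    · simp only [Fin.reduceFinMk, Fin.isValue] at hj ⊢
      have hn := g3y 2 hj (V 0 2 + V 1 2 + V 3 2) (by
        have h1 := nn 0 2
        have h2 := nn 1 2
        have h3 := nn 3 2
        linarith)
      have := g3_aux (x 2) (x 0) (x 1) (x 3) (V 0 2) (V 1 2) (V 3 2) (V 0 1) (V 0 3) (V 1 0)
        (V 1 3) (V 3 0) (V 3 1) η hη (by linarith) (by linarith) (by linarith) (by linarith)
        (by linarith) (by linarith) hn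
      linarith
    · simp only [Fin.reduceFinMk, Fin.isValue] at hj ⊢
      have hn := g3y 3 hj (V 0 3 + V 1 3 + V 2 3) (by
        have h1 := nn 0 3
        have h2 := nn 1 3
        have h3 := nn 2 3
        linarith)
      have := g3_aux (x 3) (x 0) (x 1) (x 2) (V 0 3) (V 1 3) (V 2 3) (V 0 1) (V 0 2) (V 1 0)
        (V 1 2) (V 2 0) (V 2 1) η hη (by linarith) (by linarith) (by linarith) (by linarith)
        (by linarith) (by linarith) hn
      linarith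

theorem sumMx_sound {l h : List ℤ} {ys : List ℝ}
    (hl : List.Forall₂ (fun (a : ℤ) (v : ℝ) => (a : ℝ) ≤ v) l ys)
    (hh : List.Forall₂ (fun (a : ℤ) (v : ℝ) => v ≤ (a : ℝ)) h ys) :
    (ys.map fun v => v ^ 2).sum ≤ (sumMx l h : ℝ) := by
  induction hl generalizing h with
  | nil =>
    cases hh
    simp [sumMx]
  | @cons a v l ys ha hl ih =>
    cases hh with
    | @cons b _ h _ hb hh =>
      simp only [List.map_cons, List.sum_cons, sumMx]
      have h1 := ih hh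
      have h2 : v ^ 2 ≤ ((mx2 a b : ℤ) : ℝ) := by
        unfold mx2
        push_cast
        rcases le_total 0 v with hv | hv
        · exact le_trans (by nlinarith) (le_max_right _ _)
        · exact le_trans (by nlinarith) (le_max_left _ _)
      push_cast
      linarith

theorem mx2_sound {a b : ℤ} {v : ℝ} (ha : (a : ℝ) ≤ v) (hb : v ≤ (b : ℝ)) :
    v ^ 2 ≤ ((mx2 a b : ℤ) : ℝ) := by
  unfold mx2
  push_cast
  rcases le_total 0 v with hv | hv
  · exact le_trans (by nlinarith) (le_max_right _ _)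
  · exact le_trans (by nlinarith) (le_max_left _ _)

theorem mn2_sound {a b : ℤ} {v : ℝ} (ha : (a : ℝ) ≤ v) (hb : v ≤ (b : ℝ)) :
    ((mn2 a b : ℤ) : ℝ) ≤ v ^ 2 := by
  unfold mn2
  split_ifs with h1 h2
  · have : (0 : ℝ) < a := by exact_mod_cast h1
    push_cast
    nlinarith
  · have : (b : ℝ) < 0 := by exact_mod_cast h2
    push_cast
    nlinarith
  · push_cast
    positivity

theorem sumMn_sound {l h : List ℤ} {ys : List ℝ}
    (hl : List.Forall₂ (fun (a : ℤ) (v : ℝ) => (a : ℝ) ≤ v) l ys)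
    (hh : List.Forall₂ (fun (a : ℤ) (v : ℝ) => v ≤ (a : ℝ)) h ys) :
    (sumMn l h : ℝ) ≤ (ys.map fun v => v ^ 2).sum := by
  induction hl generalizing h with
  | nil =>
    cases hh
    simp [sumMn]
  | @cons a v l ys ha hl ih =>
    cases hh with
    | @cons b _ h _ hb hh =>
      simp only [List.map_cons, List.sum_cons, sumMn]
      have h1 := ih hh
      have h2 := mn2_sound ha hb
      push_cast
      linarith

/-- one coordinate; `r`, `R` are upper bounds in units `10⁻⁶`. -/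
theorem ruleX_sound {ρ R : ℝ} {y : Fin 4 → ℝ} (hK : KF ρ R y) {R0 r a c : ℤ}
    (hR0 : (R0 : ℝ) ≤ 400000) (hRR : R * 1000000 ≤ R0) (hr : ρ * 1000000 ≤ r)
    (hrR : (r : ℝ) ≤ R0) (j : Fin 4) (ha : (a : ℝ) ≤ y j * 1000) (hc : y j * 1000 ≤ (c : ℝ))
    (h : ruleX r (1000000 + r - R0) a c = true) : False := by
  have hρ0 : 0 ≤ ρ := by rw [hK.hρ]; positivity
  -- real versions
  set r' : ℝ := (r : ℝ) / 1000000 with hr'
  set R' : ℝ := (R0 : ℝ) / 1000000 with hR'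
  have e1 : ρ ≤ r' := by rw [hr']; rw [le_div_iff₀ (by norm_num)]; exact hr
  have e2 : R ≤ R' := by rw [hR']; rw [le_div_iff₀ (by norm_num)]; exact hRR
  have e3 : r' ≤ R' := by rw [hr', hR']; exact div_le_div_of_nonneg_right hrR (by norm_num)
  have e4 : R' ≤ 2 / 5 := by rw [hR', div_le_iff₀ (by norm_num)]; linarith
  -- monotonicity
  have hηR : ((1 + ρ - R') / 2) ^ 2 ≤ ((1 + ρ - R) / 2) ^ 2 :=
    pow_le_pow_left₀ (by linarith) (by linarith) 2
  have m2 : ρ - ((1 + ρ - R) / 2) ^ 2 ≤ r' - ((1 + r' - R') / 2) ^ 2 := by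
    nlinarith [mul_nonneg (sub_nonneg.mpr e1) (show (0 : ℝ) ≤ 2 + 2 * R' - ρ - r' by linarith)]
  have m3 : ρ - 3 / 2 * ((1 + ρ - R) / 2) ^ 2 ≤ r' - 3 / 2 * ((1 + r' - R') / 2) ^ 2 := by
    nlinarith [mul_nonneg (sub_nonneg.mpr e1) (show (0 : ℝ) ≤ 2 + 6 * R' - 3 * ρ - 3 * r' by linarith)]
  have m4 : 3 * ((1 + r' - R') / 2) ^ 2 - 2 * r' ≤ 3 * ((1 + ρ - R) / 2) ^ 2 - 2 * ρ := by
    nlinarith [mul_nonneg (sub_nonneg.mpr e1) (show (0 : ℝ) ≤ 2 + 6 * R' - 3 * ρ - 3 * r' by linarith)]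
  have hrr : (r : ℝ) = r' * 1000000 := by rw [hr']; ring
  have hRR' : (R0 : ℝ) = R' * 1000000 := by rw [hR']; ring
  unfold ruleX at h
  simp only [Bool.or_eq_true, Bool.and_eq_true, decide_eq_true_eq] at h
  rcases h with (⟨h1, h2⟩ | ⟨h1, h2⟩) | h1
  · have h1' : (0 : ℝ) ≤ a := by exact_mod_cast h1
    have h2' : (4 * r * 1000000 - (1000000 + r - R0) * (1000000 + r - R0) : ℝ) <
        4 * a * a * 1000000 := by exact_mod_cast h2
    have h3 := hK.g2 j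
    have h4 : (a : ℝ) * a ≤ (y j * 1000) * (y j * 1000) := mul_le_mul ha ha h1' (by linarith)
    rw [hrr, hRR'] at h2'
    nlinarith
  · have h1' : (c : ℝ) ≤ 0 := by exact_mod_cast h1
    have h2' : (8 * r * 1000000 - 3 * ((1000000 + r - R0) * (1000000 + r - R0)) : ℝ) <
        8 * c * c * 1000000 := by exact_mod_cast h2
    have hyn : y j ≤ 0 := by linarith
    have h3 := hK.g3 j hyn
    have h4 : (c : ℝ) * c ≤ (y j * 1000) * (y j * 1000) := by nlinarith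
    rw [hrr, hRR'] at h2'
    nlinarith
  · have h1' : (4 * (mx2 a c : ℤ) * 1000000 : ℝ) <
        3 * ((1000000 + r - R0) * (1000000 + r - R0)) - 8 * r * 1000000 := by exact_mod_cast h1
    have h2 := mx2_sound ha hc
    have h3 : 3 * ((1 + ρ - R) / 2) ^ 2 - 2 * ρ ≤ y j ^ 2 := by
      have q0 := hK.g2 0
      have q1 := hK.g2 1
      have q2 := hK.g2 2
      have q3 := hK.g2 3
      have q := hK.hρ
      fin_cases j
      · simp only [Fin.zero_eta, Fin.isValue]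
        linarith
      · simp only [Fin.mk_one, Fin.isValue]
        linarith
      · simp only [Fin.reduceFinMk, Fin.isValue]
        linarith
      · simp only [Fin.reduceFinMk, Fin.isValue]
        linarith
    rw [hrr, hRR'] at h1'
    nlinarith

theorem ruleK_sound {ρ R : ℝ} {y : Fin 4 → ℝ} (hK : KF ρ R y) {R1 rl rh : ℤ}
    {a0 a1 a2 a3 c0 c1 c2 c3 : ℤ}
    (hR : R * 1000000 ≤ R1) (hrl : (rl : ℝ) ≤ ρ * 1000000) (hrh : ρ * 1000000 ≤ rh)
    (ha0 : (a0 : ℝ) ≤ y 0 * 1000) (ha1 : (a1 : ℝ) ≤ y 1 * 1000)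
    (ha2 : (a2 : ℝ) ≤ y 2 * 1000) (ha3 : (a3 : ℝ) ≤ y 3 * 1000)
    (hc0 : y 0 * 1000 ≤ (c0 : ℝ)) (hc1 : y 1 * 1000 ≤ (c1 : ℝ))
    (hc2 : y 2 * 1000 ≤ (c2 : ℝ)) (hc3 : y 3 * 1000 ≤ (c3 : ℝ))
    (h : ruleK (min R1 400000) rl rh [a0, a1, a2, a3] [c0, c1, c2, c3] = true) : False := by
  have hρ0 : 0 ≤ ρ := by rw [hK.hρ]; positivity
  have hρR := hK.hρR
  have hR2 := hK.hR
  obtain ⟨R0, hR0⟩ : ∃ R0, R0 = min R1 400000 := ⟨_, rfl⟩
  obtain ⟨r, hr⟩ : ∃ r, r = min rh R0 := ⟨_, rfl⟩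
  have hR0' : (R0 : ℝ) = min (R1 : ℝ) 400000 := by rw [hR0]; push_cast; rfl
  have hr' : (r : ℝ) = min (rh : ℝ) (R0 : ℝ) := by rw [hr]; push_cast; rfl
  have hR04 : (R0 : ℝ) ≤ 400000 := by rw [hR0']; exact min_le_right _ _
  have hRR : R * 1000000 ≤ R0 := by
    rw [hR0']
    exact le_min hR (by linarith)
  have hrr : ρ * 1000000 ≤ r := by
    rw [hr']
    exact le_min hrh (by linarith)
  have hrR : (r : ℝ) ≤ R0 := by rw [hr']; exact min_le_right _ _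
  unfold ruleK at h
  simp only [← hR0, ← hr] at h
  simp only [Bool.or_eq_true, decide_eq_true_eq, anyX, Bool.false_eq_true, or_false] at h
  have X := fun (j : Fin 4) (a c : ℤ) ha hc hx =>
    ruleX_sound hK (R0 := R0) (r := r) (a := a) (c := c) hR04 hRR hrr hrR j ha hc hx
  rcases h with (((h | h) | h) | h) | h
  · have : (R0 : ℝ) < rl := by exact_mod_cast h
    linarith
  · have h1 : (3 * r * 1000000 : ℝ) < (1000000 + r - R0) * (1000000 + r - R0) := by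
      exact_mod_cast h
    set r'' : ℝ := (r : ℝ) / 1000000 with hr''
    set R'' : ℝ := (R0 : ℝ) / 1000000 with hR''
    have e1 : ρ ≤ r'' := by rw [hr'']; rw [le_div_iff₀ (by norm_num)]; exact hrr
    have e2 : R ≤ R'' := by rw [hR'']; rw [le_div_iff₀ (by norm_num)]; exact hRR
    have e3 : r'' ≤ R'' := by rw [hr'', hR'']; exact div_le_div_of_nonneg_right hrR (by norm_num)
    have e4 : R'' ≤ 2 / 5 := by rw [hR'', div_le_iff₀ (by norm_num)]; linarith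
    have e5 : (r : ℝ) = r'' * 1000000 := by rw [hr'']; ring
    have e6 : (R0 : ℝ) = R'' * 1000000 := by rw [hR'']; ring
    have hηR : ((1 + ρ - R'') / 2) ^ 2 ≤ ((1 + ρ - R) / 2) ^ 2 :=
      pow_le_pow_left₀ (by linarith) (by linarith) 2
    have q0 := hK.g2 0
    have q1 := hK.g2 1
    have q2 := hK.g2 2
    have q3 := hK.g2 3
    have q := hK.hρ
    have q5 : 4 * ((1 + ρ - R) / 2) ^ 2 ≤ 3 * ρ := by linarith
    rw [e5, e6] at h1
    nlinarith [mul_nonneg (sub_nonneg.mpr e1) (show (0 : ℝ) ≤ 1 + 2 * R'' - ρ - r'' by linarith)]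
  · rcases h with h | h | h | h
    · exact X 0 _ _ ha0 hc0 h
    · exact X 1 _ _ ha1 hc1 h
    · exact X 2 _ _ ha2 hc2 h
    · exact X 3 _ _ ha3 hc3 h
  · have h1 : ((sumMx [a0, a1, a2, a3] [c0, c1, c2, c3] : ℤ) : ℝ) < rl := by exact_mod_cast h
    have h2 := sumMx_sound (l := [a0, a1, a2, a3]) (h := [c0, c1, c2, c3])
      (ys := [y 0 * 1000, y 1 * 1000, y 2 * 1000, y 3 * 1000])
      (by simp only [List.forall₂_cons, List.Forall₂.nil, and_true]; exact ⟨ha0, ha1, ha2, ha3⟩)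
      (by simp only [List.forall₂_cons, List.Forall₂.nil, and_true]; exact ⟨hc0, hc1, hc2, hc3⟩)
    simp only [List.map_cons, List.map_nil, List.sum_cons, List.sum_nil] at h2
    have q := hK.hρ
    nlinarith
  · have h1 : (rh : ℝ) < ((sumMn [a0, a1, a2, a3] [c0, c1, c2, c3] : ℤ) : ℝ) := by
      exact_mod_cast h
    have h2 := sumMn_sound (l := [a0, a1, a2, a3]) (h := [c0, c1, c2, c3])
      (ys := [y 0 * 1000, y 1 * 1000, y 2 * 1000, y 3 * 1000])
      (by simp only [List.forall₂_cons, List.Forall₂.nil, and_true]; exact ⟨ha0, ha1, ha2, ha3⟩)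
      (by simp only [List.forall₂_cons, List.Forall₂.nil, and_true]; exact ⟨hc0, hc1, hc2, hc3⟩)
    simp only [List.map_cons, List.map_nil, List.sum_cons, List.sum_nil] at h2
    have q := hK.hρ
    nlinarith

theorem ruleP_sound {p b : ℝ} (hpar : ParC p b) {Rl Rh pl ph bl bh : ℤ}
    (hRl : (Rl : ℝ) ≤ (p ^ 2 + b ^ 2) * 1000000) (hRh : (p ^ 2 + b ^ 2) * 1000000 ≤ Rh)
    (hpl : (pl : ℝ) ≤ p * 1000) (hph : p * 1000 ≤ ph)
    (hbl : (bl : ℝ) ≤ b * 1000) (hbh : b * 1000 ≤ bh)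
    (h : ruleP Rl Rh pl ph bl bh = true) : False := by
  have p0 := hpar.p0
  have b0 := hpar.b0
  have pb := hpar.pb
  have hp2 : (p * 1000) * (p * 1000) ≤ (ph : ℝ) * ph :=
    mul_le_mul hph hph (by positivity) (by linarith [mul_nonneg p0 (show (0 : ℝ) ≤ 1000 by norm_num)])
  have hb2 : (b * 1000) * (b * 1000) ≤ (bh : ℝ) * bh :=
    mul_le_mul hbh hbh (by positivity) (by linarith [mul_nonneg b0 (show (0 : ℝ) ≤ 1000 by norm_num)])
  unfold ruleP at h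
  simp only [Bool.or_eq_true, Bool.and_eq_true, decide_eq_true_eq] at h
  rcases h with ((⟨⟨h1, h2⟩, h3⟩ | h) | h) | ⟨h1, h2⟩
  · have h1' : (0 : ℝ) ≤ pl := by exact_mod_cast h1
    have h2' : (0 : ℝ) ≤ bl := by exact_mod_cast h2
    have h3' : (Rh : ℝ) < pl * pl + bl * bl := by exact_mod_cast h3
    have h4 : (pl : ℝ) * pl ≤ (p * 1000) * (p * 1000) := mul_le_mul hpl hpl h1' (by linarith)
    have h5 : (bl : ℝ) * bl ≤ (b * 1000) * (b * 1000) := mul_le_mul hbl hbl h2' (by linarith)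
    nlinarith
  · have h' : (ph * ph + bh * bh : ℝ) < Rl := by exact_mod_cast h
    nlinarith
  · have h' : (8 * (bh * bh) : ℝ) < 5 * Rl := by exact_mod_cast h
    nlinarith
  · have h1' : (0 : ℝ) ≤ pl := by exact_mod_cast h1
    have h2' : (3 * Rh : ℝ) < 8 * (pl * pl) := by exact_mod_cast h2
    have h4 : (pl : ℝ) * pl ≤ (p * 1000) * (p * 1000) := mul_le_mul hpl hpl h1' (by linarith)
    nlinarith

theorem triv_sound (B : Box) (h : triv B = true) {p b : ℝ} {x : Fin 4 → ℝ}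
    {V : Fin 4 → Fin 4 → ℝ} {x' : Fin 4 → ℝ} {V' : Fin 4 → Fin 4 → ℝ} {s s' : Fin 4 → ℤ}
    (hc : Conf p b x V x' V' s s') (hb : InBox B (vals p b x x' s s')) : False := by
  obtain ⟨lo, hi⟩ := B
  obtain ⟨hlo, hhi⟩ := hb
  simp only at hlo hhi
  unfold vals at hlo hhi
  have K := kf_of_kill hc.par hc.k hc.pm hc.nn
  have K' := kf_of_kill hc.par hc.k' hc.pm' hc.nn'
  unfold triv at h
  simp only at h
  split at h
  · next R r r' a b c d a' b' c' d' p q R1 s s' e f g h e' f' g' h' p1 q1 =>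
    simp only [List.forall₂_cons, List.Forall₂.nil, and_true] at hlo hhi
    obtain ⟨l0, l1, l2, l3, l4, l5, l6, l7, l8, l9, l10, l11, l12⟩ := hlo
    obtain ⟨u0, u1, u2, u3, u4, u5, u6, u7, u8, u9, u10, u11, u12⟩ := hhi
    simp only [Bool.or_eq_true] at h
    rcases h with (h | h) | h
    · exact ruleK_sound K u0 l1 u1 l3 l4 l5 l6 u3 u4 u5 u6 h
    · exact ruleK_sound K' u0 l2 u2 l7 l8 l9 l10 u7 u8 u9 u10 h
    · exact ruleP_sound hc.par l0 u0 l11 u11 l12 u12 h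
  · exact absurd h (by simp)

end Pool.Agent.CW4
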