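import Pool.Agent.CW4.FastSound4
import Pool.Agent.CW4.Rules

/-! # Soundness of the tree check -/

set_option autoImplicit false

open scoped BigOperators

namespace Pool.Agent.CW4

theorem forall₂_set {R : ℤ → ℝ → Prop} {l : List ℤ} {v : List ℝ} (h : List.Forall₂ R l v)
    (i : ℕ) (t : ℤ) (ht : R t (v.getD i 0)) : List.Forall₂ R (l.set i t) v := by
  induction h generalizing i with
  | nil => simp
  | cons h1 h2 ih =>
    cases i with
    | zero =>
      simp only [List.set_cons_zero]
      exact List.Forall₂.cons (by simpa using ht) h2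
    | succ i =>
      simp only [List.set_cons_succ]
      exact List.Forall₂.cons h1 (ih i (by simpa using ht))

theorem eqL_eq {a b : List ℤ} (h : eqL a b = true) : a = b := by
  induction a generalizing b with
  | nil => cases b with
    | nil => rfl
    | cons _ _ => simp [eqL] at h
  | cons x a ih => cases b with
    | nil => simp [eqL] at h
    | cons y b =>
      simp only [eqL, Bool.and_eq_true, beq_iff_eq] at h
      rw [h.1, ih h.2]

theorem AllOK.mem {ss ss' : List ℤ} {l : List Box} (h : AllOK ss ss' l) {b : Box} (hb : b ∈ l) :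
    ∃ d, leafOKF ss ss' b d = true := by
  induction h with
  | nil => simp at hb
  | cons h t ih =>
    rcases List.mem_cons.1 hb with rfl | hb
    · exact ⟨_, h⟩
    · exact ih hb

theorem tree_sound {p b : ℝ} {x : Pt} {V : Fin 4 → Pt} {x' : Pt}
    {V' : Fin 4 → Pt} {s s' : Fin 4 → ℤ} (hc : Conf p b x V x' V' s s') {known : List Box}
    (hk : AllOK [s 0, s 1, s 2, s 3] [s' 0, s' 1, s' 2, s' 3] known)
    (Tr : TreeG) (B : Box) (h : Tr.check known B = true)
    (hb : InBox B (vals p b x x' s s')) : False := by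
  induction Tr generalizing B with
  | S v t l r ihl ihr =>
    simp only [TreeG.check, Bool.and_eq_true] at h
    rcases le_total ((vals p b x x' s s').getD v 0) (t : ℝ) with hle | hle
    · exact ihl _ h.1 ⟨hb.lo, forall₂_set hb.hi v t hle⟩
    · exact ihr _ h.2 ⟨forall₂_set hb.lo v t hle, hb.hi⟩
  | T => exact triv_sound B h hc hb
  | K i =>
    simp only [TreeG.check] at h
    cases hi : known[i]? with
    | none => rw [hi] at h; simp at h
    | some b' =>
      rw [hi] at h
      simp only [Bool.and_eq_true] at h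
      have hmem : b' ∈ known := List.mem_of_getElem? hi
      obtain ⟨d, hd⟩ := hk.mem hmem
      have hB : InBox b' (vals p b x x' s s') := by
        constructor
        · rw [← eqL_eq h.1]; exact hb.lo
        · rw [← eqL_eq h.2]; exact hb.hi
      exact leafOKF_sound hd hc hB

/-- A slice of `p² + b²` is excluded. -/
def SliceOK (s s' : Fin 4 → ℤ) (lo hi : ℤ) : Prop :=
  ∀ (p b : ℝ) (x : Pt) (V : Fin 4 → Pt) (x' : Pt) (V' : Fin 4 → Pt),
    Conf p b x V x' V' s s' → (lo : ℝ) ≤ (p ^ 2 + b ^ 2) * 1000000 →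
    (p ^ 2 + b ^ 2) * 1000000 ≤ (hi : ℝ) → False

theorem par_le {p b : ℝ} (h : ParC p b) : p ^ 2 + b ^ 2 ≤ 2 / 5 := by
  have := h.pb
  have := h.b0
  have := h.b2
  nlinarith

theorem slice_of_check {s s' : Fin 4 → ℤ} {lo hi : ℤ} {ss ss' : List ℤ} {known : List Box}
    (Tr : TreeG) (hk : AllOK ss ss' known)
    (h : Tr.check known (rootBox lo hi) = true) (hss : ss = [s 0, s 1, s 2, s 3])
    (hss' : ss' = [s' 0, s' 1, s' 2, s' 3]) : SliceOK s s' lo hi := by
  subst hss hss'
  intro p b x V x' V' hc h1 h2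
  refine tree_sound hc hk Tr _ h ?_
  have hR := par_le hc.par
  have hx := hc.k.ballx
  have hx' := hc.k'.ballx
  have coord : ∀ (y : Pt) (σ : ℤ), (σ = 1 ∨ σ = -1) → ∑ j, y j ^ 2 ≤ 2 / 5 → ∀ i,
      -1000 ≤ (σ : ℝ) * y i * 1000 ∧ (σ : ℝ) * y i * 1000 ≤ 1000 := by
    intro y σ hσ hy i
    have hi : y i ^ 2 ≤ ∑ j, y j ^ 2 :=
      Finset.single_le_sum (f := fun j => y j ^ 2) (fun j _ => sq_nonneg _) (Finset.mem_univ i)
    have hi2 : y i ^ 2 ≤ 1 := by linarith
    have h3 : |y i| ≤ 1 := by
      rw [← sq_abs] at hi2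
      nlinarith [abs_nonneg (y i)]
    rw [abs_le] at h3
    rcases hσ with rfl | rfl <;> push_cast <;> constructor <;> linarith
  have c1 := coord x
  have c2 := coord x'
  have n0 : (0 : ℝ) ≤ (∑ j, x j ^ 2) * 1000000 := by positivity
  have n0' : (0 : ℝ) ≤ (∑ j, x' j ^ 2) * 1000000 := by positivity
  have hp := hc.par.p0
  have hb := hc.par.b0
  have hb2 := hc.par.b2
  have hp1 : p ≤ 1 := by nlinarith
  constructor
  · unfold rootBox vals
    refine List.Forall₂.cons h1 (List.Forall₂.cons (by simpa using n0) (List.Forall₂.cons (by simpa using n0')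
      (List.Forall₂.cons ?_ (List.Forall₂.cons ?_ (List.Forall₂.cons ?_ (List.Forall₂.cons ?_
      (List.Forall₂.cons ?_ (List.Forall₂.cons ?_ (List.Forall₂.cons ?_ (List.Forall₂.cons ?_
      (List.Forall₂.cons ?_ (List.Forall₂.cons ?_ List.Forall₂.nil))))))))))))
    · have := (c1 (s 0) (hc.pm 0) (by linarith) 0).1; push_cast; linarith
    · have := (c1 (s 1) (hc.pm 1) (by linarith) 1).1; push_cast; linarith
    · have := (c1 (s 2) (hc.pm 2) (by linarith) 2).1; push_cast; linarith
    · have := (c1 (s 3) (hc.pm 3) (by linarith) 3).1; push_cast; linarith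
    · have := (c2 (s' 0) (hc.pm' 0) (by linarith) 0).1; push_cast; linarith
    · have := (c2 (s' 1) (hc.pm' 1) (by linarith) 1).1; push_cast; linarith
    · have := (c2 (s' 2) (hc.pm' 2) (by linarith) 2).1; push_cast; linarith
    · have := (c2 (s' 3) (hc.pm' 3) (by linarith) 3).1; push_cast; linarith
    · push_cast; linarith
    · push_cast; linarith
  · unfold rootBox vals
    refine List.Forall₂.cons h2 (List.Forall₂.cons ?_ (List.Forall₂.cons ?_
      (List.Forall₂.cons ?_ (List.Forall₂.cons ?_ (List.Forall₂.cons ?_ (List.Forall₂.cons ?_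
      (List.Forall₂.cons ?_ (List.Forall₂.cons ?_ (List.Forall₂.cons ?_ (List.Forall₂.cons ?_
      (List.Forall₂.cons ?_ (List.Forall₂.cons ?_ List.Forall₂.nil))))))))))))
    · push_cast; linarith
    · push_cast; linarith
    · have := (c1 (s 0) (hc.pm 0) (by linarith) 0).2; push_cast; linarith
    · have := (c1 (s 1) (hc.pm 1) (by linarith) 1).2; push_cast; linarith
    · have := (c1 (s 2) (hc.pm 2) (by linarith) 2).2; push_cast; linarith
    · have := (c1 (s 3) (hc.pm 3) (by linarith) 3).2; push_cast; linarith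
    · have := (c2 (s' 0) (hc.pm' 0) (by linarith) 0).2; push_cast; linarith
    · have := (c2 (s' 1) (hc.pm' 1) (by linarith) 1).2; push_cast; linarith
    · have := (c2 (s' 2) (hc.pm' 2) (by linarith) 2).2; push_cast; linarith
    · have := (c2 (s' 3) (hc.pm' 3) (by linarith) 3).2; push_cast; linarith
    · push_cast; linarith
    · push_cast; linarith

/-- joining adjacent slices -/
theorem SliceOK.join {s s' : Fin 4 → ℤ} {a m c : ℤ} (h1 : SliceOK s s' a m)
    (h2 : SliceOK s s' m c) : SliceOK s s' a c := by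
  intro p b x V x' V' hc l h
  rcases le_total ((p ^ 2 + b ^ 2) * 1000000) (m : ℝ) with hm | hm
  · exact h1 p b x V x' V' hc l hm
  · exact h2 p b x V x' V' hc hm h

theorem infeas_of_slice {s s' : Fin 4 → ℤ} (hs : ∀ j, s j = 1 ∨ s j = -1)
    (hs' : ∀ j, s' j = 1 ∨ s' j = -1) (h : SliceOK s s' 0 400000) :
    Infeas (fun j => (s j : ℝ)) (fun j => (s' j : ℝ)) := by
  intro p b x V x' V' hp k k' cr sg sg'
  have hR := par_le hp
  refine h p b x V x' V' ⟨hp, k, k', cr, hs, hs', sg.nn, sg'.nn⟩ ?_ ?_
  · push_cast; positivity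
  · push_cast; linarith

end Pool.Agent.CW4
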