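import Pool.Agent.CW4.Basic

/-!
# From constant width to kills (step F1 of MP_ba7b31_co, S11071)
-/

set_option autoImplicit false

open Set Filter Topology
open scoped BigOperators Pointwise

namespace Pool.Agent.CW4

/-- F1a -/
theorem CW_of_width (K : Set E) (hc : IsCompact K) (hconv : Convex ℝ K) (hint : (interior K).Nonempty)
    (hw : ∃ w : ℝ, ∀ u : E, ‖u‖ = 1 →
        IsLUB {s : ℝ | ∃ x ∈ K, ∃ y ∈ K, s = inner ℝ u (x - y)} w) :
    ∃ r : ℝ, 0 < r ∧ CW (r • K) := by
  obtain ⟨w, hw⟩ := hw
  have hwpos : 0 < w := by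
    obtain ⟨x0, hx0⟩ := hint
    obtain ⟨ε, hε, hball⟩ := Metric.isOpen_iff.1 isOpen_interior x0 hx0
    let u : E := EuclideanSpace.single 0 1
    have hu : ‖u‖ = 1 := by simp [u]
    have h1 : x0 + (ε / 2) • u ∈ K := by
      apply interior_subset
      apply hball
      rw [Metric.mem_ball, dist_eq_norm, add_sub_cancel_left, norm_smul, hu, Real.norm_eq_abs,
        abs_of_pos (by positivity)]
      linarith
    have h2 := (hw u hu).1 ⟨x0 + (ε / 2) • u, h1, x0, interior_subset hx0, rfl⟩
    rw [add_sub_cancel_left, inner_smul_right, real_inner_self_eq_norm_sq, hu] at h2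
    linarith
  have hdiam : ∀ a ∈ K, ∀ b ∈ K, ‖a - b‖ ≤ w := by
    intro a ha b hb
    rcases eq_or_ne a b with rfl | hab
    · simpa using hwpos.le
    · have hn : 0 < ‖a - b‖ := norm_pos_iff.2 (sub_ne_zero.2 hab)
      have hu : ‖(‖a - b‖⁻¹ • (a - b) : E)‖ = 1 := by
        rw [norm_smul, norm_inv, norm_norm, inv_mul_cancel₀ hn.ne']
      have h2 := (hw _ hu).1 ⟨a, ha, b, hb, rfl⟩
      rw [inner_smul_left, real_inner_self_eq_norm_sq] at h2
      simp only [conj_trivial] at h2
      have h3 : ‖a - b‖⁻¹ * ‖a - b‖ ^ 2 = ‖a - b‖ := by field_simp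
      rwa [h3] at h2
  have hr : (w⁻¹ : ℝ) ≠ 0 := inv_ne_zero hwpos.ne'
  refine ⟨w⁻¹, inv_pos.2 hwpos, ?_⟩
  refine ⟨hc.smul w⁻¹, hconv.smul w⁻¹, ?_, ?_, ?_⟩
  · rw [interior_smul₀ hr]
    exact hint.smul_set
  · rintro _ ⟨a, ha, rfl⟩ _ ⟨b, hb, rfl⟩
    simp only
    rw [← smul_sub, norm_smul, norm_inv, Real.norm_eq_abs, abs_of_pos hwpos]
    calc w⁻¹ * ‖a - b‖ ≤ w⁻¹ * w := by gcongr; exact hdiam a ha b hb
      _ = 1 := inv_mul_cancel₀ hwpos.ne'
  · rintro _ ⟨x, hx, rfl⟩ u hu hmax
    have hmax' : ∀ y ∈ K, inner ℝ u y ≤ inner ℝ u x := by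
      intro y hy
      have h1 := hmax (w⁻¹ • y) (smul_mem_smul_set hy)
      simp only [inner_smul_right] at h1
      exact le_of_mul_le_mul_left h1 (inv_pos.2 hwpos)
    obtain ⟨y0, hy0, hmin⟩ := hc.exists_isMinOn ⟨x, hx⟩ (f := fun y : E => inner ℝ u y)
      (by fun_prop)
    have hwle : w ≤ inner ℝ u (x - y0) := by
      refine (hw u hu).2 ?_
      rintro s ⟨x1, hx1, y1, hy1, rfl⟩
      rw [inner_sub_right, inner_sub_right]
      have h1 := hmax' x1 hx1
      have h2 : inner ℝ u y0 ≤ inner ℝ u y1 := hmin hy1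
      linarith
    have hle := hdiam x hx y0 hy0
    have hzero : ‖(x - y0) - w • u‖ ^ 2 ≤ 0 := by
      rw [norm_sub_sq_real, norm_smul, inner_smul_right, real_inner_comm, hu, Real.norm_eq_abs,
        abs_of_pos hwpos]
      nlinarith [norm_nonneg (x - y0)]
    have hz : (x - y0) - w • u = 0 := by
      rw [← norm_eq_zero]
      have := sq_nonneg ‖(x - y0) - w • u‖
      have h0 : ‖(x - y0) - w • u‖ ^ 2 = 0 := le_antisymm hzero this
      exact pow_eq_zero_iff (two_ne_zero) |>.1 h0
    refine ⟨y0, hy0, ?_⟩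
    simp only
    have h1 : y0 = x - w • u := by
      have := sub_eq_zero.1 hz
      rw [← this]; abel
    rw [h1, smul_sub, smul_smul, inv_mul_cancel₀ hwpos.ne', one_smul]

/-- An interior point is strictly below an outer normal. -/
theorem inner_lt_of_interior {K : Set E} {x u z : E} (hu : u ≠ 0)
    (hmax : ∀ y ∈ K, inner ℝ u y ≤ inner ℝ u x) (hz : z ∈ interior K) :
    inner ℝ u z < inner ℝ u x := by
  obtain ⟨ε, hε, hball⟩ := Metric.isOpen_iff.1 isOpen_interior z hz
  have hn : 0 < ‖u‖ := norm_pos_iff.2 hu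
  have h1 : z + (ε / (2 * ‖u‖)) • u ∈ K := by
    apply interior_subset
    apply hball
    rw [Metric.mem_ball, dist_eq_norm, add_sub_cancel_left, norm_smul, Real.norm_eq_abs,
      abs_of_pos (by positivity)]
    have : ε / (2 * ‖u‖) * ‖u‖ = ε / 2 := by field_simp
    rw [this]
    linarith
  have h2 := hmax _ h1
  rw [inner_add_right, inner_smul_right, real_inner_self_eq_norm_sq] at h2
  have h3 : 0 < ε / (2 * ‖u‖) * ‖u‖ ^ 2 := by positivity
  linarith

/-- Outer normals at a point that is not illuminated by `d`. -/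
theorem exists_normal {K : Set E} (hc : IsCompact K) (hconv : Convex ℝ K)
    (hint : (interior K).Nonempty) {x d : E} (hx : x ∈ K)
    (h : ∀ t : ℝ, 0 < t → x + t • d ∉ interior K) :
    ∃ u : E, u ≠ 0 ∧ (∀ y ∈ K, inner ℝ u y ≤ inner ℝ u x) ∧ 0 ≤ inner ℝ u d := by
  have hray : Convex ℝ ((fun t : ℝ => x + t • d) '' Ioi 0) := by
    have : (fun t : ℝ => x + t • d) '' Ioi 0 = (fun y : E => x + y) '' ((fun t : ℝ => t • d) '' Ioi 0) := by
      rw [image_image]
    rw [this]
    have h1 : Convex ℝ ((fun t : ℝ => t • d) '' Ioi 0) :=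
      (convex_Ioi (0 : ℝ)).is_linear_image (IsLinearMap.mk (fun a b => add_smul a b d)
        (fun a b => by simp [smul_smul]))
    exact h1.translate x
  have hdisj : Disjoint (interior K) ((fun t : ℝ => x + t • d) '' Ioi 0) := by
    rw [Set.disjoint_left]
    rintro _ hy ⟨t, ht, rfl⟩
    exact h t ht hy
  obtain ⟨f, c, hf1, hf2⟩ := geometric_hahn_banach_open hconv.interior isOpen_interior hray hdisj
  have hfray : ∀ t : ℝ, 0 < t → c ≤ f x + t * f d := by
    intro t ht
    have := hf2 _ ⟨t, ht, rfl⟩
    simpa using this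
  have hfx : c ≤ f x := by
    have hlim : Tendsto (fun t : ℝ => f x + t * f d) (𝓝[>] 0) (𝓝 (f x + 0 * f d)) := by
      apply Tendsto.mono_left _ nhdsWithin_le_nhds
      exact (Continuous.tendsto (by fun_prop) 0)
    rw [zero_mul, add_zero] at hlim
    exact ge_of_tendsto hlim (by filter_upwards [self_mem_nhdsWithin] with t ht using hfray t ht)
  have hfK : ∀ y ∈ K, f y ≤ c := by
    intro y hy
    have h1 : y ∈ closure (interior K) := by
      rw [hconv.closure_interior_eq_closure_of_nonempty_interior hint]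
      exact subset_closure hy
    have h2 : closure (interior K) ⊆ {y | f y ≤ c} :=
      closure_minimal (fun z hz => (hf1 z hz).le) (isClosed_le f.continuous continuous_const)
    exact h2 h1
  have hfxc : f x = c := le_antisymm (hfK x hx) hfx
  set u : E := (InnerProductSpace.toDual ℝ E).symm f with hu
  have hinner : ∀ y : E, inner ℝ u y = f y := fun y => InnerProductSpace.toDual_symm_apply
  refine ⟨u, ?_, ?_, ?_⟩
  · intro h0
    obtain ⟨z, hz⟩ := hint
    have h1 := hf1 z hz
    rw [← hfxc, ← hinner, ← hinner, h0] at h1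
    simp at h1
  · intro y hy
    rw [hinner, hinner, hfxc]
    exact hfK y hy
  · rw [hinner]
    have := hfray 1 one_pos
    rw [hfxc] at this
    linarith

/-- F1b -/
theorem illuminate_of_no_kill (K : Set E) (hK : CW K) (e : Fin 4 → E) (he : Orthonormal ℝ e)
    (hno : ∀ x v, ¬ Kill K e x v) :
    ∃ D : Finset E, D.card ≤ 8 ∧
        ∀ x ∈ frontier K, ∃ d ∈ D, ∃ t : ℝ, 0 < t ∧ x + t • d ∈ interior K := by
  classical
  refine ⟨Finset.univ.image e ∪ Finset.univ.image (fun i => - e i), ?_, ?_⟩
  · calc (Finset.univ.image e ∪ Finset.univ.image (fun i => - e i)).card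
        ≤ (Finset.univ.image e).card + (Finset.univ.image (fun i => - e i)).card :=
          Finset.card_union_le _ _
      _ ≤ 4 + 4 := by
          gcongr
          · exact Finset.card_image_le.trans (by simp)
          · exact Finset.card_image_le.trans (by simp)
      _ = 8 := by norm_num
  · intro x hx
    by_contra hcon
    push Not at hcon
    have hxK : x ∈ K := by
      have := frontier_subset_closure hx
      rwa [hK.compact.isClosed.closure_eq] at this
    have hd : ∀ i, ∃ v : E, ‖v‖ = 1 ∧ inner ℝ v (e i) = 0 ∧ x - v ∈ K := by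
      intro i
      obtain ⟨u, hu0, hum, hud⟩ := exists_normal hK.compact hK.convex hK.int_nonempty hxK
        (d := e i) (fun t ht => hcon (e i) (Finset.mem_union_left _
          (Finset.mem_image_of_mem _ (Finset.mem_univ i))) t ht)
      obtain ⟨u', hu0', hum', hud'⟩ := exists_normal hK.compact hK.convex hK.int_nonempty hxK
        (d := - e i) (fun t ht => hcon (- e i) (Finset.mem_union_right _
          (Finset.mem_image_of_mem (fun i => - e i) (Finset.mem_univ i))) t ht)
      rw [inner_neg_right] at hud'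
      obtain ⟨z, hz⟩ := hK.int_nonempty
      have hz1 := inner_lt_of_interior hu0 hum hz
      have hz2 := inner_lt_of_interior hu0' hum' hz
      obtain ⟨w, hw0, hwm, hwe⟩ : ∃ w : E, w ≠ 0 ∧ (∀ y ∈ K, inner ℝ w y ≤ inner ℝ w x) ∧
          inner ℝ w (e i) = 0 := by
        by_cases hab : inner ℝ u (e i) = 0 ∧ inner ℝ u' (e i) = 0
        · exact ⟨u, hu0, hum, hab.1⟩
        · set a : ℝ := inner ℝ u (e i) with ha
          set b : ℝ := - inner ℝ u' (e i) with hb
          have hpos : 0 < a + b := by
            rcases lt_or_eq_of_le hud with h1 | h1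
            · linarith
            · rcases lt_or_eq_of_le hud' with h2 | h2
              · linarith
              · exact absurd ⟨h1.symm, by linarith⟩ hab
          refine ⟨b • u + a • u', ?_, ?_, ?_⟩
          · intro h0
            have h1 : inner ℝ (b • u + a • u') (z - x) = (0 : ℝ) := by rw [h0, inner_zero_left]
            rw [inner_add_left, inner_smul_left, inner_smul_left, inner_sub_right,
              inner_sub_right] at h1
            simp only [conj_trivial] at h1
            rcases lt_or_eq_of_le hud with h2 | h2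
            · nlinarith [mul_pos h2 (sub_pos.2 hz2), mul_nonneg hud' (sub_pos.2 hz1).le]
            · have hbpos : 0 < b := by linarith
              nlinarith [mul_nonneg hud (sub_pos.2 hz2).le, mul_pos hbpos (sub_pos.2 hz1)]
          · intro y hy
            rw [inner_add_left, inner_add_left, inner_smul_left, inner_smul_left, inner_smul_left,
              inner_smul_left]
            simp only [conj_trivial]
            have h1 := hum y hy
            have h2 := hum' y hy
            have h3 := mul_le_mul_of_nonneg_left h1 hud'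
            have h4 := mul_le_mul_of_nonneg_left h2 hud
            linarith
          · rw [inner_add_left, inner_smul_left, inner_smul_left]
            simp only [conj_trivial]
            rw [← ha]
            have : inner ℝ u' (e i) = - b := by rw [hb, neg_neg]
            rw [this]
            ring
      have hn : 0 < ‖w‖ := norm_pos_iff.2 hw0
      refine ⟨‖w‖⁻¹ • w, ?_, ?_, ?_⟩
      · rw [norm_smul, norm_inv, norm_norm, inv_mul_cancel₀ hn.ne']
      · rw [inner_smul_left, hwe, mul_zero]
      · refine hK.normal x hxK _ ?_ ?_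
        · rw [norm_smul, norm_inv, norm_norm, inv_mul_cancel₀ hn.ne']
        · intro y hy
          rw [inner_smul_left, inner_smul_left]
          simp only [conj_trivial]
          exact mul_le_mul_of_nonneg_left (hwm y hy) (inv_pos.2 hn).le
    choose v hv1 hv2 hv3 using hd
    exact hno x v ⟨hxK, hv1, hv2, hv3⟩

/-- F1c: transfer back from `r • K` to `K`. -/
theorem illuminate_of_smul (K : Set E) (r : ℝ) (hr : 0 < r)
    (h : ∃ D : Finset E, D.card ≤ 8 ∧
        ∀ x ∈ frontier (r • K), ∃ d ∈ D, ∃ t : ℝ, 0 < t ∧ x + t • d ∈ interior (r • K)) :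
    ∃ D : Finset E, D.card ≤ 8 ∧
        ∀ x ∈ frontier K, ∃ d ∈ D, ∃ t : ℝ, 0 < t ∧ x + t • d ∈ interior K := by
  obtain ⟨D, hD, h⟩ := h
  refine ⟨D, hD, fun x hx => ?_⟩
  have hfr : frontier (r • K) = r • frontier K := by
    rw [frontier, frontier, closure_smul₀' hr.ne', interior_smul₀ hr.ne', smul_set_sdiff₀ hr.ne']
  have hx' : r • x ∈ frontier (r • K) := by
    rw [hfr]
    exact smul_mem_smul_set hx
  obtain ⟨d, hd, t, ht, hmem⟩ := h _ hx'
  refine ⟨d, hd, r⁻¹ * t, by positivity, ?_⟩
  rw [interior_smul₀ hr.ne', mem_smul_set_iff_inv_smul_mem₀ hr.ne', smul_add, smul_smul,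
    inv_mul_cancel₀ hr.ne', one_smul, smul_smul] at hmem
  exact hmem

end Pool.Agent.CW4
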